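import Mathlib

/-!
Positivity of polynomials in three variables on a box, by subdivision of homogeneous coefficient
arrays (a Bernstein type test).  A list `[a₀, …, aₙ]` stands for the binary form
`∑ aᵢ X^i Y^(n-i)`, which is nonnegative on the quadrant `X, Y ≥ 0` if all `aᵢ` are; the quadrant is
subdivided into `X ≤ Y` and `Y ≤ X` by the substitutions `Y → X + Y` and `X → X + Y`.
-/

namespace Pool.Agent.MP_58cb87_lc.Bern

/-- value of the binary form with coefficient list `l` -/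
def hev : List ℝ → ℝ → ℝ → ℝ
  | [], _, _ => 0
  | a :: l, X, Y => a * Y ^ l.length + X * hev l X Y

/-- coefficients of `(X + Y) * (form with coefficients prev :: cs) + a * X ^ (deg + 1)`,
without the first one -/
def stepG {α : Type} (add : α → α → α) : α → List α → α → List α
  | prev, [], a => [add prev a]
  | prev, c :: cs, a => add prev c :: stepG add c cs a

/-- one Horner step -/
def stepL {α : Type} (add : α → α → α) : List α → α → List α
  | [], a => [a]
  | c :: cs, a => c :: stepG add c cs a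

/-- coefficients of the form after `Y → X + Y` -/
def shiftAux {α : Type} (add : α → α → α) : List α → List α → List α
  | acc, [] => acc
  | acc, a :: l => shiftAux add (stepL add acc a) l

def shiftG {α : Type} (add : α → α → α) (l : List α) : List α := shiftAux add [] l

/-- coefficients of the form after `X → X + Y` -/
def shiftR {α : Type} (add : α → α → α) (l : List α) : List α :=
  (shiftG add l.reverse).reverse

/-- coefficients of the form after `Y → 2 * Y` -/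
def scaleG {α : Type} (sm : ℤ → α → α) : List α → List α
  | [] => []
  | a :: l => sm (2 ^ l.length) a :: scaleG sm l

/-- alternate the signs of the coefficients: `X → -X` -/
def alt {α : Type} (neg : α → α) : List α → List α
  | [] => []
  | a :: l => a :: (alt neg l).map neg

def splitG {α : Type} (add : α → α → α) (sm : ℤ → α → α) (l : List α) : List α :=
  scaleG sm (shiftG add l)

def splitR {α : Type} (add : α → α → α) (sm : ℤ → α → α) (l : List α) : List α :=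
  (splitG add sm l.reverse).reverse

theorem stepG_length {α : Type} (add : α → α → α) :
    ∀ (cs : List α) (prev a : α), (stepG add prev cs a).length = cs.length + 1
  | [], _, _ => rfl
  | c :: cs, prev, a => by simp [stepG, stepG_length add cs c a]

theorem stepL_length {α : Type} (add : α → α → α) (l : List α) (a : α) :
    (stepL add l a).length = l.length + 1 := by
  cases l with
  | nil => rfl
  | cons c cs => simp [stepL, stepG_length]

theorem shiftAux_length {α : Type} (add : α → α → α) :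
    ∀ (l acc : List α), (shiftAux add acc l).length = acc.length + l.length
  | [], acc => by simp [shiftAux]
  | a :: l, acc => by
      simp only [shiftAux, shiftAux_length add l, stepL_length, List.length_cons]; omega

theorem shiftG_length {α : Type} (add : α → α → α) (l : List α) :
    (shiftG add l).length = l.length := by
  simp [shiftG, shiftAux_length]

theorem shiftR_length {α : Type} (add : α → α → α) (l : List α) :
    (shiftR add l).length = l.length := by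
  simp [shiftR, shiftG_length]

theorem scaleG_length {α : Type} (sm : ℤ → α → α) :
    ∀ (l : List α), (scaleG sm l).length = l.length
  | [] => rfl
  | a :: l => by simp [scaleG, scaleG_length sm l]

theorem alt_length {α : Type} (neg : α → α) :
    ∀ (l : List α), (alt neg l).length = l.length
  | [] => rfl
  | a :: l => by simp [alt, alt_length neg l]

/-! ### the logical relation -/

theorem stepG_rel {α : Type} (add : α → α → α) (R : α → ℝ → Prop)
    (hadd : ∀ x y r t, R x r → R y t → R (add x y) (r + t)) :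
    ∀ (cs : List α) (Cs : List ℝ) (p a : α) (P A : ℝ), List.Forall₂ R cs Cs → R p P → R a A →
      List.Forall₂ R (stepG add p cs a) (stepG (· + ·) P Cs A)
  | [], _, p, a, P, A, h, hp, ha => by
      cases h
      exact List.Forall₂.cons (hadd _ _ _ _ hp ha) List.Forall₂.nil
  | c :: cs, _, p, a, P, A, h, hp, ha => by
      cases h with
      | cons h1 h2 =>
        exact List.Forall₂.cons (hadd _ _ _ _ hp h1) (stepG_rel add R hadd cs _ c a _ A h2 h1 ha)

theorem stepL_rel {α : Type} (add : α → α → α) (R : α → ℝ → Prop)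
    (hadd : ∀ x y r t, R x r → R y t → R (add x y) (r + t))
    (cs : List α) (Cs : List ℝ) (a : α) (A : ℝ) (h : List.Forall₂ R cs Cs) (ha : R a A) :
    List.Forall₂ R (stepL add cs a) (stepL (· + ·) Cs A) := by
  cases h with
  | nil => exact List.Forall₂.cons ha List.Forall₂.nil
  | cons h1 h2 => exact List.Forall₂.cons h1 (stepG_rel add R hadd _ _ _ _ _ _ h2 h1 ha)

theorem shiftAux_rel {α : Type} (add : α → α → α) (R : α → ℝ → Prop)
    (hadd : ∀ x y r t, R x r → R y t → R (add x y) (r + t)) :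
    ∀ (l : List α) (L : List ℝ) (acc : List α) (Acc : List ℝ),
      List.Forall₂ R l L → List.Forall₂ R acc Acc →
      List.Forall₂ R (shiftAux add acc l) (shiftAux (· + ·) Acc L)
  | [], _, acc, Acc, h, hacc => by
      cases h; exact hacc
  | a :: l, _, acc, Acc, h, hacc => by
      cases h with
      | @cons _ A _ L h1 h2 =>
        exact shiftAux_rel add R hadd l L (stepL add acc a) (stepL (· + ·) Acc A) h2
          (stepL_rel add R hadd acc Acc a A hacc h1)

theorem shiftG_rel {α : Type} (add : α → α → α) (R : α → ℝ → Prop)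
    (hadd : ∀ x y r t, R x r → R y t → R (add x y) (r + t))
    (l : List α) (L : List ℝ) (h : List.Forall₂ R l L) :
    List.Forall₂ R (shiftG add l) (shiftG (· + ·) L) :=
  shiftAux_rel add R hadd l L [] [] h List.Forall₂.nil

theorem shiftR_rel {α : Type} (add : α → α → α) (R : α → ℝ → Prop)
    (hadd : ∀ x y r t, R x r → R y t → R (add x y) (r + t))
    (l : List α) (L : List ℝ) (h : List.Forall₂ R l L) :
    List.Forall₂ R (shiftR add l) (shiftR (· + ·) L) :=
  List.rel_reverse (shiftG_rel add R hadd _ _ (List.rel_reverse h))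

theorem scaleG_rel {α : Type} (sm : ℤ → α → α) (R : α → ℝ → Prop)
    (hsm : ∀ c x r, R x r → R (sm c x) ((c : ℝ) * r)) :
    ∀ (l : List α) (L : List ℝ), List.Forall₂ R l L →
      List.Forall₂ R (scaleG sm l) (scaleG (fun c x => (c : ℝ) * x) L)
  | [], _, h => by cases h; exact List.Forall₂.nil
  | a :: l, _, h => by
      cases h with
      | @cons _ A _ L h1 h2 =>
        have hlen : L.length = l.length := h2.length_eq.symm
        rw [scaleG, scaleG, hlen]
        exact List.Forall₂.cons (hsm _ _ _ h1) (scaleG_rel sm R hsm l L h2)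

theorem map_rel {α : Type} (neg : α → α) (R : α → ℝ → Prop)
    (hneg : ∀ x r, R x r → R (neg x) (-r)) :
    ∀ (l : List α) (L : List ℝ), List.Forall₂ R l L →
      List.Forall₂ R (l.map neg) (L.map (fun x => -x))
  | [], _, h => by cases h; exact List.Forall₂.nil
  | a :: l, _, h => by
      cases h with
      | @cons _ A _ L h1 h2 => exact List.Forall₂.cons (hneg _ _ h1) (map_rel neg R hneg l L h2)

theorem alt_rel {α : Type} (neg : α → α) (R : α → ℝ → Prop)
    (hneg : ∀ x r, R x r → R (neg x) (-r)) :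
    ∀ (l : List α) (L : List ℝ), List.Forall₂ R l L →
      List.Forall₂ R (alt neg l) (alt (fun x => -x) L)
  | [], _, h => by cases h; exact List.Forall₂.nil
  | a :: l, _, h => by
      cases h with
      | @cons _ A _ L h1 h2 =>
        exact List.Forall₂.cons h1 (map_rel neg R hneg _ _ (alt_rel neg R hneg l L h2))

/-! ### semantics over the reals -/

theorem hev_stepG (X Y : ℝ) : ∀ (cs : List ℝ) (p a : ℝ),
    p * Y ^ (cs.length + 1) + X * hev (stepG (· + ·) p cs a) X Y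
      = (X + Y) * hev (p :: cs) X Y + a * X ^ (cs.length + 1)
  | [], p, a => by simp [stepG, hev]; ring
  | c :: cs, p, a => by
      have ih := hev_stepG X Y cs c a
      simp only [stepG, hev, stepG_length, List.length_cons] at ih ⊢
      have : X * (X * hev (stepG (· + ·) c cs a) X Y)
          = X * ((X + Y) * (c * Y ^ cs.length + X * hev cs X Y) + a * X ^ (cs.length + 1)
            - c * Y ^ (cs.length + 1)) := by
        rw [← ih]; ring
      rw [mul_add X, this]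
      ring

theorem hev_stepL (X Y : ℝ) (cs : List ℝ) (a : ℝ) :
    hev (stepL (· + ·) cs a) X Y = (X + Y) * hev cs X Y + a * X ^ cs.length := by
  cases cs with
  | nil => simp [stepL, hev]
  | cons c cs =>
    have := hev_stepG X Y cs c a
    simp only [stepL, hev, stepG_length, List.length_cons] at this ⊢
    linarith

theorem hev_shiftAux (X Y : ℝ) : ∀ (l acc : List ℝ),
    hev (shiftAux (· + ·) acc l) X Y
      = (X + Y) ^ l.length * hev acc X Y + X ^ acc.length * hev l X (X + Y)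
  | [], acc => by simp [shiftAux, hev]
  | a :: l, acc => by
      rw [shiftAux, hev_shiftAux X Y l, hev_stepL, stepL_length]
      simp only [hev, List.length_cons]
      ring

theorem hev_shiftG (X Y : ℝ) (l : List ℝ) :
    hev (shiftG (· + ·) l) X Y = hev l X (X + Y) := by
  rw [shiftG, hev_shiftAux]; simp [hev]

theorem hev_append (X Y : ℝ) : ∀ (l m : List ℝ),
    hev (l ++ m) X Y = hev l X Y * Y ^ m.length + X ^ l.length * hev m X Y
  | [], m => by simp [hev]
  | a :: l, m => by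
      simp only [List.cons_append, hev, hev_append X Y l m, List.length_append, List.length_cons]
      ring

theorem hev_reverse (X Y : ℝ) : ∀ (l : List ℝ), hev l.reverse X Y = hev l Y X
  | [] => rfl
  | a :: l => by
      rw [List.reverse_cons, hev_append, hev_reverse X Y l]
      simp [hev]; ring

theorem hev_shiftR (X Y : ℝ) (l : List ℝ) :
    hev (shiftR (· + ·) l) X Y = hev l (X + Y) Y := by
  rw [shiftR, hev_reverse, hev_shiftG, hev_reverse, add_comm]

theorem hev_scaleG (X Y : ℝ) : ∀ (l : List ℝ),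
    hev (scaleG (fun c x => (c : ℝ) * x) l) X Y = hev l X (2 * Y)
  | [] => rfl
  | a :: l => by
      rw [scaleG, hev, hev, hev_scaleG X Y l, scaleG_length, mul_pow]
      push_cast
      ring

theorem hev_map_neg (X Y : ℝ) : ∀ (l : List ℝ),
    hev (l.map (fun x => -x)) X Y = - hev l X Y
  | [] => by simp [hev]
  | a :: l => by
      rw [List.map_cons, hev, hev, hev_map_neg X Y l, List.length_map]
      ring

theorem hev_alt (X Y : ℝ) : ∀ (l : List ℝ),
    hev (alt (fun x => -x) l) X Y = hev l (-X) Y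
  | [] => rfl
  | a :: l => by
      rw [alt, hev, hev, hev_map_neg, hev_alt X Y l, List.length_map, alt_length]
      ring

theorem hev_nonneg {X Y : ℝ} (hX : 0 ≤ X) (hY : 0 ≤ Y) :
    ∀ (l : List ℝ), (∀ a ∈ l, 0 ≤ a) → 0 ≤ hev l X Y
  | [], _ => le_refl _
  | a :: l, h => by
      have h1 : 0 ≤ a := h a (by simp)
      have h2 := hev_nonneg hX hY l (fun b hb => h b (by simp [hb]))
      rw [hev]; positivity

theorem hev_zipWith (X Y : ℝ) : ∀ (l m : List ℝ), l.length = m.length →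
    hev (List.zipWith (· + ·) l m) X Y = hev l X Y + hev m X Y
  | [], [], _ => by simp [hev]
  | a :: l, b :: m, h => by
      have h' : l.length = m.length := by simpa using h
      simp only [List.zipWith_cons_cons, hev, hev_zipWith X Y l m h', List.length_zipWith, h',
        min_self]
      ring

/-! ### the tower of relations: one, two, three pairs of variables -/

/-- integers -/
def R0 (x : ℤ) (r : ℝ) : Prop := (x : ℝ) = r

/-- lists of objects related to reals, of given length, evaluated at `(X, Y)` -/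
def RL {α : Type} (R : α → ℝ → Prop) (n : ℕ) (X Y : ℝ) (l : List α) (r : ℝ) : Prop :=
  ∃ L : List ℝ, List.Forall₂ R l L ∧ L.length = n ∧ hev L X Y = r

/-- addition of lists -/
def addL {α : Type} (add : α → α → α) (l m : List α) : List α := List.zipWith add l m

theorem zipWith_rel {α : Type} (add : α → α → α) (R : α → ℝ → Prop)
    (hadd : ∀ x y r t, R x r → R y t → R (add x y) (r + t)) :
    ∀ (l m : List α) (L M : List ℝ), List.Forall₂ R l L → List.Forall₂ R m M →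
      List.Forall₂ R (List.zipWith add l m) (List.zipWith (· + ·) L M)
  | [], _, _, _, h, _ => by cases h; simp
  | a :: l, [], _, _, _, h' => by cases h'; simp
  | a :: l, b :: m, _, _, h, h' => by
      cases h with
      | cons h1 h2 => cases h' with
        | cons h3 h4 =>
          exact List.Forall₂.cons (hadd _ _ _ _ h1 h3) (zipWith_rel add R hadd l m _ _ h2 h4)

theorem RL_add {α : Type} (add : α → α → α) (R : α → ℝ → Prop)
    (hadd : ∀ x y r t, R x r → R y t → R (add x y) (r + t)) (n : ℕ) (X Y : ℝ) :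
    ∀ x y r t, RL R n X Y x r → RL R n X Y y t → RL R n X Y (addL add x y) (r + t) := by
  rintro x y r t ⟨L, hL, hn, rfl⟩ ⟨M, hM, hm, rfl⟩
  refine ⟨List.zipWith (· + ·) L M, zipWith_rel add R hadd _ _ _ _ hL hM, ?_, ?_⟩
  · simp [hn, hm]
  · exact hev_zipWith X Y L M (hn.trans hm.symm)

theorem R0_add : ∀ (x y : ℤ) (r t : ℝ), R0 x r → R0 y t → R0 (x + y) (r + t) := by
  rintro x y _ _ rfl rfl
  simp [R0]

theorem RL_shiftG {α : Type} (add : α → α → α) (R : α → ℝ → Prop)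
    (hadd : ∀ x y r t, R x r → R y t → R (add x y) (r + t)) (n : ℕ) (X Y : ℝ) (l : List α) (r : ℝ)
    (h : RL R n X (X + Y) l r) : RL R n X Y (shiftG add l) r := by
  obtain ⟨L, hL, hn, rfl⟩ := h
  exact ⟨_, shiftG_rel add R hadd _ _ hL, by rw [shiftG_length]; exact hn, hev_shiftG X Y L⟩

theorem RL_shiftR {α : Type} (add : α → α → α) (R : α → ℝ → Prop)
    (hadd : ∀ x y r t, R x r → R y t → R (add x y) (r + t)) (n : ℕ) (X Y : ℝ) (l : List α) (r : ℝ)
    (h : RL R n (X + Y) Y l r) : RL R n X Y (shiftR add l) r := by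
  obtain ⟨L, hL, hn, rfl⟩ := h
  exact ⟨_, shiftR_rel add R hadd _ _ hL, by rw [shiftR_length]; exact hn, hev_shiftR X Y L⟩

theorem RL_splitG {α : Type} (add : α → α → α) (sm : ℤ → α → α) (R : α → ℝ → Prop)
    (hadd : ∀ x y r t, R x r → R y t → R (add x y) (r + t))
    (hsm : ∀ c x r, R x r → R (sm c x) ((c : ℝ) * r)) (n : ℕ) (X Y : ℝ) (l : List α) (r : ℝ)
    (h : RL R n X (X + 2 * Y) l r) : RL R n X Y (splitG add sm l) r := by
  obtain ⟨L, hL, hn, rfl⟩ := h
  refine ⟨_, scaleG_rel sm R hsm _ _ (shiftG_rel add R hadd _ _ hL), ?_, ?_⟩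
  · rw [scaleG_length, shiftG_length]; exact hn
  · rw [hev_scaleG, hev_shiftG]

theorem RL_splitR {α : Type} (add : α → α → α) (sm : ℤ → α → α) (R : α → ℝ → Prop)
    (hadd : ∀ x y r t, R x r → R y t → R (add x y) (r + t))
    (hsm : ∀ c x r, R x r → R (sm c x) ((c : ℝ) * r)) (n : ℕ) (X Y : ℝ) (l : List α) (r : ℝ)
    (h : RL R n (Y + 2 * X) Y l r) : RL R n X Y (splitR add sm l) r := by
  obtain ⟨L, hL, hn, rfl⟩ := h
  refine ⟨_, List.rel_reverse (scaleG_rel sm R hsm _ _ (shiftG_rel add R hadd _ _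
    (List.rel_reverse hL))), ?_, ?_⟩
  · rw [List.length_reverse, scaleG_length, shiftG_length, List.length_reverse]; exact hn
  · rw [hev_reverse, hev_scaleG, hev_shiftG, hev_reverse]

theorem RL_smul {α : Type} (sm : ℤ → α → α) (R : α → ℝ → Prop)
    (hsm : ∀ c x r, R x r → R (sm c x) ((c : ℝ) * r)) (n : ℕ) (X Y : ℝ) :
    ∀ (c : ℤ) (l : List α) (r : ℝ), RL R n X Y l r →
      RL R n X Y (l.map (sm c)) ((c : ℝ) * r) := by
  rintro c l r ⟨L, hL, hn, rfl⟩
  refine ⟨L.map (fun x => (c : ℝ) * x), ?_, by simpa using hn, ?_⟩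
  · clear hn
    induction hL with
    | nil => exact List.Forall₂.nil
    | cons h1 _ ih => exact List.Forall₂.cons (hsm _ _ _ h1) ih
  · clear hL hn
    induction L with
    | nil => simp [hev]
    | cons a L ih => rw [List.map_cons, hev, hev, ih, List.length_map]; ring

theorem RL_neg {α : Type} (neg : α → α) (R : α → ℝ → Prop)
    (hneg : ∀ x r, R x r → R (neg x) (-r)) (n : ℕ) (X Y : ℝ) :
    ∀ (l : List α) (r : ℝ), RL R n X Y l r → RL R n X Y (l.map neg) (-r) := by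
  rintro l r ⟨L, hL, hn, rfl⟩
  exact ⟨_, map_rel neg R hneg _ _ hL, by simpa using hn, hev_map_neg X Y L⟩

theorem RL_alt {α : Type} (neg : α → α) (R : α → ℝ → Prop)
    (hneg : ∀ x r, R x r → R (neg x) (-r)) (n : ℕ) (X Y : ℝ) (l : List α) (r : ℝ)
    (h : RL R n (-X) Y l r) : RL R n X Y (alt neg l) r := by
  obtain ⟨L, hL, hn, rfl⟩ := h
  exact ⟨_, alt_rel neg R hneg _ _ hL, by rw [alt_length]; exact hn, hev_alt X Y L⟩

/-- transform the entries -/
theorem RL_map {α : Type} (R R' : α → ℝ → Prop) (f : α → α) (hf : ∀ x r, R x r → R' (f x) r)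
    (n : ℕ) (X Y : ℝ) (l : List α) (r : ℝ) (h : RL R n X Y l r) : RL R' n X Y (l.map f) r := by
  obtain ⟨L, hL, hn, rfl⟩ := h
  refine ⟨L, ?_, hn, rfl⟩
  clear hn
  induction hL with
  | nil => exact List.Forall₂.nil
  | cons h1 _ ih => exact List.Forall₂.cons (hf _ _ h1) ih

/-- nonnegativity test -/
theorem RL_nonneg {α : Type} (R : α → ℝ → Prop) (chk : α → Bool)
    (hchk : ∀ x r, R x r → chk x = true → 0 ≤ r) (n : ℕ) {X Y : ℝ} (hX : 0 ≤ X) (hY : 0 ≤ Y)
    (l : List α) (r : ℝ) (h : RL R n X Y l r) (hl : l.all chk = true) : 0 ≤ r := by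
  obtain ⟨L, hL, hn, rfl⟩ := h
  refine hev_nonneg hX hY L ?_
  clear hn
  induction hL with
  | nil => simp
  | cons h1 _ ih =>
    simp only [List.all_cons, Bool.and_eq_true] at hl
    intro a ha
    rcases List.mem_cons.1 ha with rfl | ha
    · exact hchk _ _ h1 hl.1
    · exact ih hl.2 a ha

abbrev A1 := List ℤ
abbrev A2 := List A1
abbrev A3 := List A2

def add1 : A1 → A1 → A1 := addL (· + ·)
def add2 : A2 → A2 → A2 := addL add1
def sm1 (c : ℤ) : A1 → A1 := List.map (fun x => c * x)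
def sm2 (c : ℤ) : A2 → A2 := List.map (sm1 c)
def neg1 : A1 → A1 := List.map (fun x => -x)

/-- relation for three pairs of variables -/
def R3 (n₁ n₂ n₃ : ℕ) (X₁ Y₁ X₂ Y₂ X₃ Y₃ : ℝ) : A3 → ℝ → Prop :=
  RL (RL (RL R0 n₃ X₃ Y₃) n₂ X₂ Y₂) n₁ X₁ Y₁

theorem R0_smul : ∀ (c : ℤ) (x : ℤ) (r : ℝ), R0 x r → R0 (c * x) ((c : ℝ) * r) := by
  rintro c x _ rfl
  simp [R0]

theorem R0_neg : ∀ (x : ℤ) (r : ℝ), R0 x r → R0 (-x) (-r) := by
  rintro x _ rfl
  simp [R0]

theorem R1_add (n : ℕ) (X Y : ℝ) : ∀ x y r t, RL R0 n X Y x r → RL R0 n X Y y t →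
    RL R0 n X Y (add1 x y) (r + t) := RL_add (· + ·) R0 R0_add n X Y

theorem R1_smul (n : ℕ) (X Y : ℝ) : ∀ (c : ℤ) x r, RL R0 n X Y x r →
    RL R0 n X Y (sm1 c x) ((c : ℝ) * r) :=
  RL_smul (fun c x => c * x) R0 R0_smul n X Y

theorem R1_neg (n : ℕ) (X Y : ℝ) : ∀ x r, RL R0 n X Y x r →
    RL R0 n X Y (neg1 x) (-r) :=
  RL_neg (fun x => -x) R0 R0_neg n X Y

theorem R2_add (n₂ n₃ : ℕ) (X Y X' Y' : ℝ) : ∀ x y r t,
    RL (RL R0 n₃ X' Y') n₂ X Y x r → RL (RL R0 n₃ X' Y') n₂ X Y y t →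
    RL (RL R0 n₃ X' Y') n₂ X Y (add2 x y) (r + t) :=
  RL_add add1 (RL R0 n₃ X' Y') (R1_add n₃ X' Y') n₂ X Y

theorem R2_smul (n₂ n₃ : ℕ) (X Y X' Y' : ℝ) : ∀ (c : ℤ) x r,
    RL (RL R0 n₃ X' Y') n₂ X Y x r →
    RL (RL R0 n₃ X' Y') n₂ X Y (sm2 c x) ((c : ℝ) * r) :=
  RL_smul sm1 (RL R0 n₃ X' Y') (R1_smul n₃ X' Y') n₂ X Y

/-- nonnegative integers -/
def nn : ℤ → Bool
  | .ofNat _ => true
  | .negSucc _ => false

theorem nn_sound (x : ℤ) (h : nn x = true) : 0 ≤ x := by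
  cases x with
  | ofNat n => exact Int.natCast_nonneg n
  | negSucc n => simp [nn] at h

def nonneg3 (A : A3) : Bool := A.all fun B => B.all fun C => C.all nn

theorem R3_nonneg {n₁ n₂ n₃ : ℕ} {X₁ Y₁ X₂ Y₂ X₃ Y₃ : ℝ} (h₁ : 0 ≤ X₁) (h₂ : 0 ≤ Y₁)
    (h₃ : 0 ≤ X₂) (h₄ : 0 ≤ Y₂) (h₅ : 0 ≤ X₃) (h₆ : 0 ≤ Y₃) (A : A3) (r : ℝ)
    (h : R3 n₁ n₂ n₃ X₁ Y₁ X₂ Y₂ X₃ Y₃ A r) (hA : nonneg3 A = true) : 0 ≤ r := by
  refine RL_nonneg (RL (RL R0 n₃ X₃ Y₃) n₂ X₂ Y₂)
    (fun B => B.all fun C => C.all nn) ?_ n₁ h₁ h₂ A r h hA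
  intro B t hB hB'
  refine RL_nonneg (RL R0 n₃ X₃ Y₃)
    (fun C => C.all nn) ?_ n₂ h₃ h₄ B t hB hB'
  intro C u hC hC'
  refine RL_nonneg R0 nn ?_ n₃ h₅ h₆ C u hC hC'
  intro x w hx hx'
  have : (x : ℝ) = w := hx
  rw [← this]
  exact_mod_cast nn_sound x hx'

/-- certificates: which variable to split -/
inductive Cert : Type
  | leaf : Cert
  | s1 (l r : Cert) : Cert
  | s2 (l r : Cert) : Cert
  | s3 (l r : Cert) : Cert

def check : Cert → A3 → Bool
  | .leaf, A => nonneg3 A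
  | .s1 l r, A => check l (splitG add2 sm2 A) && check r (splitR add2 sm2 A)
  | .s2 l r, A => check l (A.map (splitG add1 sm1)) && check r (A.map (splitR add1 sm1))
  | .s3 l r, A => check l (A.map (List.map (splitG (· + ·) (· * ·))))
      && check r (A.map (List.map (splitR (· + ·) (· * ·))))

theorem check_sound : ∀ (c : Cert) {n₁ n₂ n₃ : ℕ} {X₁ Y₁ X₂ Y₂ X₃ Y₃ : ℝ} (_ : 0 ≤ X₁)
    (_ : 0 ≤ Y₁) (_ : 0 ≤ X₂) (_ : 0 ≤ Y₂) (_ : 0 ≤ X₃) (_ : 0 ≤ Y₃) (A : A3) (r : ℝ),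
    R3 n₁ n₂ n₃ X₁ Y₁ X₂ Y₂ X₃ Y₃ A r → check c A = true → 0 ≤ r
  | .leaf, _, _, _, _, _, _, _, _, _, h₁, h₂, h₃, h₄, h₅, h₆, A, r, h, hc =>
      R3_nonneg h₁ h₂ h₃ h₄ h₅ h₆ A r h hc
  | .s1 c d, n₁, n₂, n₃, X₁, Y₁, X₂, Y₂, X₃, Y₃, h₁, h₂, h₃, h₄, h₅, h₆, A, r, h, hc => by
      simp only [check, Bool.and_eq_true] at hc
      rcases le_total X₁ Y₁ with hle | hle
      · refine check_sound c (n₁ := n₁) (n₂ := n₂) (n₃ := n₃) h₁
          (div_nonneg (sub_nonneg.2 hle) zero_le_two) h₃ h₄ h₅ h₆ _ r ?_ hc.1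
        refine RL_splitG add2 sm2 _ (R2_add _ _ _ _ _ _) (R2_smul _ _ _ _ _ _)
          n₁ X₁ ((Y₁ - X₁) / 2) A r ?_
        rw [show X₁ + 2 * ((Y₁ - X₁) / 2) = Y₁ by ring]; exact h
      · refine check_sound d (n₁ := n₁) (n₂ := n₂) (n₃ := n₃)
          (div_nonneg (sub_nonneg.2 hle) zero_le_two) h₂ h₃ h₄ h₅ h₆ _ r ?_ hc.2
        refine RL_splitR add2 sm2 _ (R2_add _ _ _ _ _ _) (R2_smul _ _ _ _ _ _)
          n₁ ((X₁ - Y₁) / 2) Y₁ A r ?_
        rw [show Y₁ + 2 * ((X₁ - Y₁) / 2) = X₁ by ring]; exact h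
  | .s2 c d, n₁, n₂, n₃, X₁, Y₁, X₂, Y₂, X₃, Y₃, h₁, h₂, h₃, h₄, h₅, h₆, A, r, h, hc => by
      simp only [check, Bool.and_eq_true] at hc
      rcases le_total X₂ Y₂ with hle | hle
      · refine check_sound c (n₁ := n₁) (n₂ := n₂) (n₃ := n₃) h₁ h₂ h₃
          (div_nonneg (sub_nonneg.2 hle) zero_le_two) h₅ h₆ _ r ?_ hc.1
        refine RL_map _ _ _ (fun B t hB => ?_) _ _ _ A r h
        refine RL_splitG add1 sm1 _ (R1_add _ _ _) (R1_smul _ _ _) n₂ X₂ ((Y₂ - X₂) / 2) B t ?_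
        rw [show X₂ + 2 * ((Y₂ - X₂) / 2) = Y₂ by ring]; exact hB
      · refine check_sound d (n₁ := n₁) (n₂ := n₂) (n₃ := n₃) h₁ h₂
          (div_nonneg (sub_nonneg.2 hle) zero_le_two) h₄ h₅ h₆ _ r ?_ hc.2
        refine RL_map _ _ _ (fun B t hB => ?_) _ _ _ A r h
        refine RL_splitR add1 sm1 _ (R1_add _ _ _) (R1_smul _ _ _) n₂ ((X₂ - Y₂) / 2) Y₂ B t ?_
        rw [show Y₂ + 2 * ((X₂ - Y₂) / 2) = X₂ by ring]; exact hB
  | .s3 c d, n₁, n₂, n₃, X₁, Y₁, X₂, Y₂, X₃, Y₃, h₁, h₂, h₃, h₄, h₅, h₆, A, r, h, hc => by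
      simp only [check, Bool.and_eq_true] at hc
      rcases le_total X₃ Y₃ with hle | hle
      · refine check_sound c (n₁ := n₁) (n₂ := n₂) (n₃ := n₃) h₁ h₂ h₃ h₄ h₅
          (div_nonneg (sub_nonneg.2 hle) zero_le_two) _ r ?_ hc.1
        refine RL_map _ _ _ (fun B t hB => RL_map _ _ _ (fun C u hC => ?_) _ _ _ B t hB) _ _ _ A r h
        refine RL_splitG (· + ·) (· * ·) R0 R0_add R0_smul n₃ X₃ ((Y₃ - X₃) / 2) C u ?_
        rw [show X₃ + 2 * ((Y₃ - X₃) / 2) = Y₃ by ring]; exact hC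
      · refine check_sound d (n₁ := n₁) (n₂ := n₂) (n₃ := n₃) h₁ h₂ h₃ h₄
          (div_nonneg (sub_nonneg.2 hle) zero_le_two) h₆ _ r ?_ hc.2
        refine RL_map _ _ _ (fun B t hB => RL_map _ _ _ (fun C u hC => ?_) _ _ _ B t hB) _ _ _ A r h
        refine RL_splitR (· + ·) (· * ·) R0 R0_add R0_smul n₃ ((X₃ - Y₃) / 2) Y₃ C u ?_
        rw [show Y₃ + 2 * ((X₃ - Y₃) / 2) = X₃ by ring]; exact hC

/-- restriction to `X ≤ Y` in all three variables -/
def restrict3 (A : A3) : A3 :=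
  ((shiftG add2 A).map (shiftG add1)).map (List.map (shiftG (· + ·)))

theorem restrict3_sound {n₁ n₂ n₃ : ℕ} {X₁ Y₁ X₂ Y₂ X₃ Y₃ : ℝ} (A : A3) (r : ℝ)
    (h : R3 n₁ n₂ n₃ X₁ Y₁ X₂ Y₂ X₃ Y₃ A r) :
    R3 n₁ n₂ n₃ X₁ (Y₁ - X₁) X₂ (Y₂ - X₂) X₃ (Y₃ - X₃) (restrict3 A) r := by
  refine RL_map (RL (RL R0 n₃ X₃ Y₃) n₂ X₂ (Y₂ - X₂)) _ _ (fun B t hB => ?_) _ _ _ _ r ?_
  · refine RL_map _ _ _ (fun C u hC => ?_) _ _ _ B t hB
    refine RL_shiftG (· + ·) R0 R0_add n₃ X₃ (Y₃ - X₃) C u ?_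
    rw [add_sub_cancel]; exact hC
  · refine RL_map (RL (RL R0 n₃ X₃ Y₃) n₂ X₂ Y₂) _ _ (fun B t hB => ?_) _ _ _ _ r ?_
    · refine RL_shiftG add1 _ (R1_add _ _ _) n₂ X₂ (Y₂ - X₂) B t ?_
      rw [add_sub_cancel]; exact hB
    · refine RL_shiftG add2 _ (R2_add _ _ _ _ _ _) n₁ X₁ (Y₁ - X₁) A r ?_
      rw [add_sub_cancel]; exact h

/-- positivity on the unit cube -/
theorem check_cube (c : Cert) {n₁ n₂ n₃ : ℕ} {s u v : ℝ} (hs : 0 ≤ s) (hs' : s ≤ 1)
    (hu : 0 ≤ u) (hu' : u ≤ 1) (hv : 0 ≤ v) (hv' : v ≤ 1) (A : A3) (r : ℝ)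
    (h : R3 n₁ n₂ n₃ s 1 u 1 v 1 A r) (hc : check c (restrict3 A) = true) : 0 ≤ r :=
  check_sound c hs (sub_nonneg.2 hs') hu (sub_nonneg.2 hu') hv (sub_nonneg.2 hv') _ r
    (restrict3_sound A r h) hc

/-- `u → -u` -/
def altU (A : A3) : A3 := A.map (alt neg1)
/-- `v → -v` -/
def altV (A : A3) : A3 := A.map (List.map (alt (fun x => -x)))

theorem altU_sound {n₁ n₂ n₃ : ℕ} {X₁ Y₁ X₂ Y₂ X₃ Y₃ : ℝ} (A : A3) (r : ℝ)
    (h : R3 n₁ n₂ n₃ X₁ Y₁ X₂ Y₂ X₃ Y₃ A r) :
    R3 n₁ n₂ n₃ X₁ Y₁ (-X₂) Y₂ X₃ Y₃ (altU A) r := by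
  refine RL_map _ _ _ (fun B t hB => ?_) _ _ _ _ r h
  refine RL_alt neg1 _ (R1_neg _ _ _) n₂ (-X₂) Y₂ B t ?_
  rw [neg_neg]; exact hB

theorem altV_sound {n₁ n₂ n₃ : ℕ} {X₁ Y₁ X₂ Y₂ X₃ Y₃ : ℝ} (A : A3) (r : ℝ)
    (h : R3 n₁ n₂ n₃ X₁ Y₁ X₂ Y₂ X₃ Y₃ A r) :
    R3 n₁ n₂ n₃ X₁ Y₁ X₂ Y₂ (-X₃) Y₃ (altV A) r := by
  refine RL_map _ _ _ (fun B t hB => RL_map _ _ _ (fun C u hC => ?_) _ _ _ B t hB) _ _ _ _ r h
  refine RL_alt (fun x => -x) R0 R0_neg n₃ (-X₃) Y₃ C u ?_
  rw [neg_neg]; exact hC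

/-- value of a coefficient array -/
def ev1 : A1 → ℝ → ℝ
  | [], _ => 0
  | a :: l, v => (a : ℝ) + v * ev1 l v
def ev2 : A2 → ℝ → ℝ → ℝ
  | [], _, _ => 0
  | a :: l, u, v => ev1 a v + u * ev2 l u v
def ev3 : A3 → ℝ → ℝ → ℝ → ℝ
  | [], _, _, _ => 0
  | a :: l, s, u, v => ev2 a u v + s * ev3 l s u v

theorem ev1_rel (v : ℝ) : ∀ l : A1, RL R0 l.length v 1 l (ev1 l v)
  | [] => ⟨[], List.Forall₂.nil, rfl, rfl⟩
  | a :: l => by
      obtain ⟨L, hL, hn, he⟩ := ev1_rel v l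
      exact ⟨(a : ℝ) :: L, List.Forall₂.cons rfl hL, by simp [hn], by simp [hev, ev1, he]⟩

theorem ev2_rel (u v : ℝ) (n : ℕ) : ∀ l : A2, (∀ a ∈ l, a.length = n) →
    RL (RL R0 n v 1) l.length u 1 l (ev2 l u v)
  | [], _ => ⟨[], List.Forall₂.nil, rfl, rfl⟩
  | a :: l, h => by
      obtain ⟨L, hL, hn, he⟩ := ev2_rel u v n l (fun b hb => h b (by simp [hb]))
      have h1 := ev1_rel v a
      rw [h a (by simp)] at h1
      exact ⟨ev1 a v :: L, List.Forall₂.cons h1 hL, by simp [hn], by simp [hev, ev2, he]⟩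

theorem ev3_rel (s u v : ℝ) (n m : ℕ) : ∀ l : A3, (∀ a ∈ l, a.length = m ∧ ∀ b ∈ a, b.length = n) →
    R3 l.length m n s 1 u 1 v 1 l (ev3 l s u v)
  | [], _ => ⟨[], List.Forall₂.nil, rfl, rfl⟩
  | a :: l, h => by
      obtain ⟨L, hL, hn, he⟩ := ev3_rel s u v n m l (fun b hb => h b (by simp [hb]))
      have h0 := h a (by simp)
      have h1 := ev2_rel u v n a h0.2
      rw [h0.1] at h1
      exact ⟨ev2 a u v :: L, List.Forall₂.cons h1 hL, by simp [hn], by simp [hev, ev3, he]⟩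

end Pool.Agent.MP_58cb87_lc.Bern
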