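import Pool.Agent.Lib.MP_58cb87_lc.Tree

/-!
The block structure of the positions.
-/

namespace Pool.Agent.MP_58cb87_lc

open Finset Function

theorem blockPos_injective (k : ℕ) :
    Function.Injective (fun p : Fin 3 × Fin (3 ^ k) => blockPos k p.1 p.2) := by
  rintro ⟨j, i⟩ ⟨j', i'⟩ h
  have h1 : j.1 * 3 ^ k + i.1 = j'.1 * 3 ^ k + i'.1 := congrArg Fin.val h
  have hpos : 0 < 3 ^ k := by positivity
  have hj : j.1 = j'.1 := by
    have e1 : (j.1 * 3 ^ k + i.1) / 3 ^ k = j.1 := by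
      rw [mul_comm, Nat.mul_add_div hpos, Nat.div_eq_of_lt i.2, add_zero]
    have e2 : (j'.1 * 3 ^ k + i'.1) / 3 ^ k = j'.1 := by
      rw [mul_comm, Nat.mul_add_div hpos, Nat.div_eq_of_lt i'.2, add_zero]
    rw [← e1, ← e2, h1]
  have hi : i.1 = i'.1 := by rw [hj] at h1; omega
  simp only [Prod.mk.injEq]
  exact ⟨Fin.ext hj, Fin.ext hi⟩

/-- positions of `Fin (3 ^ (k + 1))` as pairs (block, position inside the block) -/
noncomputable def blockEquiv (k : ℕ) : Fin 3 × Fin (3 ^ k) ≃ Fin (3 ^ (k + 1)) :=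
  Equiv.ofBijective (fun p => blockPos k p.1 p.2) <| by
    rw [Fintype.bijective_iff_injective_and_card]
    refine ⟨blockPos_injective k, ?_⟩
    simp [pow_succ, mul_comm]

theorem blockEquiv_apply (k : ℕ) (j : Fin 3) (i : Fin (3 ^ k)) :
    blockEquiv k (j, i) = blockPos k j i := rfl

theorem sum_blocks (k : ℕ) (g : Fin (3 ^ (k + 1)) → ℝ) :
    ∑ i, g i = (∑ i, g (blockPos k 0 i)) + (∑ i, g (blockPos k 1 i)) + ∑ i, g (blockPos k 2 i) := by
  rw [← Equiv.sum_comp (blockEquiv k), Fintype.sum_prod_type, Fin.sum_univ_three]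
  rfl

theorem exists_blockPos (k : ℕ) (p : Fin (3 ^ (k + 1))) : ∃ j i, p = blockPos k j i := by
  obtain ⟨⟨j, i⟩, h⟩ := (blockEquiv k).surjective p
  exact ⟨j, i, h.symm⟩

theorem update_block_same {α : Type} (k : ℕ) (s : Fin (3 ^ (k + 1)) → α) (j : Fin 3)
    (i : Fin (3 ^ k)) (t : α) :
    (fun i' => update s (blockPos k j i) t (blockPos k j i'))
      = update (fun i' => s (blockPos k j i')) i t := by
  funext i'
  by_cases h : i' = i
  · subst h; simp
  · have : blockPos k j i' ≠ blockPos k j i := by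
      intro h'
      exact h (Prod.ext_iff.1 (blockPos_injective k (a₁ := (j, i')) (a₂ := (j, i)) h')).2
    simp [h, this]

theorem update_block_ne {α : Type} (k : ℕ) (s : Fin (3 ^ (k + 1)) → α) (j j' : Fin 3)
    (hj : j' ≠ j) (i : Fin (3 ^ k)) (t : α) :
    (fun i' => update s (blockPos k j i) t (blockPos k j' i'))
      = fun i' => s (blockPos k j' i') := by
  funext i'
  have : blockPos k j' i' ≠ blockPos k j i := by
    intro h'
    exact hj (Prod.ext_iff.1 (blockPos_injective k (a₁ := (j', i')) (a₂ := (j, i)) h')).1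
  simp [this]

end Pool.Agent.MP_58cb87_lc
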