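import Pool.Agent.Lib.MP_58cb87_lc.State

/-!
An optimal query strategy for the three-fold iterated majority, as a table of 254 abstract states.
Each entry lists a state, the queried position, how the two successor states are found in the
table, and the expected number of further queries times `2 ^ 20`.
-/

namespace Pool.Agent.MP_58cb87_lc.St.Cert3

open Pool.Agent.MP_58cb87_lc.St

def u : St := .unk
def t : St := .val true
def f : St := .val false

def table : List Entry := [
  ⟨(.node f t (.node f t (.node f t u))), [.d2, .d2, .d2], .known, .known, 1048576⟩,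
  ⟨(.node f t (.node f t (.node f u u))), [.d2, .d2, .d1], .known, .tab 0, 1572864⟩,
  ⟨(.node f t (.node f t (.node u u u))), [.d2, .d2, .d0], .tab 0, .ntab 0, 2621440⟩,
  ⟨(.node f t (.node f (.node f t u) (.node u u u))), [.d2, .d1, .d2], .known, .tab 0, 2359296⟩,
  ⟨(.node f t (.node f (.node f u u) (.node u u u))), [.d2, .d1, .d1], .known, .tab 0, 2228224⟩,
  ⟨(.node f t (.node t (.node f t u) (.node f u u))), [.d2, .d1, .d2], .tab 3, .known, 1835008⟩,
  ⟨(.node f t (.node t (.node f u u) (.node f u u))), [.d2, .d1, .d1], .tab 4, .tab 0, 2752512⟩,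
  ⟨(.node f t (.node f (.node f u u) (.node t u u))), [.d2, .d1, .d1], .known, .ntab 1, 1966080⟩,
  ⟨(.node f t (.node t (.node f u u) (.node u u u))), [.d2, .d2, .d0], .tab 1, .ntab 0, 3407872⟩,
  ⟨(.node f t (.node (.node f t u) (.node f u u) (.node u u u))), [.d2, .d0, .d2], .tab 4, .tab 0, 3866624⟩,
  ⟨(.node f t (.node (.node f u u) (.node f u u) (.node u u u))), [.d2, .d0, .d1], .tab 5, .tab 0, 4096000⟩,
  ⟨(.node f t (.node (.node f t u) (.node f u u) (.node t u u))), [.d2, .d0, .d2], .tab 3, .ntab 3, 3014656⟩,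
  ⟨(.node f t (.node (.node f u u) (.node f u u) (.node t u u))), [.d2, .d0, .d1], .tab 4, .tab 0, 3538944⟩,
  ⟨(.node f t (.node (.node f u u) (.node t u u) (.node u u u))), [.d2, .d2, .d0], .tab 0, .ntab 0, 4587520⟩,
  ⟨(.node f t (.node (.node f u u) (.node u u u) (.node u u u))), [.d2, .d1, .d0], .tab 3, .tab 0, 5390336⟩,
  ⟨(.node f t (.node (.node u u u) (.node u u u) (.node u u u))), [.d2, .d0, .d0], .tab 0, .ntab 0, 6438912⟩,
  ⟨(.node f (.node f t (.node f t u)) (.node (.node u u u) (.node u u u) (.node u u u))), [.d1, .d2, .d2], .known, .tab 0, 4268032⟩,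
  ⟨(.node f (.node f t (.node f u u)) (.node (.node u u u) (.node u u u) (.node u u u))), [.d1, .d2, .d1], .known, .tab 0, 3182592⟩,
  ⟨(.node t (.node f t (.node f u u)) (.node (.node u u u) (.node u u u) (.node u u u))), [.d1, .d2, .d1], .tab 2, .ntab 1, 6402048⟩,
  ⟨(.node f (.node f t (.node u u u)) (.node (.node u u u) (.node u u u) (.node u u u))), [.d1, .d2, .d0], .tab 1, .ntab 0, 5840896⟩,
  ⟨(.node f (.node f (.node f t u) (.node u u u)) (.node (.node u u u) (.node u u u) (.node u u u))), [.d1, .d1, .d2], .known, .tab 0, 3969024⟩,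
  ⟨(.node f (.node f (.node f u u) (.node u u u)) (.node (.node u u u) (.node u u u) (.node u u u))), [.d1, .d1, .d1], .known, .tab 0, 3033088⟩,
  ⟨(.node t (.node f t (.node f t u)) (.node f (.node f u u) (.node u u u))), [.d1, .d2, .d2], .tab 17, .known, 2162688⟩,
  ⟨(.node t (.node f t (.node f u u)) (.node f (.node f u u) (.node u u u))), [.d1, .d2, .d1], .tab 18, .tab 0, 3244032⟩,
  ⟨(.node t (.node f t (.node t u u)) (.node f (.node f u u) (.node u u u))), [.d1, .d2, .d1], .tab 1, .known, 2129920⟩,
  ⟨(.node t (.node f t (.node u u u)) (.node f (.node f u u) (.node u u u))), [.d1, .d2, .d0], .tab 1, .tab 0, 3735552⟩,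
  ⟨(.node t (.node f (.node f t u) (.node u u u)) (.node f (.node f u u) (.node u u u))), [.d1, .d1, .d2], .tab 21, .tab 0, 4030464⟩,
  ⟨(.node t (.node f (.node f u u) (.node u u u)) (.node f (.node f u u) (.node u u u))), [.d1, .d1, .d1], .tab 22, .tab 0, 4177920⟩,
  ⟨(.node t (.node t (.node f t u) (.node f u u)) (.node f (.node f u u) (.node u u u))), [.d1, .d1, .d2], .tab 4, .known, 2670592⟩,
  ⟨(.node t (.node t (.node f u u) (.node f u u)) (.node f (.node f u u) (.node u u u))), [.d1, .d1, .d1], .tab 5, .tab 0, 4005888⟩,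
  ⟨(.node t (.node t (.node f u u) (.node t u u)) (.node f (.node f u u) (.node u u u))), [.d1, .d2, .d1], .tab 1, .known, 2383872⟩,
  ⟨(.node t (.node f (.node f u u) (.node u u u)) (.node t (.node f u u) (.node u u u))), [.d2, .d2, .d0], .tab 1, .tab 0, 4243456⟩,
  ⟨(.node t (.node f (.node f u u) (.node u u u)) (.node (.node f t u) (.node f u u) (.node u u u))), [.d2, .d0, .d2], .tab 4, .tab 0, 5259264⟩,
  ⟨(.node t (.node f (.node f u u) (.node u u u)) (.node (.node f u u) (.node f u u) (.node u u u))), [.d2, .d0, .d1], .tab 5, .tab 0, 5767168⟩,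
  ⟨(.node t (.node f (.node f t u) (.node t u u)) (.node f (.node f u u) (.node u u u))), [.d1, .d1, .d2], .tab 29, .tab 9, 3227648⟩,
  ⟨(.node t (.node f (.node f u u) (.node t u u)) (.node f (.node f u u) (.node u u u))), [.d1, .d1, .d1], .tab 30, .tab 0, 3776512⟩,
  ⟨(.node t (.node (.node f t u) (.node f u u) (.node t u u)) (.node f (.node f u u) (.node u u u))), [.d1, .d0, .d2], .tab 0, .tab 5, 4128768⟩,
  ⟨(.node t (.node (.node f u u) (.node f u u) (.node t u u)) (.node f (.node f u u) (.node u u u))), [.d1, .d0, .d1], .tab 1, .tab 0, 5001216⟩,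
  ⟨(.node t (.node (.node f u u) (.node t u u) (.node t u u)) (.node f (.node f u u) (.node u u u))), [.d1, .d1, .d1], .tab 1, .tab 7, 4304896⟩,
  ⟨(.node t (.node f (.node f u u) (.node u u u)) (.node (.node f u u) (.node t u u) (.node u u u))), [.d2, .d2, .d0], .tab 1, .tab 0, 5701632⟩,
  ⟨(.node t (.node f (.node f u u) (.node u u u)) (.node (.node f u u) (.node u u u) (.node u u u))), [.d2, .d1, .d0], .tab 6, .tab 0, 6782976⟩,
  ⟨(.node t (.node t (.node f t u) (.node u u u)) (.node f (.node f u u) (.node u u u))), [.d1, .d1, .d2], .tab 15, .known, 2916352⟩,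
  ⟨(.node f (.node f (.node f u u) (.node u u u)) (.node t (.node t u u) (.node u u u))), [.d1, .d1, .d1], .known, .ntab 0, 2506752⟩,
  ⟨(.node t (.node f (.node t u u) (.node t u u)) (.node f (.node f u u) (.node u u u))), [.d1, .d1, .d1], .tab 8, .tab 18, 3727360⟩,
  ⟨(.node t (.node f (.node f u u) (.node u u u)) (.node f (.node t u u) (.node u u u))), [.d2, .d2, .d0], .tab 8, .tab 0, 4800512⟩,
  ⟨(.node f (.node (.node f t u) (.node f u u) (.node u u u)) (.node t (.node t u u) (.node u u u))), [.d1, .d0, .d2], .tab 2, .ntab 0, 4702208⟩,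
  ⟨(.node f (.node (.node f u u) (.node f u u) (.node u u u)) (.node t (.node t u u) (.node u u u))), [.d1, .d0, .d1], .tab 3, .tab 0, 4653056⟩,
  ⟨(.node f (.node t (.node t u u) (.node u u u)) (.node (.node f u u) (.node u u u) (.node u u u))), [.d2, .d1, .d0], .tab 0, .ntab 7, 6225920⟩,
  ⟨(.node t (.node f (.node f u u) (.node u u u)) (.node (.node u u u) (.node u u u) (.node u u u))), [.d2, .d0, .d0], .tab 7, .ntab 0, 7553024⟩,
  ⟨(.node (.node f t (.node f t u)) (.node f (.node f u u) (.node u u u)) (.node (.node u u u) (.node u u u) (.node u u u))), [.d0, .d2, .d2], .tab 27, .tab 0, 6341632⟩,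
  ⟨(.node (.node f t (.node f u u)) (.node f (.node f u u) (.node u u u)) (.node (.node u u u) (.node u u u) (.node u u u))), [.d0, .d2, .d1], .tab 28, .tab 0, 5735936⟩,
  ⟨(.node (.node f t (.node t u u)) (.node f (.node f u u) (.node u u u)) (.node (.node u u u) (.node u u u) (.node u u u))), [.d0, .d2, .d1], .tab 1, .tab 2, 7995904⟩,
  ⟨(.node (.node f t (.node u u u)) (.node f (.node f u u) (.node u u u)) (.node (.node u u u) (.node u u u) (.node u u u))), [.d0, .d2, .d0], .tab 1, .tab 0, 7914496⟩,
  ⟨(.node (.node f (.node f t u) (.node u u u)) (.node f (.node f u u) (.node u u u)) (.node (.node u u u) (.node u u u) (.node u u u))), [.d0, .d1, .d2], .tab 31, .tab 0, 6522368⟩,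
  ⟨(.node (.node f (.node f u u) (.node u u u)) (.node f (.node f u u) (.node u u u)) (.node (.node u u u) (.node u u u) (.node u u u))), [.d0, .d1, .d1], .tab 32, .tab 0, 5826304⟩,
  ⟨(.node (.node t (.node f t u) (.node f u u)) (.node f (.node f u u) (.node u u u)) (.node (.node u u u) (.node u u u) (.node u u u))), [.d0, .d1, .d2], .tab 4, .tab 6, 7693056⟩,
  ⟨(.node (.node t (.node f u u) (.node f u u)) (.node f (.node f u u) (.node u u u)) (.node (.node u u u) (.node u u u) (.node u u u))), [.d0, .d1, .d1], .tab 5, .tab 0, 7763072⟩,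
  ⟨(.node (.node t (.node f u u) (.node t u u)) (.node f (.node f u u) (.node u u u)) (.node (.node u u u) (.node u u u) (.node u u u))), [.d0, .d2, .d1], .tab 1, .tab 8, 8671616⟩,
  ⟨(.node (.node f (.node f u u) (.node u u u)) (.node t (.node f u u) (.node u u u)) (.node (.node u u u) (.node u u u) (.node u u u))), [.d1, .d2, .d0], .tab 1, .tab 0, 9265920⟩,
  ⟨(.node (.node f (.node f u u) (.node u u u)) (.node (.node f t u) (.node f u u) (.node u u u)) (.node (.node u u u) (.node u u u) (.node u u u))), [.d1, .d0, .d2], .tab 4, .tab 0, 8594688⟩,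
  ⟨(.node (.node f (.node f u u) (.node u u u)) (.node (.node f u u) (.node f u u) (.node u u u)) (.node (.node u u u) (.node u u u) (.node u u u))), [.d1, .d0, .d1], .tab 5, .tab 0, 8259072⟩,
  ⟨(.node f (.node t (.node f t u) (.node f u u)) (.node (.node u u u) (.node u u u) (.node u u u))), [.d1, .d1, .d2], .tab 43, .tab 45, 5859328⟩,
  ⟨(.node f (.node t (.node f u u) (.node f u u)) (.node (.node u u u) (.node u u u) (.node u u u))), [.d1, .d1, .d1], .tab 44, .tab 0, 5569536⟩,
  ⟨(.node t (.node f (.node f u u) (.node t u u)) (.node (.node u u u) (.node u u u) (.node u u u))), [.d1, .d1, .d1], .tab 47, .ntab 1, 7197696⟩,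
  ⟨(.node f (.node t (.node f u u) (.node u u u)) (.node (.node u u u) (.node u u u) (.node u u u))), [.d1, .d2, .d0], .tab 1, .ntab 0, 7432192⟩,
  ⟨(.node f (.node (.node f t u) (.node f u u) (.node u u u)) (.node (.node u u u) (.node u u u) (.node u u u))), [.d1, .d0, .d2], .tab 43, .tab 0, 6281216⟩,
  ⟨(.node f (.node (.node f u u) (.node f u u) (.node u u u)) (.node (.node u u u) (.node u u u) (.node u u u))), [.d1, .d0, .d1], .tab 44, .tab 0, 5705728⟩,
  ⟨(.node t (.node f t (.node f t u)) (.node (.node f u u) (.node f u u) (.node u u u))), [.d1, .d2, .d2], .tab 56, .known, 3096576⟩,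
  ⟨(.node t (.node f t (.node f u u)) (.node (.node f u u) (.node f u u) (.node u u u))), [.d1, .d2, .d1], .tab 57, .tab 0, 4644864⟩,
  ⟨(.node t (.node t (.node f t u) (.node f u u)) (.node (.node f u u) (.node f u u) (.node u u u))), [.d1, .d1, .d2], .tab 0, .known, 3371008⟩,
  ⟨(.node t (.node t (.node f u u) (.node f u u)) (.node (.node f u u) (.node f u u) (.node u u u))), [.d1, .d1, .d1], .tab 1, .tab 0, 5056512⟩,
  ⟨(.node t (.node t (.node f u u) (.node t u u)) (.node (.node f u u) (.node f u u) (.node u u u))), [.d1, .d2, .d1], .tab 1, .known, 2734080⟩,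
  ⟨(.node t (.node t (.node f u u) (.node u u u)) (.node (.node f u u) (.node f u u) (.node u u u))), [.d1, .d2, .d0], .tab 1, .tab 0, 4943872⟩,
  ⟨(.node t (.node (.node f t u) (.node f u u) (.node u u u)) (.node (.node f u u) (.node f u u) (.node u u u))), [.d1, .d0, .d2], .tab 39, .tab 0, 6404096⟩,
  ⟨(.node t (.node (.node f u u) (.node f u u) (.node u u u)) (.node (.node f u u) (.node f u u) (.node u u u))), [.d1, .d0, .d1], .tab 40, .tab 0, 7134208⟩,
  ⟨(.node t (.node f t (.node t u u)) (.node (.node f u u) (.node f u u) (.node u u u))), [.d1, .d2, .d1], .tab 7, .known, 2596864⟩,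
  ⟨(.node t (.node f (.node f t u) (.node t u u)) (.node (.node f u u) (.node f u u) (.node u u u))), [.d1, .d1, .d2], .tab 65, .tab 0, 4395008⟩,
  ⟨(.node t (.node f (.node f u u) (.node t u u)) (.node (.node f u u) (.node f u u) (.node u u u))), [.d1, .d1, .d1], .tab 66, .tab 0, 5294080⟩,
  ⟨(.node t (.node (.node f t u) (.node f u u) (.node t u u)) (.node (.node f u u) (.node f u u) (.node u u u))), [.d1, .d0, .d2], .tab 0, .tab 6, 5062656⟩,
  ⟨(.node t (.node (.node f u u) (.node f u u) (.node t u u)) (.node (.node f u u) (.node f u u) (.node u u u))), [.d1, .d0, .d1], .tab 1, .tab 0, 6226944⟩,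
  ⟨(.node t (.node (.node f u u) (.node t u u) (.node t u u)) (.node (.node f u u) (.node f u u) (.node u u u))), [.d1, .d1, .d1], .tab 1, .tab 8, 4946944⟩,
  ⟨(.node t (.node (.node f u u) (.node f u u) (.node u u u)) (.node (.node f u u) (.node t u u) (.node u u u))), [.d2, .d2, .d0], .tab 1, .tab 0, 6635520⟩,
  ⟨(.node t (.node (.node f u u) (.node f u u) (.node u u u)) (.node (.node f u u) (.node u u u) (.node u u u))), [.d2, .d1, .d0], .tab 7, .tab 0, 7933440⟩,
  ⟨(.node t (.node f t (.node u u u)) (.node (.node f u u) (.node f u u) (.node u u u))), [.d1, .d2, .d0], .tab 14, .tab 7, 4669440⟩,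
  ⟨(.node t (.node t (.node f t u) (.node u u u)) (.node (.node f u u) (.node f u u) (.node u u u))), [.d1, .d1, .d2], .tab 0, .known, 3383296⟩,
  ⟨(.node t (.node (.node f u u) (.node f u u) (.node u u u)) (.node t (.node t u u) (.node u u u))), [.d2, .d1, .d1], .tab 0, .known, 2740224⟩,
  ⟨(.node t (.node f (.node t u u) (.node t u u)) (.node (.node f u u) (.node f u u) (.node u u u))), [.d1, .d1, .d1], .tab 9, .tab 10, 4544512⟩,
  ⟨(.node t (.node (.node f u u) (.node f u u) (.node u u u)) (.node f (.node t u u) (.node u u u))), [.d2, .d2, .d0], .tab 9, .tab 0, 5967872⟩,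
  ⟨(.node t (.node (.node f u u) (.node f u u) (.node u u u)) (.node (.node f t u) (.node t u u) (.node u u u))), [.d2, .d0, .d2], .tab 0, .tab 2, 5402624⟩,
  ⟨(.node f (.node (.node f u u) (.node f u u) (.node u u u)) (.node (.node t u u) (.node t u u) (.node u u u))), [.d1, .d0, .d1], .ntab 3, .ntab 0, 5120000⟩,
  ⟨(.node f (.node (.node t u u) (.node t u u) (.node u u u)) (.node (.node f u u) (.node u u u) (.node u u u))), [.d2, .d1, .d0], .tab 0, .ntab 8, 6926336⟩,
  ⟨(.node t (.node (.node f u u) (.node f u u) (.node u u u)) (.node (.node u u u) (.node u u u) (.node u u u))), [.d2, .d0, .d0], .tab 8, .ntab 0, 8478464⟩,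
  ⟨(.node (.node f t (.node f t u)) (.node (.node f u u) (.node f u u) (.node u u u)) (.node (.node u u u) (.node u u u) (.node u u u))), [.d0, .d2, .d2], .tab 25, .tab 0, 8140672⟩,
  ⟨(.node (.node f t (.node t u u)) (.node (.node f u u) (.node f u u) (.node u u u)) (.node (.node u u u) (.node u u u) (.node u u u))), [.d0, .d2, .d1], .tab 0, .tab 1, 9358144⟩,
  ⟨(.node (.node f (.node f t u) (.node t u u)) (.node (.node f u u) (.node f u u) (.node u u u)) (.node (.node u u u) (.node u u u) (.node u u u))), [.d0, .d1, .d2], .tab 27, .tab 0, 8580512⟩,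
  ⟨(.node (.node f (.node f u u) (.node t u u)) (.node (.node f u u) (.node f u u) (.node u u u)) (.node (.node u u u) (.node u u u) (.node u u u))), [.d0, .d1, .d1], .tab 28, .tab 0, 8191696⟩,
  ⟨(.node (.node f (.node t u u) (.node t u u)) (.node (.node f u u) (.node f u u) (.node u u u)) (.node (.node u u u) (.node u u u) (.node u u u))), [.d0, .d1, .d1], .tab 1, .tab 2, 10017904⟩,
  ⟨(.node (.node (.node f u u) (.node f u u) (.node u u u)) (.node f (.node t u u) (.node u u u)) (.node (.node u u u) (.node u u u) (.node u u u))), [.d1, .d2, .d0], .tab 1, .tab 0, 10153376⟩,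
  ⟨(.node (.node (.node f u u) (.node f u u) (.node u u u)) (.node f (.node u u u) (.node u u u)) (.node (.node u u u) (.node u u u) (.node u u u))), [.d1, .d1, .d0], .tab 37, .tab 0, 10254800⟩,
  ⟨(.node (.node f t (.node f t u)) (.node (.node f u u) (.node f u u) (.node u u u)) (.node t (.node t u u) (.node u u u))), [.d0, .d2, .d2], .tab 52, .tab 13, 4745216⟩,
  ⟨(.node (.node f t (.node f u u)) (.node (.node f u u) (.node f u u) (.node u u u)) (.node t (.node t u u) (.node u u u))), [.d0, .d2, .d1], .tab 53, .tab 0, 5747712⟩,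
  ⟨(.node (.node f t (.node t u u)) (.node (.node f u u) (.node f u u) (.node u u u)) (.node t (.node t u u) (.node u u u))), [.d0, .d2, .d1], .tab 1, .tab 15, 4791296⟩,
  ⟨(.node (.node f t (.node u u u)) (.node (.node f u u) (.node f u u) (.node u u u)) (.node t (.node t u u) (.node u u u))), [.d0, .d2, .d0], .tab 1, .tab 0, 6318080⟩,
  ⟨(.node (.node t (.node f t u) (.node u u u)) (.node (.node f u u) (.node f u u) (.node u u u)) (.node t (.node t u u) (.node u u u))), [.d0, .d1, .d2], .tab 0, .tab 17, 5577728⟩,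
  ⟨(.node (.node (.node f u u) (.node f u u) (.node u u u)) (.node t (.node t u u) (.node u u u)) (.node t (.node t u u) (.node u u u))), [.d1, .d1, .d1], .tab 0, .tab 18, 5207552⟩,
  ⟨(.node (.node f (.node f t u) (.node t u u)) (.node (.node f u u) (.node f u u) (.node u u u)) (.node t (.node t u u) (.node u u u))), [.d0, .d1, .d2], .tab 58, .tab 3, 5770752⟩,
  ⟨(.node (.node f (.node f u u) (.node t u u)) (.node (.node f u u) (.node f u u) (.node u u u)) (.node t (.node t u u) (.node u u u))), [.d0, .d1, .d1], .tab 59, .tab 0, 6260480⟩,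
  ⟨(.node (.node f (.node t u u) (.node t u u)) (.node (.node f u u) (.node f u u) (.node u u u)) (.node t (.node t u u) (.node u u u))), [.d0, .d1, .d1], .tab 1, .tab 5, 6329600⟩,
  ⟨(.node (.node (.node f u u) (.node f u u) (.node u u u)) (.node f (.node t u u) (.node u u u)) (.node t (.node t u u) (.node u u u))), [.d1, .d2, .d0], .tab 1, .tab 0, 7343616⟩,
  ⟨(.node (.node (.node f u u) (.node f u u) (.node u u u)) (.node t (.node t u u) (.node u u u)) (.node (.node f t u) (.node t u u) (.node u u u))), [.d2, .d0, .d2], .tab 0, .tab 4, 7324160⟩,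
  ⟨(.node (.node f (.node f u u) (.node u u u)) (.node (.node f u u) (.node f u u) (.node u u u)) (.node (.node t u u) (.node t u u) (.node u u u))), [.d1, .d0, .d1], .ntab 5, .ntab 0, 7314432⟩,
  ⟨(.node (.node f t (.node f t u)) (.node (.node f u u) (.node f u u) (.node u u u)) (.node (.node t u u) (.node t u u) (.node u u u))), [.d0, .d2, .d2], .tab 21, .ntab 21, 6168576⟩,
  ⟨(.node (.node f t (.node f u u)) (.node (.node f u u) (.node f u u) (.node u u u)) (.node (.node t u u) (.node t u u) (.node u u u))), [.d0, .d2, .d1], .tab 22, .tab 0, 6692864⟩,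
  ⟨(.node (.node t (.node f t u) (.node f u u)) (.node (.node f u u) (.node f u u) (.node u u u)) (.node (.node t u u) (.node t u u) (.node u u u))), [.d0, .d1, .d2], .tab 0, .ntab 23, 6955008⟩,
  ⟨(.node (.node t (.node f u u) (.node f u u)) (.node (.node f u u) (.node f u u) (.node u u u)) (.node (.node t u u) (.node t u u) (.node u u u))), [.d0, .d1, .d1], .tab 1, .tab 0, 7872512⟩,
  ⟨(.node (.node f (.node f u u) (.node t u u)) (.node (.node f u u) (.node f u u) (.node u u u)) (.node (.node t u u) (.node t u u) (.node u u u))), [.d0, .d1, .d1], .tab 25, .ntab 1, 7086080⟩,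
  ⟨(.node (.node t (.node f u u) (.node u u u)) (.node (.node f u u) (.node f u u) (.node u u u)) (.node (.node t u u) (.node t u u) (.node u u u))), [.d0, .d2, .d0], .tab 1, .ntab 0, 8527872⟩,
  ⟨(.node (.node (.node f u u) (.node f u u) (.node u u u)) (.node (.node t u u) (.node t u u) (.node u u u)) (.node f (.node u u u) (.node u u u))), [.d2, .d1, .d0], .tab 6, .ntab 0, 8969728⟩,
  ⟨(.node f (.node (.node t u u) (.node t u u) (.node u u u)) (.node f (.node u u u) (.node u u u))), [.d2, .d1, .d0], .ntab 32, .ntab 45, 4890624⟩,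
  ⟨(.node f t (.node f (.node u u u) (.node u u u))), [.d2, .d1, .d0], .tab 114, .ntab 110, 3866624⟩,
  ⟨(.node t (.node f t (.node f t u)) (.node f (.node u u u) (.node u u u))), [.d1, .d2, .d2], .tab 0, .known, 2981888⟩,
  ⟨(.node t (.node f t (.node t u u)) (.node f (.node u u u) (.node u u u))), [.d1, .d2, .d1], .tab 0, .known, 2539520⟩,
  ⟨(.node t (.node f (.node f t u) (.node t u u)) (.node f (.node u u u) (.node u u u))), [.d1, .d1, .d2], .tab 2, .tab 0, 4251648⟩,
  ⟨(.node t (.node f (.node f u u) (.node t u u)) (.node f (.node u u u) (.node u u u))), [.d1, .d1, .d1], .tab 3, .tab 0, 5107712⟩,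
  ⟨(.node t (.node f (.node t u u) (.node t u u)) (.node f (.node u u u) (.node u u u))), [.d1, .d1, .d1], .tab 1, .tab 2, 4444160⟩,
  ⟨(.node t (.node f (.node t u u) (.node u u u)) (.node f (.node u u u) (.node u u u))), [.d1, .d2, .d0], .tab 1, .tab 0, 5824512⟩,
  ⟨(.node t (.node f t (.node f u u)) (.node f (.node u u u) (.node u u u))), [.d1, .d2, .d1], .tab 6, .tab 5, 4472832⟩,
  ⟨(.node t (.node f t (.node u u u)) (.node f (.node u u u) (.node u u u))), [.d1, .d2, .d0], .tab 0, .tab 5, 4554752⟩,
  ⟨(.node t (.node t (.node f t u) (.node u u u)) (.node f (.node u u u) (.node u u u))), [.d1, .d1, .d2], .tab 0, .known, 3325952⟩,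
  ⟨(.node t (.node t (.node t u u) (.node u u u)) (.node f (.node u u u) (.node u u u))), [.d1, .d1, .d1], .tab 0, .known, 2711552⟩,
  ⟨(.node t (.node (.node f t u) (.node t u u) (.node u u u)) (.node f (.node u u u) (.node u u u))), [.d1, .d0, .d2], .tab 4, .tab 0, 5316608⟩,
  ⟨(.node t (.node (.node t u u) (.node t u u) (.node u u u)) (.node f (.node u u u) (.node u u u))), [.d1, .d0, .d1], .tab 0, .tab 1, 5062656⟩,
  ⟨(.node (.node f t (.node f t u)) (.node (.node t u u) (.node t u u) (.node u u u)) (.node f (.node u u u) (.node u u u))), [.d0, .d2, .d2], .tab 13, .tab 0, 6025216⟩,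
  ⟨(.node (.node f t (.node t u u)) (.node (.node t u u) (.node t u u) (.node u u u)) (.node f (.node u u u) (.node u u u))), [.d0, .d2, .d1], .tab 0, .tab 1, 6592512⟩,
  ⟨(.node (.node f (.node f t u) (.node t u u)) (.node (.node t u u) (.node t u u) (.node u u u)) (.node f (.node u u u) (.node u u u))), [.d0, .d1, .d2], .tab 15, .tab 0, 6790144⟩,
  ⟨(.node (.node f (.node f u u) (.node t u u)) (.node (.node t u u) (.node t u u) (.node u u u)) (.node f (.node u u u) (.node u u u))), [.d0, .d1, .d1], .tab 16, .tab 0, 6888960⟩,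
  ⟨(.node (.node f t (.node f u u)) (.node (.node t u u) (.node t u u) (.node u u u)) (.node f (.node u u u) (.node u u u))), [.d0, .d2, .d1], .tab 17, .tab 3, 6506496⟩,
  ⟨(.node (.node t (.node f t u) (.node f u u)) (.node (.node t u u) (.node t u u) (.node u u u)) (.node f (.node u u u) (.node u u u))), [.d0, .d1, .d2], .tab 0, .tab 5, 6833152⟩,
  ⟨(.node (.node t (.node f u u) (.node t u u)) (.node (.node t u u) (.node t u u) (.node u u u)) (.node f (.node u u u) (.node u u u))), [.d0, .d2, .d1], .tab 0, .tab 6, 6996480⟩,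
  ⟨(.node (.node (.node f t u) (.node f u u) (.node t u u)) (.node (.node t u u) (.node t u u) (.node u u u)) (.node f (.node u u u) (.node u u u))), [.d0, .d0, .d2], .tab 3, .tab 0, 7991296⟩,
  ⟨(.node (.node (.node f u u) (.node f u u) (.node t u u)) (.node (.node t u u) (.node t u u) (.node u u u)) (.node f (.node u u u) (.node u u u))), [.d0, .d0, .d1], .tab 4, .tab 0, 8488704⟩,
  ⟨(.node (.node (.node f u u) (.node t u u) (.node t u u)) (.node (.node t u u) (.node t u u) (.node u u u)) (.node f (.node u u u) (.node u u u))), [.d0, .d1, .d1], .tab 1, .tab 2, 8542464⟩,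
  ⟨(.node (.node (.node f u u) (.node t u u) (.node u u u)) (.node (.node t u u) (.node t u u) (.node u u u)) (.node f (.node u u u) (.node u u u))), [.d0, .d2, .d0], .tab 1, .tab 0, 9564160⟩,
  ⟨(.node (.node (.node t u u) (.node t u u) (.node u u u)) (.node f (.node u u u) (.node u u u)) (.node (.node f u u) (.node u u u) (.node u u u))), [.d2, .d1, .d0], .tab 25, .tab 0, 10315520⟩,
  ⟨(.node (.node f (.node t u u) (.node t u u)) (.node (.node t u u) (.node t u u) (.node u u u)) (.node f (.node u u u) (.node u u u))), [.d0, .d1, .d1], .tab 9, .tab 10, 7739904⟩,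
  ⟨(.node (.node f (.node t u u) (.node u u u)) (.node (.node t u u) (.node t u u) (.node u u u)) (.node f (.node u u u) (.node u u u))), [.d0, .d2, .d0], .tab 9, .tab 0, 8363008⟩,
  ⟨(.node f (.node t (.node t u u) (.node u u u)) (.node f (.node u u u) (.node u u u))), [.d2, .d1, .d0], .tab 103, .ntab 114, 4423680⟩,
  ⟨(.node (.node f t (.node f t u)) (.node t (.node t u u) (.node u u u)) (.node f (.node u u u) (.node u u u))), [.d0, .d2, .d2], .tab 0, .tab 17, 4616192⟩,
  ⟨(.node (.node f t (.node t u u)) (.node t (.node t u u) (.node u u u)) (.node f (.node u u u) (.node u u u))), [.d0, .d2, .d1], .tab 0, .tab 18, 4712448⟩,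
  ⟨(.node (.node f (.node f t u) (.node t u u)) (.node t (.node t u u) (.node u u u)) (.node f (.node u u u) (.node u u u))), [.d0, .d1, .d2], .tab 2, .tab 0, 5616640⟩,
  ⟨(.node (.node f (.node f u u) (.node t u u)) (.node t (.node t u u) (.node u u u)) (.node f (.node u u u) (.node u u u))), [.d0, .d1, .d1], .tab 3, .tab 0, 6068736⟩,
  ⟨(.node (.node f (.node t u u) (.node t u u)) (.node t (.node t u u) (.node u u u)) (.node f (.node u u u) (.node u u u))), [.d0, .d1, .d1], .tab 1, .tab 2, 6213120⟩,
  ⟨(.node (.node f (.node t u u) (.node u u u)) (.node t (.node t u u) (.node u u u)) (.node f (.node u u u) (.node u u u))), [.d0, .d2, .d0], .tab 1, .tab 0, 7189504⟩,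
  ⟨(.node (.node f t (.node f u u)) (.node t (.node t u u) (.node u u u)) (.node f (.node u u u) (.node u u u))), [.d0, .d2, .d1], .tab 6, .tab 5, 5568512⟩,
  ⟨(.node (.node f t (.node u u u)) (.node t (.node t u u) (.node u u u)) (.node f (.node u u u) (.node u u u))), [.d0, .d2, .d0], .tab 0, .tab 5, 6189056⟩,
  ⟨(.node (.node t (.node f t u) (.node u u u)) (.node t (.node t u u) (.node u u u)) (.node f (.node u u u) (.node u u u))), [.d0, .d1, .d2], .tab 0, .tab 25, 5498880⟩,
  ⟨(.node (.node t (.node t u u) (.node u u u)) (.node t (.node t u u) (.node u u u)) (.node f (.node u u u) (.node u u u))), [.d0, .d1, .d1], .tab 0, .tab 26, 5153792⟩,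
  ⟨(.node (.node t (.node t u u) (.node u u u)) (.node (.node f t u) (.node t u u) (.node u u u)) (.node f (.node u u u) (.node u u u))), [.d1, .d0, .d2], .tab 4, .tab 0, 7220224⟩,
  ⟨(.node (.node t (.node t u u) (.node u u u)) (.node (.node t u u) (.node t u u) (.node u u u)) (.node f (.node u u u) (.node u u u))), [.d1, .d0, .d1], .tab 0, .tab 1, 7235584⟩,
  ⟨(.node (.node (.node f t u) (.node t u u) (.node u u u)) (.node (.node t u u) (.node t u u) (.node u u u)) (.node f (.node u u u) (.node u u u))), [.d0, .d0, .d2], .tab 13, .tab 0, 8847872⟩,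
  ⟨(.node (.node (.node t u u) (.node t u u) (.node u u u)) (.node (.node t u u) (.node t u u) (.node u u u)) (.node f (.node u u u) (.node u u u))), [.d0, .d0, .d1], .tab 0, .tab 1, 9090304⟩,
  ⟨(.node (.node (.node f u u) (.node f u u) (.node u u u)) (.node t (.node u u u) (.node u u u)) (.node (.node f u u) (.node u u u) (.node u u u))), [.d2, .d1, .d0], .ntab 0, .ntab 18, 10375808⟩,
  ⟨(.node (.node (.node t u u) (.node t u u) (.node u u u)) (.node f (.node u u u) (.node u u u)) (.node (.node u u u) (.node u u u) (.node u u u))), [.d2, .d0, .d0], .tab 18, .ntab 0, 11394240⟩,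
  ⟨(.node (.node (.node f u u) (.node f u u) (.node u u u)) (.node (.node f t u) (.node u u u) (.node u u u)) (.node (.node u u u) (.node u u u) (.node u u u))), [.d1, .d0, .d2], .tab 64, .ntab 0, 11873096⟩,
  ⟨(.node (.node (.node f u u) (.node f u u) (.node u u u)) (.node (.node f u u) (.node u u u) (.node u u u)) (.node (.node u u u) (.node u u u) (.node u u u))), [.d1, .d0, .d1], .tab 65, .tab 0, 12112524⟩,
  ⟨(.node t (.node t (.node f t u) (.node f u u)) (.node (.node u u u) (.node u u u) (.node u u u))), [.d1, .d1, .d2], .tab 146, .known, 4249600⟩,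
  ⟨(.node t (.node t (.node f u u) (.node f u u)) (.node (.node u u u) (.node u u u) (.node u u u))), [.d1, .d1, .d1], .tab 147, .tab 0, 6374400⟩,
  ⟨(.node f (.node f (.node f u u) (.node t u u)) (.node (.node u u u) (.node u u u) (.node u u u))), [.d1, .d1, .d1], .known, .ntab 1, 3173376⟩,
  ⟨(.node t (.node t (.node f u u) (.node u u u)) (.node (.node u u u) (.node u u u) (.node u u u))), [.d1, .d2, .d0], .tab 1, .ntab 0, 5822464⟩,
  ⟨(.node f (.node f (.node u u u) (.node u u u)) (.node (.node u u u) (.node u u u) (.node u u u))), [.d1, .d1, .d0], .tab 147, .ntab 0, 5476352⟩,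
  ⟨(.node t (.node (.node f u u) (.node f u u) (.node u u u)) (.node f (.node u u u) (.node u u u))), [.d2, .d1, .d0], .tab 136, .tab 82, 6916096⟩,
  ⟨(.node t (.node t (.node f t u) (.node f u u)) (.node f (.node u u u) (.node u u u))), [.d1, .d1, .d2], .tab 44, .known, 3284992⟩,
  ⟨(.node t (.node t (.node f u u) (.node t u u)) (.node f (.node u u u) (.node u u u))), [.d1, .d2, .d1], .tab 0, .known, 2691072⟩,
  ⟨(.node t (.node (.node f t u) (.node f u u) (.node t u u)) (.node f (.node u u u) (.node u u u))), [.d1, .d0, .d2], .tab 49, .tab 0, 4947968⟩,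
  ⟨(.node t (.node (.node f u u) (.node f u u) (.node t u u)) (.node f (.node u u u) (.node u u u))), [.d1, .d0, .d1], .tab 50, .tab 0, 6076416⟩,
  ⟨(.node t (.node (.node f u u) (.node t u u) (.node t u u)) (.node f (.node u u u) (.node u u u))), [.d1, .d1, .d1], .tab 1, .tab 2, 4868096⟩,
  ⟨(.node t (.node (.node f u u) (.node t u u) (.node u u u)) (.node f (.node u u u) (.node u u u))), [.d1, .d2, .d0], .tab 1, .tab 0, 6520832⟩,
  ⟨(.node t (.node f (.node u u u) (.node u u u)) (.node (.node f u u) (.node u u u) (.node u u u))), [.d2, .d1, .d0], .tab 6, .tab 0, 7767040⟩,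
  ⟨(.node f (.node t (.node u u u) (.node u u u)) (.node (.node f u u) (.node u u u) (.node u u u))), [.d2, .d1, .d0], .ntab 46, .ntab 1, 6840320⟩,
  ⟨(.node t (.node f (.node u u u) (.node u u u)) (.node (.node u u u) (.node u u u) (.node u u u))), [.d2, .d0, .d0], .tab 1, .ntab 0, 8352256⟩,
  ⟨(.node f (.node (.node f t u) (.node u u u) (.node u u u)) (.node (.node u u u) (.node u u u) (.node u u u))), [.d1, .d0, .d2], .tab 10, .ntab 0, 7962880⟩,
  ⟨(.node f (.node (.node f u u) (.node u u u) (.node u u u)) (.node (.node u u u) (.node u u u) (.node u u u))), [.d1, .d0, .d1], .tab 11, .tab 0, 7768192⟩,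
  ⟨(.node t (.node f t (.node f t u)) (.node (.node f u u) (.node u u u) (.node u u u))), [.d1, .d2, .d2], .tab 167, .known, 3743744⟩,
  ⟨(.node t (.node f t (.node t u u)) (.node (.node f u u) (.node u u u) (.node u u u))), [.d1, .d2, .d1], .tab 0, .known, 2920448⟩,
  ⟨(.node t (.node f (.node f t u) (.node t u u)) (.node (.node f u u) (.node u u u) (.node u u u))), [.d1, .d1, .d2], .tab 169, .tab 0, 5203968⟩,
  ⟨(.node t (.node f (.node f u u) (.node t u u)) (.node (.node f u u) (.node u u u) (.node u u u))), [.d1, .d1, .d1], .tab 170, .tab 0, 6345728⟩,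
  ⟨(.node t (.node f t (.node f u u)) (.node (.node f u u) (.node u u u) (.node u u u))), [.d1, .d2, .d1], .tab 171, .tab 3, 5615616⟩,
  ⟨(.node t (.node t (.node f t u) (.node f u u)) (.node (.node f u u) (.node u u u) (.node u u u))), [.d1, .d1, .d2], .tab 0, .known, 3856384⟩,
  ⟨(.node t (.node t (.node f u u) (.node t u u)) (.node (.node f u u) (.node u u u) (.node u u u))), [.d1, .d2, .d1], .tab 0, .known, 2976768⟩,
  ⟨(.node t (.node (.node f t u) (.node f u u) (.node t u u)) (.node (.node f u u) (.node u u u) (.node u u u))), [.d1, .d0, .d2], .tab 3, .tab 0, 5709824⟩,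
  ⟨(.node t (.node (.node f u u) (.node f u u) (.node t u u)) (.node (.node f u u) (.node u u u) (.node u u u))), [.d1, .d0, .d1], .tab 4, .tab 0, 7076352⟩,
  ⟨(.node t (.node (.node f u u) (.node t u u) (.node t u u)) (.node (.node f u u) (.node u u u) (.node u u u))), [.d1, .d1, .d1], .tab 1, .tab 2, 5391872⟩,
  ⟨(.node t (.node (.node f u u) (.node t u u) (.node u u u)) (.node (.node f u u) (.node u u u) (.node u u u))), [.d1, .d2, .d0], .tab 1, .tab 0, 7282688⟩,
  ⟨(.node t (.node (.node f u u) (.node u u u) (.node u u u)) (.node (.node f u u) (.node u u u) (.node u u u))), [.d1, .d1, .d0], .tab 110, .tab 0, 8656640⟩,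
  ⟨(.node t (.node f (.node t u u) (.node t u u)) (.node (.node f u u) (.node u u u) (.node u u u))), [.d1, .d1, .d1], .tab 9, .tab 10, 5110784⟩,
  ⟨(.node t (.node f (.node t u u) (.node u u u)) (.node (.node f u u) (.node u u u) (.node u u u))), [.d1, .d2, .d0], .tab 9, .tab 0, 6776832⟩,
  ⟨(.node t (.node f t (.node u u u)) (.node (.node f u u) (.node u u u) (.node u u u))), [.d1, .d2, .d0], .tab 9, .tab 12, 5316608⟩,
  ⟨(.node t (.node t (.node f t u) (.node u u u)) (.node (.node f u u) (.node u u u) (.node u u u))), [.d1, .d1, .d2], .tab 0, .known, 3706880⟩,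
  ⟨(.node t (.node t (.node t u u) (.node u u u)) (.node (.node f u u) (.node u u u) (.node u u u))), [.d1, .d1, .d1], .tab 0, .known, 2902016⟩,
  ⟨(.node t (.node (.node f t u) (.node t u u) (.node u u u)) (.node (.node f u u) (.node u u u) (.node u u u))), [.d1, .d0, .d2], .tab 3, .tab 0, 5888000⟩,
  ⟨(.node t (.node (.node t u u) (.node t u u) (.node u u u)) (.node (.node f u u) (.node u u u) (.node u u u))), [.d1, .d0, .d1], .tab 0, .tab 1, 5443584⟩,
  ⟨(.node f (.node (.node f u u) (.node u u u) (.node u u u)) (.node (.node t u u) (.node u u u) (.node u u u))), [.d1, .d1, .d0], .ntab 0, .ntab 8, 7411712⟩,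
  ⟨(.node t (.node (.node f u u) (.node u u u) (.node u u u)) (.node (.node u u u) (.node u u u) (.node u u u))), [.d2, .d0, .d0], .tab 8, .ntab 0, 9082752⟩,
  ⟨(.node (.node f t (.node f t u)) (.node (.node f u u) (.node u u u) (.node u u u)) (.node (.node u u u) (.node u u u) (.node u u u))), [.d0, .d2, .d2], .tab 21, .tab 0, 9474048⟩,
  ⟨(.node (.node f t (.node t u u)) (.node (.node f u u) (.node u u u) (.node u u u)) (.node (.node u u u) (.node u u u) (.node u u u))), [.d0, .d2, .d1], .tab 0, .tab 1, 10326976⟩,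
  ⟨(.node (.node f (.node f t u) (.node t u u)) (.node (.node f u u) (.node u u u) (.node u u u)) (.node (.node u u u) (.node u u u) (.node u u u))), [.d0, .d1, .d2], .tab 23, .tab 0, 10096160⟩,
  ⟨(.node (.node f (.node f u u) (.node t u u)) (.node (.node f u u) (.node u u u) (.node u u u)) (.node (.node u u u) (.node u u u) (.node u u u))), [.d0, .d1, .d1], .tab 24, .tab 0, 9980752⟩,
  ⟨(.node (.node f t (.node f u u)) (.node (.node f u u) (.node u u u) (.node u u u)) (.node (.node u u u) (.node u u u) (.node u u u))), [.d0, .d2, .d1], .tab 25, .tab 3, 9669696⟩,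
  ⟨(.node (.node t (.node f t u) (.node f u u)) (.node (.node f u u) (.node u u u) (.node u u u)) (.node (.node u u u) (.node u u u) (.node u u u))), [.d0, .d1, .d2], .tab 0, .tab 5, 10424800⟩,
  ⟨(.node (.node t (.node f u u) (.node t u u)) (.node (.node f u u) (.node u u u) (.node u u u)) (.node (.node u u u) (.node u u u) (.node u u u))), [.d0, .d2, .d1], .tab 0, .tab 6, 10802352⟩,
  ⟨(.node (.node (.node f t u) (.node f u u) (.node t u u)) (.node (.node f u u) (.node u u u) (.node u u u)) (.node (.node u u u) (.node u u u) (.node u u u))), [.d0, .d0, .d2], .tab 3, .tab 0, 11440128⟩,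
  ⟨(.node (.node (.node f u u) (.node f u u) (.node t u u)) (.node (.node f u u) (.node u u u) (.node u u u)) (.node (.node u u u) (.node u u u) (.node u u u))), [.d0, .d0, .d1], .tab 4, .tab 0, 11759016⟩,
  ⟨(.node (.node (.node f u u) (.node t u u) (.node t u u)) (.node (.node f u u) (.node u u u) (.node u u u)) (.node (.node u u u) (.node u u u) (.node u u u))), [.d0, .d1, .d1], .tab 1, .tab 2, 12169816⟩,
  ⟨(.node (.node (.node f u u) (.node t u u) (.node u u u)) (.node (.node f u u) (.node u u u) (.node u u u)) (.node (.node u u u) (.node u u u) (.node u u u))), [.d0, .d2, .d0], .tab 1, .tab 0, 13012992⟩,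
  ⟨(.node (.node (.node f u u) (.node u u u) (.node u u u)) (.node (.node f u u) (.node u u u) (.node u u u)) (.node (.node u u u) (.node u u u) (.node u u u))), [.d0, .d1, .d0], .tab 49, .tab 0, 13611334⟩,
  ⟨(.node (.node f t (.node f t u)) (.node (.node t u u) (.node t u u) (.node u u u)) (.node (.node f u u) (.node u u u) (.node u u u))), [.d0, .d2, .d2], .tab 124, .tab 14, 7233536⟩,
  ⟨(.node (.node f t (.node t u u)) (.node (.node t u u) (.node t u u) (.node u u u)) (.node (.node f u u) (.node u u u) (.node u u u))), [.d0, .d2, .d1], .tab 0, .tab 15, 7387136⟩,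
  ⟨(.node (.node f (.node f t u) (.node t u u)) (.node (.node t u u) (.node t u u) (.node u u u)) (.node (.node f u u) (.node u u u) (.node u u u))), [.d0, .d1, .d2], .tab 126, .tab 0, 8205312⟩,
  ⟨(.node (.node f (.node f u u) (.node t u u)) (.node (.node t u u) (.node t u u) (.node u u u)) (.node (.node f u u) (.node u u u) (.node u u u))), [.d0, .d1, .d1], .tab 127, .tab 0, 8614400⟩,
  ⟨(.node (.node f (.node t u u) (.node t u u)) (.node (.node t u u) (.node t u u) (.node u u u)) (.node (.node f u u) (.node u u u) (.node u u u))), [.d0, .d1, .d1], .tab 1, .tab 2, 8844800⟩,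
  ⟨(.node (.node f (.node t u u) (.node u u u)) (.node (.node t u u) (.node t u u) (.node u u u)) (.node (.node f u u) (.node u u u) (.node u u u))), [.d0, .d2, .d0], .tab 1, .tab 0, 9778176⟩,
  ⟨(.node (.node f t (.node f t u)) (.node t (.node t u u) (.node u u u)) (.node (.node f u u) (.node u u u) (.node u u u))), [.d0, .d2, .d2], .tab 173, .tab 22, 5612544⟩,
  ⟨(.node (.node f t (.node t u u)) (.node t (.node t u u) (.node u u u)) (.node (.node f u u) (.node u u u) (.node u u u))), [.d0, .d2, .d1], .tab 0, .tab 23, 5305856⟩,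
  ⟨(.node (.node f (.node f t u) (.node t u u)) (.node t (.node t u u) (.node u u u)) (.node (.node f u u) (.node u u u) (.node u u u))), [.d0, .d1, .d2], .tab 175, .tab 0, 6814464⟩,
  ⟨(.node (.node f (.node f u u) (.node t u u)) (.node t (.node t u u) (.node u u u)) (.node (.node f u u) (.node u u u) (.node u u u))), [.d0, .d1, .d1], .tab 176, .tab 0, 7568768⟩,
  ⟨(.node (.node f (.node t u u) (.node t u u)) (.node t (.node t u u) (.node u u u)) (.node (.node f u u) (.node u u u) (.node u u u))), [.d0, .d1, .d1], .tab 1, .tab 2, 7108736⟩,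
  ⟨(.node (.node f (.node t u u) (.node u u u)) (.node t (.node t u u) (.node u u u)) (.node (.node f u u) (.node u u u) (.node u u u))), [.d0, .d2, .d0], .tab 1, .tab 0, 8387328⟩,
  ⟨(.node (.node f t (.node f u u)) (.node t (.node t u u) (.node u u u)) (.node (.node f u u) (.node u u u) (.node u u u))), [.d0, .d2, .d1], .tab 179, .tab 5, 6967808⟩,
  ⟨(.node (.node f t (.node u u u)) (.node t (.node t u u) (.node u u u)) (.node (.node f u u) (.node u u u) (.node u u u))), [.d0, .d2, .d0], .tab 0, .tab 5, 7185408⟩,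
  ⟨(.node (.node t (.node f t u) (.node u u u)) (.node t (.node t u u) (.node u u u)) (.node (.node f u u) (.node u u u) (.node u u u))), [.d0, .d1, .d2], .tab 0, .tab 30, 6092288⟩,
  ⟨(.node (.node t (.node t u u) (.node u u u)) (.node t (.node t u u) (.node u u u)) (.node (.node f u u) (.node u u u) (.node u u u))), [.d0, .d1, .d1], .tab 0, .tab 31, 5545728⟩,
  ⟨(.node (.node t (.node t u u) (.node u u u)) (.node (.node f t u) (.node t u u) (.node u u u)) (.node (.node f u u) (.node u u u) (.node u u u))), [.d1, .d0, .d2], .tab 4, .tab 0, 8015104⟩,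
  ⟨(.node (.node t (.node t u u) (.node u u u)) (.node (.node t u u) (.node t u u) (.node u u u)) (.node (.node f u u) (.node u u u) (.node u u u))), [.d1, .d0, .d1], .tab 0, .tab 1, 7828992⟩,
  ⟨(.node (.node (.node f t u) (.node t u u) (.node u u u)) (.node (.node t u u) (.node t u u) (.node u u u)) (.node (.node f u u) (.node u u u) (.node u u u))), [.d0, .d0, .d2], .tab 12, .tab 0, 9852160⟩,
  ⟨(.node (.node (.node t u u) (.node t u u) (.node u u u)) (.node (.node t u u) (.node t u u) (.node u u u)) (.node (.node f u u) (.node u u u) (.node u u u))), [.d0, .d0, .d1], .tab 0, .tab 1, 9889152⟩,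
  ⟨(.node (.node f t (.node f u u)) (.node (.node t u u) (.node t u u) (.node u u u)) (.node (.node f u u) (.node u u u) (.node u u u))), [.d0, .d2, .d1], .tab 144, .tab 19, 8128512⟩,
  ⟨(.node (.node t (.node f t u) (.node f u u)) (.node (.node t u u) (.node t u u) (.node u u u)) (.node (.node f u u) (.node u u u) (.node u u u))), [.d0, .d1, .d2], .tab 0, .tab 35, 7834624⟩,
  ⟨(.node (.node t (.node f u u) (.node t u u)) (.node (.node t u u) (.node t u u) (.node u u u)) (.node (.node f u u) (.node u u u) (.node u u u))), [.d0, .d2, .d1], .tab 0, .tab 36, 7687680⟩,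
  ⟨(.node (.node (.node f t u) (.node f u u) (.node t u u)) (.node (.node t u u) (.node t u u) (.node u u u)) (.node (.node f u u) (.node u u u) (.node u u u))), [.d0, .d0, .d2], .tab 19, .tab 0, 9199616⟩,
  ⟨(.node (.node (.node f u u) (.node f u u) (.node t u u)) (.node (.node t u u) (.node t u u) (.node u u u)) (.node (.node f u u) (.node u u u) (.node u u u))), [.d0, .d0, .d1], .tab 20, .tab 0, 9955584⟩,
  ⟨(.node (.node (.node f u u) (.node t u u) (.node t u u)) (.node (.node t u u) (.node t u u) (.node u u u)) (.node (.node f u u) (.node u u u) (.node u u u))), [.d0, .d1, .d1], .tab 1, .tab 2, 9492224⟩,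
  ⟨(.node (.node (.node f u u) (.node t u u) (.node u u u)) (.node (.node t u u) (.node t u u) (.node u u u)) (.node (.node f u u) (.node u u u) (.node u u u))), [.d0, .d2, .d0], .tab 1, .tab 0, 10772480⟩,
  ⟨(.node (.node (.node f u u) (.node f u u) (.node u u u)) (.node (.node f u u) (.node u u u) (.node u u u)) (.node (.node t u u) (.node u u u) (.node u u u))), [.d1, .d1, .d0], .ntab 7, .ntab 0, 11379392⟩,
  ⟨(.node (.node f t (.node f t u)) (.node (.node f u u) (.node u u u) (.node u u u)) (.node (.node t u u) (.node u u u) (.node u u u))), [.d0, .d2, .d2], .tab 41, .ntab 41, 8460288⟩,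
  ⟨(.node (.node f t (.node f u u)) (.node (.node f u u) (.node u u u) (.node u u u)) (.node (.node t u u) (.node u u u) (.node u u u))), [.d0, .d2, .d1], .tab 42, .tab 0, 8984576⟩,
  ⟨(.node (.node t (.node f t u) (.node f u u)) (.node (.node f u u) (.node u u u) (.node u u u)) (.node (.node t u u) (.node u u u) (.node u u u))), [.d0, .d1, .d2], .tab 0, .ntab 43, 9246720⟩,
  ⟨(.node (.node f (.node f u u) (.node t u u)) (.node (.node f u u) (.node u u u) (.node u u u)) (.node (.node t u u) (.node u u u) (.node u u u))), [.d0, .d1, .d1], .tab 44, .ntab 0, 9377792⟩,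
  ⟨(.node (.node (.node f t u) (.node f u u) (.node t u u)) (.node (.node f u u) (.node u u u) (.node u u u)) (.node (.node t u u) (.node u u u) (.node u u u))), [.d0, .d0, .d2], .tab 0, .ntab 0, 10426368⟩,
  ⟨(.node (.node (.node f u u) (.node f u u) (.node t u u)) (.node (.node f u u) (.node u u u) (.node u u u)) (.node (.node t u u) (.node u u u) (.node u u u))), [.d0, .d0, .d1], .tab 1, .tab 0, 10950656⟩,
  ⟨(.node (.node (.node f u u) (.node t u u) (.node u u u)) (.node (.node f u u) (.node u u u) (.node u u u)) (.node (.node t u u) (.node u u u) (.node u u u))), [.d0, .d2, .d0], .tab 0, .ntab 0, 11999232⟩,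
  ⟨(.node (.node (.node f u u) (.node u u u) (.node u u u)) (.node (.node f u u) (.node u u u) (.node u u u)) (.node (.node t u u) (.node u u u) (.node u u u))), [.d0, .d1, .d0], .tab 7, .tab 0, 12737888⟩,
  ⟨(.node (.node (.node f u u) (.node u u u) (.node u u u)) (.node (.node t u u) (.node u u u) (.node u u u)) (.node (.node u u u) (.node u u u) (.node u u u))), [.d2, .d0, .d0], .tab 0, .ntab 0, 13786464⟩,
  ⟨(.node (.node (.node f u u) (.node u u u) (.node u u u)) (.node (.node u u u) (.node u u u) (.node u u u)) (.node (.node u u u) (.node u u u) (.node u u u))), [.d1, .d0, .d0], .tab 37, .tab 0, 14747475⟩,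
  ⟨(.node (.node (.node u u u) (.node u u u) (.node u u u)) (.node (.node u u u) (.node u u u) (.node u u u)) (.node (.node u u u) (.node u u u) (.node u u u))), [.d0, .d0, .d0], .tab 0, .ntab 0, 15796051⟩]

theorem table_ok : checkAll table 3 15796051 = true := by decide +kernel

theorem ach : Ach (fresh 3) ((15796051 : ℝ) / 1048576) := by
  have h := checkAll_good table 3 15796051 table_ok
  have hD : ((Den : ℕ) : ℝ) = 1048576 := by norm_num [Den]
  rw [hD] at h
  exact_mod_cast h

end Pool.Agent.MP_58cb87_lc.St.Cert3
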