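import Pool.Agent.Lib.MP_58cb87_lc.Blocks

/-!
Composition of query algorithms; submultiplicativity of the revealment.
-/

namespace Pool.Agent.MP_58cb87_lc

open Finset Function
open scoped Classical

set_option linter.unusedSectionVars false

/-! ### relabelling -/

/-- relabel the positions of a tree -/
def QTree.map {ι κ : Type} (e : ι → κ) : QTree ι → QTree κ
  | .stop => .stop
  | .query i l r => .query (e i) (l.map e) (r.map e)

theorem mem_queried_map {ι κ : Type} (e : ι ≃ κ) (x : κ → Bool) (i : ι) : ∀ T : QTree ι,
    e i ∈ (T.map e).queried x ↔ i ∈ T.queried (x ∘ e)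
  | .stop => by simp [QTree.map, QTree.queried]
  | .query j l r => by
      rw [QTree.map, QTree.queried, QTree.queried]
      simp only [Set.mem_insert_iff, EmbeddingLike.apply_eq_iff_eq, Function.comp_apply]
      split_ifs
      · rw [mem_queried_map e x i r]
      · rw [mem_queried_map e x i l]

theorem map_computes {ι κ : Type} (e : ι ≃ κ) (f : (ι → Bool) → Bool) (T : QTree ι)
    (hT : T.Computes f) : (T.map e).Computes fun x => f (x ∘ e) := by
  intro x y h
  refine hT _ _ fun i hi => ?_
  exact h (e i) ((mem_queried_map e x i T).2 hi)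

variable {ι κ : Type} [Fintype ι] [DecidableEq ι] [Fintype κ] [DecidableEq κ]

theorem readProb_map (e : ι ≃ κ) (T : QTree ι) (i : ι) :
    (T.map e).readProb (e i) = T.readProb i := by
  unfold QTree.readProb
  congr 1
  · congr 1
    refine Nat.card_congr ((Equiv.arrowCongr e (Equiv.refl Bool)).symm.subtypeEquiv fun x => ?_)
    rw [mem_queried_map]
    rfl
  · congr 1
    exact Nat.card_congr (Equiv.arrowCongr e (Equiv.refl Bool)).symm

/-! ### randomized algorithms: the read probability as an extended real -/

noncomputable def eR (A : RandAlg ι) (i : ι) : ENNReal := ∑' T, A T * ENNReal.ofReal (T.readProb i)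

theorem readProb_eq_eR (A : RandAlg ι) (i : ι) : A.readProb i = (eR A i).toReal := by
  unfold RandAlg.readProb eR
  rw [ENNReal.tsum_toReal_eq (fun T => ENNReal.mul_ne_top (PMF.apply_ne_top A T)
    ENNReal.ofReal_ne_top)]
  refine tsum_congr fun T => ?_
  rw [ENNReal.toReal_mul, ENNReal.toReal_ofReal (readProb_nonneg T i)]

theorem tsum_bind {α β : Type} (p : PMF α) (k : α → PMF β) (h : β → ENNReal) :
    ∑' b, (p.bind k) b * h b = ∑' a, p a * ∑' b, k a b * h b := by
  simp_rw [PMF.bind_apply, ← ENNReal.tsum_mul_right, ← ENNReal.tsum_mul_left]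
  rw [ENNReal.tsum_comm]
  simp_rw [mul_assoc]

theorem tsum_pure {α : Type} (a : α) (h : α → ENNReal) : ∑' b, (PMF.pure a) b * h b = h a := by
  rw [tsum_eq_single a]
  · simp
  · intro b hb
    simp [hb]

theorem tsum_map {α β : Type} (p : PMF α) (k : α → β) (h : β → ENNReal) :
    ∑' b, (p.map k) b * h b = ∑' a, p a * h (k a) := by
  rw [PMF.map, tsum_bind]
  refine tsum_congr fun a => ?_
  rw [Function.comp_apply, tsum_pure]

/-- relabelling does not increase the revealment -/
theorem revealment_relabel (e : ι ≃ κ) (f : (ι → Bool) → Bool) :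
    revealment (fun x : κ → Bool => f (x ∘ e)) ≤ revealment f := by
  have := exists_alg f
  refine le_ciInf fun A => ?_
  refine revealment_le _ (PMF.map (QTree.map e) A.1) ?_ _
    (Real.iSup_nonneg fun i => rand_readProb_nonneg A.1 i) ?_
  · intro T hT
    rw [PMF.mem_support_map_iff] at hT
    obtain ⟨U, hU, rfl⟩ := hT
    exact map_computes e f U (A.2 U hU)
  · intro j
    obtain ⟨i, rfl⟩ := e.surjective j
    have : RandAlg.readProb (PMF.map (QTree.map e) A.1) (e i) = RandAlg.readProb A.1 i := by
      rw [readProb_eq_eR, readProb_eq_eR, eR, eR, tsum_map]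
      simp_rw [readProb_map]
    rw [this]
    exact le_ciSup (bdd A.1) i

/-! ### composition of trees -/

/-- run `U` on the block `b`, then continue according to the value of `g` on the block -/
def graft {ι κ : Type} [DecidableEq κ] (g : (κ → Bool) → Bool) (b : ι) :
    QTree κ → (κ → Option Bool) → (Bool → QTree (ι × κ)) → QTree (ι × κ)
  | .stop, σ, cont => cont (g fun i => (σ i).getD false)
  | .query i l r, σ, cont => .query (b, i) (graft g b l (update σ i (some false)) cont)
      (graft g b r (update σ i (some true)) cont)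

/-- composition of `T` with the inner tree `U` for `g` -/
def composeT {ι κ : Type} [DecidableEq κ] (g : (κ → Bool) → Bool) (U : QTree κ) :
    QTree ι → QTree (ι × κ)
  | .stop => .stop
  | .query b l r => graft g b U (fun _ => none) fun v =>
      if v = true then composeT g U r else composeT g U l

theorem mem_queried_graft (g : (κ → Bool) → Bool) (b : ι) (cont : Bool → QTree (ι × κ))
    (x : ι × κ → Bool) (p : ι × κ) : ∀ (U : QTree κ) (σ : κ → Option Bool),
    p ∈ (graft g b U σ cont).queried x ↔
      (p.1 = b ∧ p.2 ∈ U.queried fun i => x (b, i)) ∨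
      p ∈ (cont (g fun i => (run U (fun i => x (b, i)) σ i).getD false)).queried x
  | .stop, σ => by simp [graft, QTree.queried, run]
  | .query i l r, σ => by
      rw [graft, QTree.queried, QTree.queried, run]
      have hp : p = (b, i) ↔ (p.1 = b ∧ p.2 = i) := Prod.ext_iff
      by_cases h : x (b, i) = true
      · simp only [h, if_true, Set.mem_insert_iff]
        rw [mem_queried_graft g b cont x p r, hp]
        tauto
      · have h' : x (b, i) = false := by simpa using h
        simp only [h', Bool.false_eq_true, if_false, Set.mem_insert_iff]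
        rw [mem_queried_graft g b cont x p l, hp]
        tauto

theorem final_value (g : (κ → Bool) → Bool) (U : QTree κ) (hU : U.Computes g) (w : κ → Bool) :
    (g fun i => (run U w (fun _ => none) i).getD false) = g w := by
  refine hU w _ fun i hi => ?_
  rw [run_apply, if_pos hi]
  rfl

theorem mem_queried_compose (g : (κ → Bool) → Bool) (U : QTree κ) (hU : U.Computes g)
    (x : ι × κ → Bool) (p : ι × κ) : ∀ T : QTree ι,
    p ∈ (composeT g U T).queried x ↔
      p.1 ∈ T.queried (fun b => g fun i => x (b, i)) ∧ p.2 ∈ U.queried fun i => x (p.1, i)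
  | .stop => by simp [composeT, QTree.queried]
  | .query b l r => by
      rw [composeT, mem_queried_graft, final_value g U hU, QTree.queried]
      by_cases h : (g fun i => x (b, i)) = true
      · simp only [h, if_true, Set.mem_insert_iff]
        rw [mem_queried_compose g U hU x p r]
        constructor
        · rintro (⟨h1, h2⟩ | h1)
          · rw [h1]; exact ⟨Or.inl rfl, h2⟩
          · exact ⟨Or.inr h1.1, h1.2⟩
        · rintro ⟨h1 | h1, h2⟩
          · left; rw [h1] at h2; exact ⟨h1, h2⟩
          · right; exact ⟨h1, h2⟩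
      · have h' : (g fun i => x (b, i)) = false := by simpa using h
        simp only [h', Bool.false_eq_true, if_false, Set.mem_insert_iff]
        rw [mem_queried_compose g U hU x p l]
        constructor
        · rintro (⟨h1, h2⟩ | h1)
          · rw [h1]; exact ⟨Or.inl rfl, h2⟩
          · exact ⟨Or.inr h1.1, h1.2⟩
        · rintro ⟨h1 | h1, h2⟩
          · left; rw [h1] at h2; exact ⟨h1, h2⟩
          · right; exact ⟨h1, h2⟩

/-- the composed function -/
def compF {ι κ : Type} (f : (ι → Bool) → Bool) (g : (κ → Bool) → Bool) : (ι × κ → Bool) → Bool :=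
  fun x => f fun b => g fun i => x (b, i)

theorem compose_computes (f : (ι → Bool) → Bool) (g : (κ → Bool) → Bool) (T : QTree ι)
    (U : QTree κ) (hT : T.Computes f) (hU : U.Computes g) :
    (composeT g U T).Computes (compF f g) := by
  intro x y h
  refine hT _ _ fun b hb => ?_
  refine hU _ _ fun i hi => ?_
  exact h (b, i) ((mem_queried_compose g U hU x (b, i) T).2 ⟨hb, hi⟩)

theorem mem_queried_update {ι : Type} [DecidableEq ι] (b : ι) (z : ι → Bool) (v : Bool) :
    ∀ T : QTree ι, b ∈ T.queried (update z b v) ↔ b ∈ T.queried z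
  | .stop => Iff.rfl
  | .query c l r => by
      rw [QTree.queried, QTree.queried]
      by_cases h : c = b
      · subst h; simp
      · have h' : b ≠ c := fun e => h e.symm
        simp only [Set.mem_insert_iff, update_of_ne h]
        split_ifs
        · rw [mem_queried_update b z v r]
        · rw [mem_queried_update b z v l]

/-! ### counting -/

theorem sum_update {W : Type} [Fintype W] (b : ι) (h : (ι → W) → ℝ) :
    ∑ x : ι → W, ∑ w : W, h (update x b w) = Fintype.card W * ∑ x : ι → W, h x := by
  have hinv : Function.Involutive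
      (fun p : (ι → W) × W => ((update p.1 b p.2, p.1 b) : (ι → W) × W)) := by
    rintro ⟨x, w⟩; simp
  calc ∑ x : ι → W, ∑ w : W, h (update x b w)
      = ∑ p : (ι → W) × W, h (update p.1 b p.2) := by rw [Fintype.sum_prod_type]
    _ = ∑ p : (ι → W) × W, h p.1 := by
        rw [← Equiv.sum_comp (Function.Involutive.toPerm _ hinv)]
        refine Finset.sum_congr rfl fun p _ => ?_
        simp
    _ = ∑ x : ι → W, ∑ _w : W, h x := by rw [Fintype.sum_prod_type]
    _ = _ := by simp [Finset.mul_sum]

/-- the two values are taken equally often -/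
def Balanced (g : (κ → Bool) → Bool) : Prop :=
  ∀ v, ((Finset.univ.filter fun w => g w = v).card : ℝ) = Fintype.card (κ → Bool) / 2

theorem sum_comp_balanced (g : (κ → Bool) → Bool) (hg : Balanced g) (φ : (ι → Bool) → ℝ) :
    ∑ x : ι → κ → Bool, φ (fun b => g (x b)) =
      ((Fintype.card (κ → Bool) : ℝ) / 2) ^ Fintype.card ι * ∑ z, φ z := by
  have h1 : ∀ z : ι → Bool, ((Finset.univ.filter fun x : ι → κ → Bool =>
      (fun b => g (x b)) = z).card : ℝ) = ((Fintype.card (κ → Bool) : ℝ) / 2) ^ Fintype.card ι := by
    intro z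
    have h2 : (Finset.univ.filter fun x : ι → κ → Bool => (fun b => g (x b)) = z)
        = Fintype.piFinset fun b => Finset.univ.filter fun w => g w = z b := by
      ext x
      simp [funext_iff]
    rw [h2, Fintype.card_piFinset]
    push_cast
    rw [Finset.prod_congr rfl fun b _ => hg (z b), Finset.prod_const, Finset.card_univ]
  calc ∑ x : ι → κ → Bool, φ (fun b => g (x b))
      = ∑ z : ι → Bool, ∑ x ∈ Finset.univ.filter (fun x : ι → κ → Bool =>
          (fun b => g (x b)) = z), φ (fun b => g (x b)) :=
        (Finset.sum_fiberwise_of_maps_to (fun _ _ => Finset.mem_univ _) _).symm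
    _ = ∑ z : ι → Bool, ((Fintype.card (κ → Bool) : ℝ) / 2) ^ Fintype.card ι * φ z := by
        refine Finset.sum_congr rfl fun z _ => ?_
        rw [← h1 z, ← nsmul_eq_mul, ← Finset.sum_const]
        refine Finset.sum_congr rfl fun x hx => ?_
        rw [(Finset.mem_filter.1 hx).2]
    _ = _ := by rw [Finset.mul_sum]

theorem readProb_compose (g : (κ → Bool) → Bool) (hg : Balanced g) (T : QTree ι) (U : QTree κ)
    (hU : U.Computes g) (b : ι) (i : κ) :
    (composeT g U T).readProb (b, i) = T.readProb b * U.readProb i := by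
  rw [readProb_eq, readProb_eq, readProb_eq, NN_eq, NN_eq, NN_eq]
  set φ : (ι → Bool) → ℝ := fun z => if b ∈ T.queried z then (1 : ℝ) else 0 with hφ
  set ψ : (κ → Bool) → ℝ := fun w => if i ∈ U.queried w then (1 : ℝ) else 0 with hψ
  have h1 : (∑ x : ι × κ → Bool, if (b, i) ∈ (composeT g U T).queried x then (1 : ℝ) else 0)
      = ∑ x : ι → κ → Bool, φ (fun b => g (x b)) * ψ (x b) := by
    rw [← Equiv.sum_comp (Equiv.curry ι κ Bool)]
    refine Finset.sum_congr rfl fun x _ => ?_
    have e1 : φ (fun c => g (Equiv.curry ι κ Bool x c))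
        = if b ∈ T.queried (fun c => g fun i => x (c, i)) then (1 : ℝ) else 0 := rfl
    have e2 : ψ (Equiv.curry ι κ Bool x b)
        = if i ∈ U.queried (fun i => x (b, i)) then (1 : ℝ) else 0 := rfl
    rw [e1, e2]
    simp only [mem_queried_compose g U hU x (b, i) T]
    by_cases h1 : b ∈ T.queried fun b => g fun i => x (b, i)
    · simp [h1]
    · simp [h1]
  have h2 : (Fintype.card (κ → Bool) : ℝ) * ∑ x : ι → κ → Bool, φ (fun b => g (x b)) * ψ (x b)
      = (∑ x : ι → κ → Bool, φ (fun b => g (x b))) * ∑ w, ψ w := by
    rw [← sum_update b, Finset.sum_mul]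
    refine Finset.sum_congr rfl fun x _ => ?_
    rw [Finset.mul_sum]
    refine Finset.sum_congr rfl fun w _ => ?_
    have h3 : (fun c => g (update x b w c)) = update (fun c => g (x c)) b (g w) := by
      funext c
      by_cases hc : c = b
      · subst hc; simp
      · simp [hc]
    rw [h3]
    simp only [update_self, hφ, mem_queried_update]
  rw [sum_comp_balanced g hg] at h2
  have hW : (0 : ℝ) < Fintype.card (κ → Bool) := by exact_mod_cast Fintype.card_pos
  have hcard : (Fintype.card (ι × κ → Bool) : ℝ) = (Fintype.card (κ → Bool) : ℝ) ^ Fintype.card ι := by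
    rw [← Fintype.card_congr (Equiv.curry ι κ Bool).symm]
    simp
  have hcard2 : (Fintype.card (ι → Bool) : ℝ) = 2 ^ Fintype.card ι := by simp
  rw [h1, hcard, hcard2]
  set W : ℝ := (Fintype.card (κ → Bool) : ℝ)
  set S : ℝ := ∑ x : ι → κ → Bool, φ (fun b => g (x b)) * ψ (x b)
  have hS : S = (W / 2) ^ Fintype.card ι * (∑ z, φ z) * (∑ w, ψ w) / W := by
    rw [eq_div_iff hW.ne', mul_comm S W, h2]
  rw [hS, div_pow]
  have hWp : W ^ Fintype.card ι ≠ 0 := by positivity
  field_simp

/-! ### submultiplicativity -/

noncomputable def composeR (g : (κ → Bool) → Bool) (A : RandAlg ι) (B : RandAlg κ) :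
    RandAlg (ι × κ) := A.bind fun T => B.map fun U => composeT g U T

theorem readProb_composeR (g : (κ → Bool) → Bool) (hg : Balanced g) (A : RandAlg ι)
    (B : RandAlg κ) (hB : B.Computes g) (b : ι) (i : κ) :
    (composeR g A B).readProb (b, i) = A.readProb b * B.readProb i := by
  rw [readProb_eq_eR, readProb_eq_eR, readProb_eq_eR, ← ENNReal.toReal_mul]
  congr 1
  unfold eR composeR
  rw [tsum_bind, ← ENNReal.tsum_mul_right]
  refine tsum_congr fun T => ?_
  rw [tsum_map, mul_assoc]
  congr 1
  rw [← ENNReal.tsum_mul_left]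
  refine tsum_congr fun U => ?_
  by_cases hU : B U = 0
  · simp [hU]
  · rw [readProb_compose g hg T U (hB U ((PMF.mem_support_iff B U).2 hU)) b i,
      ENNReal.ofReal_mul (readProb_nonneg T b)]
    ring

theorem composeR_computes (f : (ι → Bool) → Bool) (g : (κ → Bool) → Bool) (A : RandAlg ι)
    (B : RandAlg κ) (hA : A.Computes f) (hB : B.Computes g) :
    (composeR g A B).Computes (compF f g) := by
  intro V hV
  rw [composeR, PMF.mem_support_bind_iff] at hV
  obtain ⟨T, hT, hV⟩ := hV
  rw [PMF.mem_support_map_iff] at hV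
  obtain ⟨U, hU, rfl⟩ := hV
  exact compose_computes f g T U (hA T hT) (hB U hU)

/-- submultiplicativity of the revealment -/
theorem revealment_comp_le (f : (ι → Bool) → Bool) (g : (κ → Bool) → Bool) (hg : Balanced g) :
    revealment (compF f g) ≤ revealment f * revealment g := by
  have h1 := exists_alg f
  have h2 := exists_alg g
  have key : ∀ (A : {A : RandAlg ι // A.Computes f}) (B : {B : RandAlg κ // B.Computes g}),
      revealment (compF f g) ≤ (⨆ i, A.1.readProb i) * ⨆ i, B.1.readProb i := by
    intro A B
    have nA := Real.iSup_nonneg fun i => rand_readProb_nonneg A.1 i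
    have nB := Real.iSup_nonneg fun i => rand_readProb_nonneg B.1 i
    refine revealment_le _ (composeR g A.1 B.1) (composeR_computes f g A.1 B.1 A.2 B.2) _
      (mul_nonneg nA nB) ?_
    rintro ⟨b, i⟩
    rw [readProb_composeR g hg A.1 B.1 B.2]
    exact mul_le_mul (le_ciSup (bdd A.1) b) (le_ciSup (bdd B.1) i)
      (rand_readProb_nonneg B.1 i) nA
  rw [show revealment g = ⨅ B : {B : RandAlg κ // B.Computes g}, ⨆ i : κ, B.1.readProb i from rfl,
    Real.mul_iInf_of_nonneg (revealment_nonneg f)]
  refine le_ciInf fun B => ?_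
  rw [show revealment f = ⨅ A : {A : RandAlg ι // A.Computes f}, ⨆ i : ι, A.1.readProb i from rfl,
    Real.iInf_mul_of_nonneg (Real.iSup_nonneg fun i => rand_readProb_nonneg B.1 i)]
  exact le_ciInf fun A => key A B

end Pool.Agent.MP_58cb87_lc
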