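import Mathlib

/-!
Definitions for the revealment of the iterated three-bit majority.
Bits are encoded by `Bool`: `true` is the bit `1` and `false` is the bit `-1`.
-/

namespace Pool.Agent.MP_58cb87_lc

/-- A deterministic query strategy for inputs with positions `ι`: stop, or query the bit at
position `i` and continue with `onFalse` or with `onTrue`, according to the value of that bit. -/
inductive QTree (ι : Type) : Type
  | stop : QTree ι
  | query (i : ι) (onFalse onTrue : QTree ι) : QTree ι

/-- The set of positions queried by a strategy on the input `x`. -/
def QTree.queried {ι : Type} : QTree ι → (ι → Bool) → Set ι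
  | .stop, _ => ∅
  | .query i onFalse onTrue, x =>
      insert i (if x i = true then onTrue.queried x else onFalse.queried x)

/-- On every input, the strategy stops only once the queried bits determine the value of `f`. -/
def QTree.Computes {ι : Type} (T : QTree ι) (f : (ι → Bool) → Bool) : Prop :=
  ∀ x y : ι → Bool, (∀ i ∈ T.queried x, y i = x i) → f y = f x

/-- A randomized algorithm: a deterministic strategy chosen at random, independently of the
input. -/
abbrev RandAlg (ι : Type) : Type := PMF (QTree ι)

/-- A randomized algorithm is an algorithm for `f` if every strategy it may choose is one. -/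
def RandAlg.Computes {ι : Type} (A : RandAlg ι) (f : (ι → Bool) → Bool) : Prop :=
  ∀ T ∈ A.support, T.Computes f

/-- The probability that the deterministic strategy `T` queries `i` on a uniform input. -/
noncomputable def QTree.readProb {ι : Type} (T : QTree ι) (i : ι) : ℝ :=
  (Nat.card {x : ι → Bool // i ∈ T.queried x} : ℝ) / (Nat.card (ι → Bool) : ℝ)

/-- The probability that the randomized algorithm `A` queries `i` on a uniform input. -/
noncomputable def RandAlg.readProb {ι : Type} (A : RandAlg ι) (i : ι) : ℝ :=
  ∑' T : QTree ι, (A T).toReal * T.readProb i

/-- The revealment of `f`: infimum over the randomized algorithms for `f` of the maximal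
probability that a position is queried. -/
noncomputable def revealment {ι : Type} (f : (ι → Bool) → Bool) : ℝ :=
  ⨅ A : {A : RandAlg ι // A.Computes f}, ⨆ i : ι, RandAlg.readProb A.1 i

/-- Majority of three bits. -/
def maj3 (a b c : Bool) : Bool := (a && b) || (a && c) || (b && c)

/-- The position `i` of the block number `j` (blocks are consecutive, of length `3 ^ k`). -/
def blockPos (k : ℕ) (j : Fin 3) (i : Fin (3 ^ k)) : Fin (3 ^ (k + 1)) :=
  ⟨j.1 * 3 ^ k + i.1, by
    have h1 := i.2
    have h2 : j.1 * 3 ^ k ≤ 2 * 3 ^ k := Nat.mul_le_mul_right _ (by omega)
    rw [pow_succ]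
    omega⟩

/-- Iterated three-bit majority on `3 ^ k` bits. -/
def iterMaj : (k : ℕ) → (Fin (3 ^ k) → Bool) → Bool
  | 0, x => x ⟨0, Nat.one_pos⟩
  | k + 1, x => maj3 (iterMaj k fun i => x (blockPos k 0 i)) (iterMaj k fun i => x (blockPos k 1 i))
      (iterMaj k fun i => x (blockPos k 2 i))

end Pool.Agent.MP_58cb87_lc
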