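import Pool.Agent.Lib.MP_58cb87_lc.Compose

/-!
Submultiplicativity of the revealment of the iterated majority.
-/

namespace Pool.Agent.MP_58cb87_lc

open Finset Function

theorem maj3_not (a b c : Bool) : maj3 (!a) (!b) (!c) = !maj3 a b c := by
  cases a <;> cases b <;> cases c <;> rfl

theorem iterMaj_not : ∀ (k : ℕ) (x : Fin (3 ^ k) → Bool), iterMaj k (fun i => !x i) = !iterMaj k x
  | 0, x => rfl
  | k + 1, x => by
      rw [iterMaj, iterMaj, ← maj3_not, ← iterMaj_not k, ← iterMaj_not k, ← iterMaj_not k]

theorem balanced_of_not {κ : Type} [Fintype κ] [DecidableEq κ] (g : (κ → Bool) → Bool)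
    (hg : ∀ x, g (fun i => !x i) = !g x) : Balanced g := by
  have hinv : Function.Involutive (fun x : κ → Bool => fun i => !x i) := by
    intro x; simp
  have h1 : (Finset.univ.filter fun w => g w = true).card
      = (Finset.univ.filter fun w => g w = false).card := by
    refine Finset.card_bij' (fun x _ i => !x i) (fun x _ i => !x i) ?_ ?_ ?_ ?_
    · intro x hx
      simp only [mem_filter, mem_univ, true_and] at hx ⊢
      rw [hg, hx]; rfl
    · intro x hx
      simp only [mem_filter, mem_univ, true_and] at hx ⊢
      rw [hg, hx]; rfl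
    · intro x _; simp
    · intro x _; simp
  have h2 : (Finset.univ.filter fun w => g w = true).card
      + (Finset.univ.filter fun w => g w = false).card = Fintype.card (κ → Bool) := by
    have := Finset.card_filter_add_card_filter_not (s := (Finset.univ : Finset (κ → Bool)))
      (fun w => g w = true)
    simpa using this
  have h3 : ((Finset.univ.filter fun w => g w = true).card : ℝ)
      + (Finset.univ.filter fun w => g w = false).card = Fintype.card (κ → Bool) := by
    exact_mod_cast h2
  intro v
  cases v
  · rw [h1] at h3; linarith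
  · rw [← h1] at h3; linarith

theorem balanced_iterMaj (k : ℕ) : Balanced (iterMaj k) := balanced_of_not _ (iterMaj_not k)

/-- the iterated majority is a composition -/
theorem iterMaj_comp (k : ℕ) : ∀ j : ℕ, ∃ e : Fin (3 ^ j) × Fin (3 ^ k) ≃ Fin (3 ^ (k + j)),
    ∀ x, iterMaj (k + j) x = compF (iterMaj j) (iterMaj k) (x ∘ e)
  | 0 => by
      have : Unique (Fin (3 ^ 0)) := (inferInstance : Unique (Fin 1))
      exact ⟨Equiv.uniqueProd (Fin (3 ^ k)) (Fin (3 ^ 0)), fun x => rfl⟩
  | j + 1 => by
      obtain ⟨e, he⟩ := iterMaj_comp k j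
      refine ⟨((blockEquiv j).symm.prodCongr (Equiv.refl _)).trans
        ((Equiv.prodAssoc _ _ _).trans (((Equiv.refl _).prodCongr e).trans (blockEquiv (k + j)))),
        fun x => ?_⟩
      have hE : ∀ c b i, (((blockEquiv j).symm.prodCongr (Equiv.refl _)).trans
        ((Equiv.prodAssoc _ _ _).trans (((Equiv.refl _).prodCongr e).trans (blockEquiv (k + j)))))
          (blockPos j c b, i) = blockPos (k + j) c (e (b, i)) := by
        intro c b i
        have h0 : (blockEquiv j).symm (blockPos j c b) = (c, b) := by
          rw [← blockEquiv_apply, Equiv.symm_apply_apply]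
        simp [h0, blockEquiv_apply]
      change iterMaj ((k + j) + 1) x = _
      rw [iterMaj]
      rw [he (fun i => x (blockPos (k + j) 0 i)), he (fun i => x (blockPos (k + j) 1 i)),
        he (fun i => x (blockPos (k + j) 2 i))]
      simp only [compF, iterMaj, Function.comp_apply, hE]

theorem revealment_submul (j k : ℕ) :
    revealment (iterMaj (k + j)) ≤ revealment (iterMaj j) * revealment (iterMaj k) := by
  obtain ⟨e, he⟩ := iterMaj_comp k j
  have h1 : iterMaj (k + j) = fun x => compF (iterMaj j) (iterMaj k) (x ∘ e) := funext he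
  rw [h1]
  exact (revealment_relabel e _).trans (revealment_comp_le _ _ (balanced_iterMaj k))

theorem revealment_le_one (k : ℕ) : revealment (iterMaj k) ≤ 1 := by
  obtain ⟨A⟩ := exists_alg (iterMaj k)
  exact revealment_le _ A.1 A.2 1 zero_le_one fun i => rand_readProb_le_one A.1 i

end Pool.Agent.MP_58cb87_lc
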