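import Pool.Agent.Lib.MP_58cb87_lc.Lower
import Pool.Agent.Lib.MP_58cb87_lc.Submul

/-!
Existence of the decay exponent of the revealment of the iterated majority.
-/

namespace Pool.Agent.MP_58cb87_lc

open Filter Topology

theorem revealment_pos (k : ℕ) : 0 < revealment (iterMaj k) :=
  lt_of_lt_of_le (by positivity) (revealment_ge k)

theorem subadd : Subadditive fun k : ℕ => Real.log (revealment (iterMaj k)) := by
  intro m n
  have h := revealment_submul n m
  rw [← Real.log_mul (revealment_pos m).ne' (revealment_pos n).ne', mul_comm]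
  exact Real.log_le_log (revealment_pos _) h

theorem subadd_bdd :
    BddBelow (Set.range fun n : ℕ => Real.log (revealment (iterMaj n)) / n) := by
  refine ⟨Real.log (23 / 30), ?_⟩
  rintro _ ⟨n, rfl⟩
  rcases Nat.eq_zero_or_pos n with rfl | hn
  · simp only [Nat.cast_zero, div_zero]
    exact Real.log_nonpos (by norm_num) (by norm_num)
  · have hn' : (0 : ℝ) < n := by exact_mod_cast hn
    rw [le_div_iff₀ hn', mul_comm, ← Real.log_pow]
    exact Real.log_le_log (by positivity) (revealment_ge n)

/-- the decay exponent -/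
noncomputable def expo : ℝ := -subadd.lim / Real.log 3

theorem quot_eq (k : ℕ) : -Real.log (revealment (iterMaj k)) / Real.log (3 ^ k)
    = -(Real.log (revealment (iterMaj k)) / k) / Real.log 3 := by
  rw [Real.log_pow, ← neg_div, div_div]

theorem tendsto_expo :
    Tendsto (fun k : ℕ => -Real.log (revealment (iterMaj k)) / Real.log (3 ^ k)) atTop
      (𝓝 expo) := by
  simp_rw [quot_eq]
  exact (subadd.tendsto_lim subadd_bdd).neg.div_const _

theorem log3_pos : 0 < Real.log 3 := Real.log_pos (by norm_num)

theorem le_expo (k : ℕ) (hk : 1 ≤ k) :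
    -Real.log (revealment (iterMaj k)) / Real.log (3 ^ k) ≤ expo := by
  rw [quot_eq, expo]
  have h := subadd.lim_le_div subadd_bdd (n := k) (by omega)
  exact div_le_div_of_nonneg_right (neg_le_neg h) log3_pos.le

theorem isLUB_expo : IsLUB ((fun k : ℕ => -Real.log (revealment (iterMaj k)) / Real.log (3 ^ k)) ''
    Set.Ici 1) expo := by
  refine ⟨?_, fun b hb => ?_⟩
  · rintro _ ⟨k, hk, rfl⟩
    exact le_expo k hk
  · refine le_of_tendsto tendsto_expo ?_
    filter_upwards [eventually_ge_atTop 1] with k hk
    exact hb ⟨k, hk, rfl⟩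

end Pool.Agent.MP_58cb87_lc
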