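import Pool.Agent.Lib.MP_58cb87_lc.KeyData

/-!
The key inequality for the potential
`F M Y = M² + Y² + M (1 - M²) (121/200 M - 69/40 Y)`.
-/

namespace Pool.Agent.MP_58cb87_lc

open Bern

/-- the potential -/
noncomputable def F (M Y : ℝ) : ℝ := M ^ 2 + Y ^ 2 + M * (1 - M ^ 2) * (121 / 200 * M - 69 / 40 * Y)

/-- multilinear extension of the majority of three bits -/
noncomputable def mM (a b c : ℝ) : ℝ := (a + b + c - a * b * c) / 2

/-- second functional -/
noncomputable def yY (a b c x y z : ℝ) : ℝ :=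
  8 / 25 * (x + y + z) + 23 / 200 * (a + b + c) + 1 / 5 * (a * b * c)

/-- correction term -/
noncomputable def eE (a b c x y z : ℝ) : ℝ :=
  133 / 200 * (a * b + a * c + b * c)
    - 13 / 100 * (a * (y + z) + b * (x + z) + c * (x + y))
    + 5 / 8 * (x * y + x * z + y * z)

section poly
variable (s u v : ℝ)

noncomputable def mu : ℝ := (1 + u + v - s * u * v) / 2
noncomputable def om : ℝ := 23 / 200 * (1 + u + v) + 1 / 5 * (s * u * v)
noncomputable def cc : ℝ :=
  23 / 10 * (-69 / 40 * (8 / 25) * mu s u v * (1 - s * mu s u v ^ 2) + 2 * (8 / 25) * om s u v)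
noncomputable def l1 : ℝ := -69 / 40 * (1 - s) - 13 / 100 * (u + v) - cc s u v
noncomputable def l2 : ℝ := -69 / 40 * u * (1 - s * u ^ 2) - 13 / 100 * (1 + v) - cc s u v
noncomputable def l3 : ℝ := -69 / 40 * v * (1 - s * v ^ 2) - 13 / 100 * (1 + u) - cc s u v
noncomputable def At : ℝ :=
  (1 + u ^ 2 + v ^ 2) + 121 / 200 * ((1 - s) + u ^ 2 * (1 - s * u ^ 2) + v ^ 2 * (1 - s * v ^ 2))
    + 133 / 200 * (u + v + u * v)
    - 23 / 10 * (mu s u v ^ 2 + 121 / 200 * mu s u v ^ 2 * (1 - s * mu s u v ^ 2)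
      - 69 / 40 * mu s u v * (1 - s * mu s u v ^ 2) * om s u v + om s u v ^ 2)
/-- the reduced polynomial -/
noncomputable def Kt : ℝ :=
  At s u v - 4 / 11 * (l1 s u v ^ 2 + l2 s u v ^ 2 + l3 s u v ^ 2
    - 419 / 5000 * (l1 s u v + l2 s u v + l3 s u v) ^ 2)

set_option maxRecDepth 20000 in
theorem ev3_KA : ev3 KA s u v = 68750000000000 * Kt s u v := by
  simp only [ev3, ev2, ev1, KA, Kt, At, l1, l2, l3, cc, om, mu]
  push_cast
  ring

theorem KA_rel : R3 9 7 7 s 1 u 1 v 1 KA (ev3 KA s u v) := by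
  have h := ev3_rel s u v 7 7 KA (by decide)
  exact h

variable {s u v}

theorem Kt_nonneg (hs : 0 ≤ s) (hs' : s ≤ 1) (hu : |u| ≤ 1) (hv : |v| ≤ 1) : 0 ≤ Kt s u v := by
  have key : 0 ≤ ev3 KA s u v := by
    have h := KA_rel s u v
    obtain ⟨hu1, hu2⟩ := abs_le.1 hu
    obtain ⟨hv1, hv2⟩ := abs_le.1 hv
    rcases le_total 0 u with h0 | h0 <;> rcases le_total 0 v with h1 | h1
    · exact check_cube certPP hs hs' h0 hu2 h1 hv2 KA _ h check_PP
    · exact check_cube certPM hs hs' h0 hu2 (neg_nonneg.2 h1) (by linarith) (altV KA) _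
        (altV_sound KA _ h) check_PM
    · exact check_cube certMP hs hs' (neg_nonneg.2 h0) (by linarith) h1 hv2 (altU KA) _
        (altU_sound KA _ h) check_MP
    · exact check_cube certMM hs hs' (neg_nonneg.2 h0) (by linarith) (neg_nonneg.2 h1)
        (by linarith) (altV (altU KA)) _ (altV_sound _ _ (altU_sound KA _ h)) check_MM
  rw [ev3_KA] at key
  linarith

end poly

/-- difference of the two sides of the key inequality -/
noncomputable def G (a b c x y z : ℝ) : ℝ :=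
  F a x + F b y + F c z + eE a b c x y z - 23 / 10 * F (mM a b c) (yY a b c x y z)

theorem G_expand (t u v x y z : ℝ) : G t (t * u) (t * v) x y z =
    t ^ 2 * At (t ^ 2) u v + t * (l1 (t ^ 2) u v * x + l2 (t ^ 2) u v * y + l3 (t ^ 2) u v * z)
      + 11 / 16 * (x ^ 2 + y ^ 2 + z ^ 2) + 3849 / 50000 * (x + y + z) ^ 2 := by
  simp only [G, F, mM, yY, eE, At, l1, l2, l3, cc, om, mu]
  ring

theorem G_nonneg_aux (t u v x y z : ℝ) (ht : |t| ≤ 1) (hu : |u| ≤ 1) (hv : |v| ≤ 1) :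
    0 ≤ G t (t * u) (t * v) x y z := by
  have hs' : t ^ 2 ≤ 1 := by rw [← sq_abs]; nlinarith [abs_nonneg t]
  have hK := Kt_nonneg (sq_nonneg t) hs' hu hv
  rw [G_expand]
  generalize hl1 : l1 (t ^ 2) u v = a at *
  generalize hl2 : l2 (t ^ 2) u v = b at *
  generalize hl3 : l3 (t ^ 2) u v = c at *
  generalize hA : At (t ^ 2) u v = A at *
  rw [Kt, hl1, hl2, hl3, hA] at hK
  have h1 : 0 ≤ t ^ 2 * (A - 4 / 11 * (a ^ 2 + b ^ 2 + c ^ 2 - 419 / 5000 * (a + b + c) ^ 2)) :=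
    mul_nonneg (sq_nonneg t) hK
  have h2 := sq_nonneg ((x + 8 / 11 * (t * a)) - (y + 8 / 11 * (t * b)))
  have h3 := sq_nonneg ((x + 8 / 11 * (t * a)) - (z + 8 / 11 * (t * c)))
  have h4 := sq_nonneg ((y + 8 / 11 * (t * b)) - (z + 8 / 11 * (t * c)))
  have h5 := sq_nonneg ((x + y + z) + 12500 / 22961 * (t * (a + b + c)))
  have h6 := sq_nonneg (t * (a + b + c))
  nlinarith [h1, h2, h3, h4, h5, h6]

theorem G_swap12 (a b c x y z : ℝ) : G a b c x y z = G b a c y x z := by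
  simp only [G, F, mM, yY, eE]; ring

theorem G_swap13 (a b c x y z : ℝ) : G a b c x y z = G c b a z y x := by
  simp only [G, F, mM, yY, eE]; ring

theorem G_nonneg_max (a b c x y z : ℝ) (ha : |a| ≤ 1) (hb : |b| ≤ |a|) (hc : |c| ≤ |a|) :
    0 ≤ G a b c x y z := by
  by_cases h : a = 0
  · subst h
    have hb0 : b = 0 := by simpa using hb
    have hc0 : c = 0 := by simpa using hc
    subst hb0; subst hc0
    have := G_nonneg_aux 0 0 0 x y z (by simp) (by simp) (by simp)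
    simpa using this
  · have hpos : 0 < |a| := abs_pos.2 h
    have := G_nonneg_aux a (b / a) (c / a) x y z ha
      (by rw [abs_div]; exact (div_le_one hpos).2 hb)
      (by rw [abs_div]; exact (div_le_one hpos).2 hc)
    rwa [mul_div_cancel₀ _ h, mul_div_cancel₀ _ h] at this

theorem G_nonneg (a b c x y z : ℝ) (ha : |a| ≤ 1) (hb : |b| ≤ 1) (hc : |c| ≤ 1) :
    0 ≤ G a b c x y z := by
  rcases le_total |b| |a| with h1 | h1 <;> rcases le_total |c| |a| with h2 | h2 <;>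
    rcases le_total |c| |b| with h3 | h3
  · exact G_nonneg_max a b c x y z ha h1 h2
  · exact G_nonneg_max a b c x y z ha h1 h2
  · exact G_nonneg_max a b c x y z ha h1 (h3.trans h1)
  · rw [G_swap13]; exact G_nonneg_max c b a z y x hc h3 h2
  · rw [G_swap12]; exact G_nonneg_max b a c y x z hb h1 h3
  · exact (by rw [G_swap12]; exact G_nonneg_max b a c y x z hb h1 (h2.trans h1))
  · rw [G_swap12]; exact G_nonneg_max b a c y x z hb h1 h3
  · rw [G_swap13]; exact G_nonneg_max c b a z y x hc h3 h2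

/-- the key inequality -/
theorem key_ineq (a b c x y z : ℝ) (ha : |a| ≤ 1) (hb : |b| ≤ 1) (hc : |c| ≤ 1) :
    23 / 10 * F (mM a b c) (yY a b c x y z) ≤ F a x + F b y + F c z + eE a b c x y z := by
  have := G_nonneg a b c x y z ha hb hc
  rw [G] at this
  linarith

theorem mM_abs_le (a b c : ℝ) (ha : |a| ≤ 1) (hb : |b| ≤ 1) (hc : |c| ≤ 1) : |mM a b c| ≤ 1 := by
  obtain ⟨ha1, ha2⟩ := abs_le.1 ha
  obtain ⟨hb1, hb2⟩ := abs_le.1 hb
  obtain ⟨hc1, hc2⟩ := abs_le.1 hc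
  rw [abs_le, mM]
  have h1 := mul_nonneg (mul_nonneg (sub_nonneg.2 ha2) (sub_nonneg.2 hb2)) (sub_nonneg.2 hc2)
  have e1 : 0 ≤ 1 + a := by linarith
  have e2 : 0 ≤ 1 + b := by linarith
  have e3 : 0 ≤ 1 + c := by linarith
  have e4 : 0 ≤ 1 - a := by linarith
  have e5 : 0 ≤ 1 - b := by linarith
  have e6 : 0 ≤ 1 - c := by linarith
  constructor
  · nlinarith [mul_nonneg (mul_nonneg e1 e2) e3, mul_nonneg (mul_nonneg e1 e2) e6,
      mul_nonneg (mul_nonneg e1 e5) e3, mul_nonneg (mul_nonneg e4 e2) e3]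
  · nlinarith [mul_nonneg (mul_nonneg e4 e5) e6, mul_nonneg (mul_nonneg e1 e5) e6,
      mul_nonneg (mul_nonneg e4 e2) e6, mul_nonneg (mul_nonneg e4 e5) e3]

end Pool.Agent.MP_58cb87_lc
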