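import Pool.Agent.Lib.MP_58cb87_lc.Blocks
import Pool.Agent.Lib.MP_58cb87_lc.Key

/-!
Lower bound for the revealment of the iterated majority.
-/

namespace Pool.Agent.MP_58cb87_lc

open Finset Function

/-- multilinear extension of the iterated majority -/
noncomputable def Mf : (k : ℕ) → (Fin (3 ^ k) → ℝ) → ℝ
  | 0, s => s ⟨0, Nat.one_pos⟩
  | k + 1, s => mM (Mf k fun i => s (blockPos k 0 i)) (Mf k fun i => s (blockPos k 1 i))
      (Mf k fun i => s (blockPos k 2 i))

noncomputable def Yf : (k : ℕ) → (Fin (3 ^ k) → ℝ) → ℝ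
  | 0, _ => 0
  | k + 1, s => yY (Mf k fun i => s (blockPos k 0 i)) (Mf k fun i => s (blockPos k 1 i))
      (Mf k fun i => s (blockPos k 2 i)) (Yf k fun i => s (blockPos k 0 i))
      (Yf k fun i => s (blockPos k 1 i)) (Yf k fun i => s (blockPos k 2 i))

noncomputable def Ef : (k : ℕ) → (Fin (3 ^ k) → ℝ) → ℝ
  | 0, _ => 0
  | k + 1, s => (Ef k fun i => s (blockPos k 0 i)) + (Ef k fun i => s (blockPos k 1 i))
      + (Ef k fun i => s (blockPos k 2 i))
      + (23 / 10) ^ k * eE (Mf k fun i => s (blockPos k 0 i)) (Mf k fun i => s (blockPos k 1 i))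
      (Mf k fun i => s (blockPos k 2 i)) (Yf k fun i => s (blockPos k 0 i))
      (Yf k fun i => s (blockPos k 1 i)) (Yf k fun i => s (blockPos k 2 i))

theorem energy : ∀ (k : ℕ) (s : Fin (3 ^ k) → ℝ), (∀ i, s i = -1 ∨ s i = 0 ∨ s i = 1) →
    |Mf k s| ≤ 1 ∧ (23 / 10) ^ k * F (Mf k s) (Yf k s) ≤ (∑ i, s i ^ 2) + Ef k s
  | 0, s, h => by
      have hsum : (∑ i, s i ^ 2) = s ⟨0, Nat.one_pos⟩ ^ 2 := by
        have : (∑ i : Fin 1, (fun i : Fin 1 => s i ^ 2) i) = s ⟨0, Nat.one_pos⟩ ^ 2 := by
          rw [Fin.sum_univ_one]; rfl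
        exact this
      rw [hsum]
      have h0 := h ⟨0, Nat.one_pos⟩
      rw [Mf, Yf, Ef]
      generalize s ⟨0, Nat.one_pos⟩ = t at *
      rcases h0 with rfl | rfl | rfl <;> norm_num [F]
  | k + 1, s, h => by
      obtain ⟨m0, e0⟩ := energy k (fun i => s (blockPos k 0 i)) fun i => h _
      obtain ⟨m1, e1⟩ := energy k (fun i => s (blockPos k 1 i)) fun i => h _
      obtain ⟨m2, e2⟩ := energy k (fun i => s (blockPos k 2 i)) fun i => h _
      rw [Mf, Yf, Ef, sum_blocks]
      generalize Mf k (fun i => s (blockPos k 0 i)) = a at *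
      generalize Mf k (fun i => s (blockPos k 1 i)) = b at *
      generalize Mf k (fun i => s (blockPos k 2 i)) = c at *
      generalize Yf k (fun i => s (blockPos k 0 i)) = x at *
      generalize Yf k (fun i => s (blockPos k 1 i)) = y at *
      generalize Yf k (fun i => s (blockPos k 2 i)) = z at *
      refine ⟨mM_abs_le a b c m0 m1 m2, ?_⟩
      have key := key_ineq a b c x y z m0 m1 m2
      have hp : (0 : ℝ) ≤ (23 / 10) ^ k := by positivity
      have := mul_le_mul_of_nonneg_left key hp
      rw [pow_succ]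
      linarith

theorem midAff_MY : ∀ k : ℕ, MidAff (Mf k) ∧ MidAff (Yf k) ∧ MidAff (Ef k)
  | 0 => by
      refine ⟨fun s i => ?_, fun s i => ?_, fun s i => ?_⟩
      · have : i = ⟨0, Nat.one_pos⟩ := by
          apply Fin.ext
          have := i.2
          simp only [pow_zero] at this
          omega
        subst this
        simp [Mf]
      · simp [Yf]
      · simp [Ef]
  | k + 1 => by
      obtain ⟨hM, hY, hE⟩ := midAff_MY k
      have ne01 : (0 : Fin 3) ≠ 1 := by decide
      have ne02 : (0 : Fin 3) ≠ 2 := by decide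
      have ne12 : (1 : Fin 3) ≠ 2 := by decide
      refine ⟨fun s p => ?_, fun s p => ?_, fun s p => ?_⟩
      all_goals obtain ⟨j, i, rfl⟩ := exists_blockPos k p
      all_goals fin_cases j
      all_goals simp only [Fin.zero_eta, Fin.mk_one, Fin.reduceFinMk, Mf, Yf, Ef,
        update_block_same, update_block_ne k s 0 1 ne01.symm, update_block_ne k s 0 2 ne02.symm,
        update_block_ne k s 1 0 ne01, update_block_ne k s 1 2 ne12.symm,
        update_block_ne k s 2 0 ne02, update_block_ne k s 2 1 ne12]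
      all_goals
        have hM0 := hM (fun i => s (blockPos k 0 i)) i
        have hM1 := hM (fun i => s (blockPos k 1 i)) i
        have hM2 := hM (fun i => s (blockPos k 2 i)) i
        have hY0 := hY (fun i => s (blockPos k 0 i)) i
        have hY1 := hY (fun i => s (blockPos k 1 i)) i
        have hY2 := hY (fun i => s (blockPos k 2 i)) i
        have hE0 := hE (fun i => s (blockPos k 0 i)) i
        have hE1 := hE (fun i => s (blockPos k 1 i)) i
        have hE2 := hE (fun i => s (blockPos k 2 i)) i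
        generalize (Mf k fun i => s (blockPos k 0 i)) = a at *
        generalize (Mf k fun i => s (blockPos k 1 i)) = b at *
        generalize (Mf k fun i => s (blockPos k 2 i)) = c at *
        generalize (Yf k fun i => s (blockPos k 0 i)) = x at *
        generalize (Yf k fun i => s (blockPos k 1 i)) = y at *
        generalize (Yf k fun i => s (blockPos k 2 i)) = z at *
      · unfold mM; linear_combination ((1 - b * c) / 2) * hM0
      · unfold mM; linear_combination ((1 - a * c) / 2) * hM1
      · unfold mM; linear_combination ((1 - a * b) / 2) * hM2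
      · unfold yY; linear_combination (23 / 200 + 1 / 5 * (b * c)) * hM0 + 8 / 25 * hY0
      · unfold yY; linear_combination (23 / 200 + 1 / 5 * (a * c)) * hM1 + 8 / 25 * hY1
      · unfold yY; linear_combination (23 / 200 + 1 / 5 * (a * b)) * hM2 + 8 / 25 * hY2
      · unfold eE
        linear_combination hE0 + (23 / 10) ^ k *
          ((133 / 200 * (b + c) - 13 / 100 * (y + z)) * hM0
            + (-13 / 100 * (b + c) + 5 / 8 * (y + z)) * hY0)
      · unfold eE
        linear_combination hE1 + (23 / 10) ^ k *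
          ((133 / 200 * (a + c) - 13 / 100 * (x + z)) * hM1
            + (-13 / 100 * (a + c) + 5 / 8 * (x + z)) * hY1)
      · unfold eE
        linear_combination hE2 + (23 / 10) ^ k *
          ((133 / 200 * (a + b) - 13 / 100 * (x + y)) * hM2
            + (-13 / 100 * (a + b) + 5 / 8 * (x + y)) * hY2)

theorem zero_vals : ∀ k : ℕ, Mf k (fun _ => 0) = 0 ∧ Yf k (fun _ => 0) = 0 ∧ Ef k (fun _ => 0) = 0
  | 0 => by simp [Mf, Yf, Ef]
  | k + 1 => by
      obtain ⟨h1, h2, h3⟩ := zero_vals k
      simp [Mf, Yf, Ef, h1, h2, h3, mM, yY, eE]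

theorem mM_sgn (a b c : Bool) : mM (sgn a) (sgn b) (sgn c) = sgn (maj3 a b c) := by
  cases a <;> cases b <;> cases c <;> norm_num [mM, sgn, maj3]

theorem Mf_sgn : ∀ (k : ℕ) (y : Fin (3 ^ k) → Bool), Mf k (fun i => sgn (y i)) = sgn (iterMaj k y)
  | 0, y => rfl
  | k + 1, y => by
      rw [Mf, iterMaj, ← mM_sgn]
      rw [Mf_sgn k fun i => y (blockPos k 0 i), Mf_sgn k fun i => y (blockPos k 1 i),
        Mf_sgn k fun i => y (blockPos k 2 i)]

/-- lower bound for the expected number of queries -/
theorem cost_ge (k : ℕ) (T : QTree (Fin (3 ^ k))) (hT : T.Computes (iterMaj k)) :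
    (23 / 10) ^ k ≤ cost T := by
  obtain ⟨hM, -, hE⟩ := midAff_MY k
  have h1 := cost_eq_val T
  have h2 := tree_mart_zero (Ef k) hE T
  rw [(zero_vals k).2.2, mul_zero] at h2
  have h3 : ∀ x : Fin (3 ^ k) → Bool, (23 / 10 : ℝ) ^ k ≤
      (∑ i, val (run T x fun _ => none) i ^ 2) + Ef k (val (run T x fun _ => none)) := by
    intro x
    have hs : ∀ i, val (run T x fun _ => none) i = -1 ∨ val (run T x fun _ => none) i = 0
        ∨ val (run T x fun _ => none) i = 1 := by
      intro i
      rw [val_run]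
      split_ifs
      · cases x i
        · left; rfl
        · right; right; rfl
      · right; left; rfl
    have h4 := (energy k _ hs).2
    have h5 : Mf k (val (run T x fun _ => none)) = sgn (iterMaj k x) :=
      computes_val (Mf k) hM (iterMaj k) (Mf_sgn k) T hT x
    rw [h5] at h4
    refine le_trans ?_ h4
    have h6 : F (sgn (iterMaj k x)) (Yf k (val (run T x fun _ => none)))
        = 1 + Yf k (val (run T x fun _ => none)) ^ 2 := by
      unfold F
      rw [sgn_sq]; ring
    rw [h6]
    have h7 : (0 : ℝ) ≤ (23 / 10) ^ k := by positivity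
    nlinarith [mul_nonneg h7 (sq_nonneg (Yf k (val (run T x fun _ => none))))]
  have h8 := Finset.sum_le_sum fun x (_ : x ∈ (Finset.univ : Finset (Fin (3 ^ k) → Bool))) => h3 x
  rw [Finset.sum_add_distrib, h2, add_zero, ← h1, Finset.sum_const, Finset.card_univ,
    nsmul_eq_mul, ← NN_eq] at h8
  exact le_of_mul_le_mul_left h8 NN_pos

theorem revealment_ge (k : ℕ) : (23 / 30) ^ k ≤ revealment (iterMaj k) := by
  have : Nonempty (Fin (3 ^ k)) := ⟨⟨0, by positivity⟩⟩
  have := le_revealment (iterMaj k) ((23 / 10) ^ k) (cost_ge k)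
  refine le_trans (le_of_eq ?_) this
  rw [Fintype.card_fin]
  push_cast
  rw [← div_pow]
  norm_num

end Pool.Agent.MP_58cb87_lc
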