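import Pool.Agent.Lib.MP_58cb87_lc.Sym

/-!
Abstract states of the evaluation of an iterated majority, and a checker for query strategies.
-/

namespace Pool.Agent.MP_58cb87_lc

open Function

/-- direction: which of the three children -/
inductive Dir : Type
  | d0 | d1 | d2
  deriving DecidableEq

/-- states: unknown leaf, known value, or gate with three children -/
inductive St : Type
  | unk : St
  | val (b : Bool) : St
  | node (a b c : St) : St

namespace St

/-- the function computed by a state, of the bits at the end of the paths -/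
def sem : St → (List Dir → Bool) → Bool
  | .unk, x => x []
  | .val b, _ => b
  | .node a b c, x => maj3 (a.sem fun p => x (.d0 :: p)) (b.sem fun p => x (.d1 :: p))
      (c.sem fun p => x (.d2 :: p))

/-- paths of unknown leaves -/
def live : St → List Dir → Prop
  | .unk, [] => True
  | .unk, _ :: _ => False
  | .val _, _ => False
  | .node _ _ _, [] => False
  | .node a _ _, .d0 :: p => a.live p
  | .node _ b _, .d1 :: p => b.live p
  | .node _ _ c, .d2 :: p => c.live p

def neg : St → St
  | .unk => .unk
  | .val b => .val (!b)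
  | .node a b c => .node a.neg b.neg c.neg

/-- is the path the path of an unknown leaf? -/
def isLive : St → List Dir → Bool
  | .unk, [] => true
  | .unk, _ :: _ => false
  | .val _, _ => false
  | .node _ _ _, [] => false
  | .node a _ _, .d0 :: p => a.isLive p
  | .node _ b _, .d1 :: p => b.isLive p
  | .node _ _ c, .d2 :: p => c.isLive p

/-- fill in a bit -/
def set : St → List Dir → Bool → St
  | .unk, _, v => .val v
  | .val b, _, _ => .val b
  | .node a b c, [], _ => .node a b c
  | .node a b c, .d0 :: p, v => .node (a.set p v) b c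
  | .node a b c, .d1 :: p, v => .node a (b.set p v) c
  | .node a b c, .d2 :: p, v => .node a b (c.set p v)

theorem live_of_isLive : ∀ (s : St) (p : List Dir), s.isLive p = true → s.live p
  | .unk, [], _ => trivial
  | .unk, _ :: _, h => by simp [isLive] at h
  | .val _, _, h => by simp [isLive] at h
  | .node _ _ _, [], h => by simp [isLive] at h
  | .node a _ _, .d0 :: p, h => live_of_isLive a p h
  | .node _ b _, .d1 :: p, h => live_of_isLive b p h
  | .node _ _ c, .d2 :: p, h => live_of_isLive c p h

theorem update_cons_same (x : List Dir → Bool) (d : Dir) (p : List Dir) (v : Bool) :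
    (fun q => update x (d :: p) v (d :: q)) = update (fun q => x (d :: q)) p v := by
  funext q
  by_cases h : q = p
  · subst h; simp
  · simp [h]

theorem update_cons_ne (x : List Dir → Bool) (d d' : Dir) (hd : d' ≠ d) (p : List Dir) (v : Bool) :
    (fun q => update x (d :: p) v (d' :: q)) = fun q => x (d' :: q) := by
  funext q
  rw [update_of_ne]
  intro h
  exact hd (List.cons.inj h).1

theorem sem_set (v : Bool) : ∀ (s : St) (p : List Dir) (x : List Dir → Bool), s.live p →
    (s.set p v).sem x = s.sem (update x p v)
  | .unk, [], x, _ => by simp [set, sem]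
  | .node a b c, .d0 :: p, x, h => by
      rw [set, sem, sem, sem_set v a p _ h, update_cons_same,
        update_cons_ne x .d0 .d1 (by simp), update_cons_ne x .d0 .d2 (by simp)]
  | .node a b c, .d1 :: p, x, h => by
      rw [set, sem, sem, sem_set v b p _ h, update_cons_same,
        update_cons_ne x .d1 .d0 (by simp), update_cons_ne x .d1 .d2 (by simp)]
  | .node a b c, .d2 :: p, x, h => by
      rw [set, sem, sem, sem_set v c p _ h, update_cons_same,
        update_cons_ne x .d2 .d0 (by simp), update_cons_ne x .d2 .d1 (by simp)]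

theorem live_set (v : Bool) : ∀ (s : St) (p q : List Dir), s.live p →
    (s.set p v).live q → s.live q ∧ q ≠ p
  | .unk, [], q, _, h => by simp [set, live] at h
  | .node a b c, .d0 :: p, [], _, h => by simp [set, live] at h
  | .node a b c, .d1 :: p, [], _, h => by simp [set, live] at h
  | .node a b c, .d2 :: p, [], _, h => by simp [set, live] at h
  | .node a b c, .d0 :: p, .d0 :: q, hp, h => by
      have := live_set v a p q hp h
      exact ⟨this.1, by simpa using this.2⟩
  | .node a b c, .d0 :: p, .d1 :: q, hp, h => ⟨h, by simp⟩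
  | .node a b c, .d0 :: p, .d2 :: q, hp, h => ⟨h, by simp⟩
  | .node a b c, .d1 :: p, .d1 :: q, hp, h => by
      have := live_set v b p q hp h
      exact ⟨this.1, by simpa using this.2⟩
  | .node a b c, .d1 :: p, .d0 :: q, hp, h => ⟨h, by simp⟩
  | .node a b c, .d1 :: p, .d2 :: q, hp, h => ⟨h, by simp⟩
  | .node a b c, .d2 :: p, .d2 :: q, hp, h => by
      have := live_set v c p q hp h
      exact ⟨this.1, by simpa using this.2⟩
  | .node a b c, .d2 :: p, .d0 :: q, hp, h => ⟨h, by simp⟩
  | .node a b c, .d2 :: p, .d1 :: q, hp, h => ⟨h, by simp⟩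

/-- `s` reduces to `t`: a strategy for `t` gives one for `s` by relabelling -/
def Red (s t : St) : Prop :=
  ∃ e : List Dir → List Dir, (∀ x, s.sem x = t.sem (x ∘ e)) ∧
    (∀ p q, t.live p → t.live q → e p = e q → p = q) ∧ ∀ p, t.live p → s.live (e p)

theorem Red.refl (s : St) : Red s s := ⟨id, fun _ => rfl, fun _ _ _ _ h => h, fun _ h => h⟩

theorem Red.trans {s t u : St} (h : Red s t) (h' : Red t u) : Red s u := by
  obtain ⟨e, h1, h2, h3⟩ := h
  obtain ⟨e', h1', h2', h3'⟩ := h'
  refine ⟨e ∘ e', fun x => ?_, fun p q hp hq h => ?_, fun p hp => h3 _ (h3' p hp)⟩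
  · rw [h1, h1']; rfl
  · exact h2' p q hp hq (h2 _ _ (h3' p hp) (h3' q hq) h)

/-- apply maps in the three subtrees -/
def lift3 (e0 e1 e2 : List Dir → List Dir) : List Dir → List Dir
  | [] => []
  | .d0 :: p => .d0 :: e0 p
  | .d1 :: p => .d1 :: e1 p
  | .d2 :: p => .d2 :: e2 p

theorem Red.node {a b c a' b' c' : St} (ha : Red a a') (hb : Red b b') (hc : Red c c') :
    Red (.node a b c) (.node a' b' c') := by
  obtain ⟨e0, a1, a2, a3⟩ := ha
  obtain ⟨e1, b1, b2, b3⟩ := hb
  obtain ⟨e2, c1, c2, c3⟩ := hc
  refine ⟨lift3 e0 e1 e2, fun x => ?_, fun p q hp hq h => ?_, fun p hp => ?_⟩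
  · rw [sem, sem, a1, b1, c1]; rfl
  · match p, q, hp, hq, h with
    | .d0 :: p, .d0 :: q, hp, hq, h =>
      rw [a2 p q hp hq (List.cons.inj h).2]
    | .d1 :: p, .d1 :: q, hp, hq, h =>
      rw [b2 p q hp hq (List.cons.inj h).2]
    | .d2 :: p, .d2 :: q, hp, hq, h =>
      rw [c2 p q hp hq (List.cons.inj h).2]
    | .d0 :: p, .d1 :: q, hp, hq, h => simp [lift3] at h
    | .d0 :: p, .d2 :: q, hp, hq, h => simp [lift3] at h
    | .d1 :: p, .d0 :: q, hp, hq, h => simp [lift3] at h
    | .d1 :: p, .d2 :: q, hp, hq, h => simp [lift3] at h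
    | .d2 :: p, .d0 :: q, hp, hq, h => simp [lift3] at h
    | .d2 :: p, .d1 :: q, hp, hq, h => simp [lift3] at h
    | [], _, hp, _, _ => simp [live] at hp
    | _, [], _, hq, _ => simp [live] at hq
  · match p, hp with
    | .d0 :: p, hp => exact a3 p hp
    | .d1 :: p, hp => exact b3 p hp
    | .d2 :: p, hp => exact c3 p hp
    | [], hp => simp [live] at hp

/-- exchange of the first two children -/
def sw01 : List Dir → List Dir
  | .d0 :: p => .d1 :: p
  | .d1 :: p => .d0 :: p
  | p => p

/-- exchange of the last two children -/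
def sw12 : List Dir → List Dir
  | .d1 :: p => .d2 :: p
  | .d2 :: p => .d1 :: p
  | p => p

theorem sw01_inv (p : List Dir) : sw01 (sw01 p) = p := by
  match p with
  | [] => rfl
  | .d0 :: p => rfl
  | .d1 :: p => rfl
  | .d2 :: p => rfl

theorem sw12_inv (p : List Dir) : sw12 (sw12 p) = p := by
  match p with
  | [] => rfl
  | .d0 :: p => rfl
  | .d1 :: p => rfl
  | .d2 :: p => rfl

theorem maj3_sw01 (a b c : Bool) : maj3 b a c = maj3 a b c := by
  cases a <;> cases b <;> cases c <;> rfl

theorem maj3_sw12 (a b c : Bool) : maj3 a c b = maj3 a b c := by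
  cases a <;> cases b <;> cases c <;> rfl

theorem Red.sw01 (a b c : St) : Red (.node a b c) (.node b a c) := by
  refine ⟨St.sw01, fun x => ?_, fun p q _ _ h => ?_, fun p hp => ?_⟩
  · rw [sem, sem, ← maj3_sw01]; rfl
  · rw [← sw01_inv p, h, sw01_inv]
  · match p, hp with
    | .d0 :: p, hp => exact hp
    | .d1 :: p, hp => exact hp
    | .d2 :: p, hp => exact hp
    | [], hp => simp [live] at hp

theorem Red.sw12 (a b c : St) : Red (.node a b c) (.node a c b) := by
  refine ⟨St.sw12, fun x => ?_, fun p q _ _ h => ?_, fun p hp => ?_⟩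
  · rw [sem, sem, ← maj3_sw12]; rfl
  · rw [← sw12_inv p, h, sw12_inv]
  · match p, hp with
    | .d0 :: p, hp => exact hp
    | .d1 :: p, hp => exact hp
    | .d2 :: p, hp => exact hp
    | [], hp => simp [live] at hp

theorem Red.val {s : St} {b : Bool} (h : ∀ x, s.sem x = b) : Red s (.val b) :=
  ⟨id, h, fun p _ hp => by simp [live] at hp, fun p hp => by simp [live] at hp⟩

/-- an injective code of small states, used for sorting -/
def code : ℕ → St → ℕ
  | _, .val false => 0
  | _, .val true => 1
  | _, .unk => 2
  | 0, .node _ _ _ => 3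
  | k + 1, .node a b c => 4 * (1 + a.code k + 2 ^ (9 * 3 ^ k) * (b.code k + 2 ^ (9 * 3 ^ k) * c.code k))

/-- merge a gate: collapse if two children have equal known values -/
def mk : St → St → St → St
  | .val true, .val true, _ => .val true
  | .val false, .val false, _ => .val false
  | .val true, _, .val true => .val true
  | .val false, _, .val false => .val false
  | _, .val true, .val true => .val true
  | _, .val false, .val false => .val false
  | a, b, c => .node a b c

theorem mk_red (a b c : St) : Red (.node a b c) (mk a b c) := by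
  unfold mk
  split
  · exact Red.val fun x => by simp [sem, maj3]
  · exact Red.val fun x => by simp [sem, maj3]
  · exact Red.val fun x => by simp [sem, maj3]
  · exact Red.val fun x => by simp [sem, maj3]
  · exact Red.val fun x => by simp [sem, maj3]
  · exact Red.val fun x => by simp [sem, maj3]
  · exact Red.refl _

/-- sort the children -/
def s01 (k : ℕ) : St → St
  | .node a b c => if Nat.ble (a.code k) (b.code k) = true then .node a b c else .node b a c
  | s => s
def s12 (k : ℕ) : St → St
  | .node a b c => if Nat.ble (b.code k) (c.code k) = true then .node a b c else .node a c b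
  | s => s

theorem s01_red (k : ℕ) (s : St) : Red s (s01 k s) := by
  unfold s01
  split
  · split_ifs
    · exact Red.refl _
    · exact Red.sw01 _ _ _
  · exact Red.refl _

theorem s12_red (k : ℕ) (s : St) : Red s (s12 k s) := by
  unfold s12
  split
  · split_ifs
    · exact Red.refl _
    · exact Red.sw12 _ _ _
  · exact Red.refl _

/-- normal form -/
def nf : ℕ → St → St
  | 0, s => s
  | _ + 1, .unk => .unk
  | _ + 1, .val b => .val b
  | k + 1, .node a b c => s01 k (s12 k (s01 k (mk (nf k a) (nf k b) (nf k c))))

theorem nf_red : ∀ (k : ℕ) (s : St), Red s (nf k s)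
  | 0, s => Red.refl s
  | _ + 1, .unk => Red.refl _
  | _ + 1, .val _ => Red.refl _
  | k + 1, .node a b c => by
      have h1 : Red (.node a b c) (mk (nf k a) (nf k b) (nf k c)) :=
        (Red.node (nf_red k a) (nf_red k b) (nf_red k c)).trans (mk_red _ _ _)
      exact ((h1.trans (s01_red k _)).trans (s12_red k _)).trans (s01_red k _)

/-! ### achievable costs -/

/-- there is a strategy from the state `s` of expected cost at most `v` -/
def Ach (s : St) (v : ℝ) : Prop :=
  ∃ T : QTree (List Dir), T.NR ∧ (∀ p ∈ T.posn, s.live p) ∧ T.Computes s.sem ∧ T.rcost ≤ v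

theorem Ach.mono {s : St} {v w : ℝ} (h : Ach s v) (hw : v ≤ w) : Ach s w := by
  obtain ⟨T, h1, h2, h3, h4⟩ := h
  exact ⟨T, h1, h2, h3, h4.trans hw⟩

theorem Ach.val (b : Bool) : Ach (.val b) 0 :=
  ⟨.stop, trivial, fun p hp => by simp [QTree.posn] at hp, fun _ _ _ => rfl, le_refl _⟩

end St

/-! ### relabelling by a map that is injective on the positions -/

theorem queried_map_image {ι κ : Type} (e : ι → κ) (x : κ → Bool) : ∀ T : QTree ι,
    (T.map e).queried x = e '' (T.queried (x ∘ e))
  | .stop => by simp [QTree.map, QTree.queried]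
  | .query j l r => by
      rw [QTree.map, QTree.queried, QTree.queried, Set.image_insert_eq, queried_map_image e x l,
        queried_map_image e x r]
      simp only [Function.comp_apply]
      split_ifs <;> rfl

theorem posn_map {ι κ : Type} (e : ι → κ) : ∀ T : QTree ι, (T.map e).posn = e '' T.posn
  | .stop => by simp [QTree.map, QTree.posn]
  | .query j l r => by
      rw [QTree.map, QTree.posn, QTree.posn, Set.image_insert_eq, Set.image_union, posn_map e l,
        posn_map e r]

theorem rcost_map {ι κ : Type} (e : ι → κ) : ∀ T : QTree ι, (T.map e).rcost = T.rcost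
  | .stop => rfl
  | .query j l r => by rw [QTree.map, QTree.rcost, QTree.rcost, rcost_map e l, rcost_map e r]

theorem NR_map {ι κ : Type} (e : ι → κ) : ∀ T : QTree ι,
    (∀ p ∈ T.posn, ∀ q ∈ T.posn, e p = e q → p = q) → T.NR → (T.map e).NR
  | .stop, _, _ => trivial
  | .query j l r, he, h => by
      obtain ⟨h1, h2, h3, h4⟩ := h
      have hl : ∀ p ∈ l.posn, p ∈ (QTree.query j l r).posn := fun p hp =>
        Set.mem_insert_of_mem _ (Or.inl hp)
      have hr : ∀ p ∈ r.posn, p ∈ (QTree.query j l r).posn := fun p hp =>
        Set.mem_insert_of_mem _ (Or.inr hp)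
      have hj : j ∈ (QTree.query j l r).posn := Set.mem_insert _ _
      refine ⟨?_, ?_, NR_map e l (fun p hp q hq => he p (hl p hp) q (hl q hq)) h3,
        NR_map e r (fun p hp q hq => he p (hr p hp) q (hr q hq)) h4⟩
      · rw [posn_map]
        rintro ⟨p, hp, hpe⟩
        exact h1 (he p (hl p hp) j hj hpe ▸ hp)
      · rw [posn_map]
        rintro ⟨p, hp, hpe⟩
        exact h2 (he p (hr p hp) j hj hpe ▸ hp)

theorem computes_map_image {ι κ : Type} (e : ι → κ) (f : (ι → Bool) → Bool)
    (f' : (κ → Bool) → Bool) (hf : ∀ x, f' x = f (x ∘ e)) (T : QTree ι) (hT : T.Computes f) :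
    (T.map e).Computes f' := by
  intro x y h
  rw [hf, hf]
  refine hT _ _ fun i hi => ?_
  refine h (e i) ?_
  rw [queried_map_image]
  exact ⟨i, hi, rfl⟩

namespace St

theorem Ach.of_red {s t : St} {v : ℝ} (h : Red s t) (ht : Ach t v) : Ach s v := by
  obtain ⟨e, h1, h2, h3⟩ := h
  obtain ⟨T, t1, t2, t3, t4⟩ := ht
  refine ⟨T.map e, NR_map e T (fun p hp q hq => h2 p q (t2 p hp) (t2 q hq)) t1, ?_,
    computes_map_image e _ _ h1 T t3, by rw [rcost_map]; exact t4⟩
  intro p hp
  rw [posn_map] at hp
  obtain ⟨q, hq, rfl⟩ := hp
  exact h3 q (t2 q hq)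

/-- swap the roles of the two bits -/
def _root_.Pool.Agent.MP_58cb87_lc.QTree.flip {ι : Type} : QTree ι → QTree ι
  | .stop => .stop
  | .query i l r => .query i r.flip l.flip

theorem queried_flip {ι : Type} (x : ι → Bool) : ∀ T : QTree ι,
    T.flip.queried x = T.queried fun i => !x i
  | .stop => rfl
  | .query i l r => by
      rw [QTree.flip, QTree.queried, QTree.queried, queried_flip x l, queried_flip x r]
      cases x i <;> simp

theorem posn_flip {ι : Type} : ∀ T : QTree ι, T.flip.posn = T.posn
  | .stop => rfl
  | .query i l r => by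
      rw [QTree.flip, QTree.posn, QTree.posn, posn_flip l, posn_flip r, Set.union_comm]

theorem rcost_flip {ι : Type} : ∀ T : QTree ι, T.flip.rcost = T.rcost
  | .stop => rfl
  | .query i l r => by
      rw [QTree.flip, QTree.rcost, QTree.rcost, rcost_flip l, rcost_flip r, add_comm l.rcost]

theorem NR_flip {ι : Type} : ∀ T : QTree ι, T.NR → T.flip.NR
  | .stop, _ => trivial
  | .query i l r, ⟨h1, h2, h3, h4⟩ =>
      ⟨by rw [posn_flip]; exact h2, by rw [posn_flip]; exact h1, NR_flip r h4, NR_flip l h3⟩

theorem sem_neg : ∀ (s : St) (x : List Dir → Bool), s.neg.sem x = !(s.sem fun p => !x p)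
  | .unk, x => by simp [neg, sem]
  | .val b, x => rfl
  | .node a b c, x => by
      rw [neg, sem, sem, sem_neg a, sem_neg b, sem_neg c, ← maj3_not]

theorem live_neg : ∀ (s : St) (p : List Dir), s.neg.live p ↔ s.live p
  | .unk, [] => Iff.rfl
  | .unk, _ :: _ => Iff.rfl
  | .val _, _ => Iff.rfl
  | .node _ _ _, [] => Iff.rfl
  | .node a _ _, .d0 :: p => live_neg a p
  | .node _ b _, .d1 :: p => live_neg b p
  | .node _ _ c, .d2 :: p => live_neg c p

theorem Ach.of_neg {s : St} {v : ℝ} (h : Ach s.neg v) : Ach s v := by
  obtain ⟨T, t1, t2, t3, t4⟩ := h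
  refine ⟨T.flip, NR_flip T t1, ?_, ?_, by rw [rcost_flip]; exact t4⟩
  · intro p hp
    rw [posn_flip] at hp
    exact (live_neg s p).1 (t2 p hp)
  · intro x y h
    have := t3 (fun p => !x p) (fun p => !y p) (fun i hi => by
      rw [h i (by rw [queried_flip]; exact hi)])
    rw [sem_neg, sem_neg] at this
    simpa using this

theorem Ach.query {s : St} {p : List Dir} (hp : s.live p) {v0 v1 : ℝ}
    (h0 : Ach (s.set p false) v0) (h1 : Ach (s.set p true) v1) : Ach s (1 + (v0 + v1) / 2) := by
  obtain ⟨T0, a1, a2, a3, a4⟩ := h0
  obtain ⟨T1, b1, b2, b3, b4⟩ := h1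
  refine ⟨.query p T0 T1, ⟨fun h => (live_set false s p p hp (a2 p h)).2 rfl,
    fun h => (live_set true s p p hp (b2 p h)).2 rfl, a1, b1⟩, ?_, ?_, ?_⟩
  · intro q hq
    rcases hq with rfl | hq | hq
    · exact hp
    · exact (live_set false s p q hp (a2 q hq)).1
    · exact (live_set true s p q hp (b2 q hq)).1
  · intro x y h
    rw [QTree.queried] at h
    have hpy : y p = x p := h p (Set.mem_insert _ _)
    by_cases hx : x p = true
    · rw [if_pos hx] at h
      have := b3 x y fun i hi => h i (Set.mem_insert_of_mem _ hi)
      rw [sem_set true s p _ hp, sem_set true s p _ hp] at this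
      have e1 : update x p true = x := by rw [← hx]; simp
      have e2 : update y p true = y := by rw [← hx, ← hpy]; simp
      rwa [e1, e2] at this
    · rw [if_neg hx] at h
      have hx' : x p = false := by simpa using hx
      have := a3 x y fun i hi => h i (Set.mem_insert_of_mem _ hi)
      rw [sem_set false s p _ hp, sem_set false s p _ hp] at this
      have e1 : update x p false = x := by rw [← hx']; simp
      have e2 : update y p false = y := by rw [← hx', ← hpy]; simp
      rwa [e1, e2] at this
  · rw [QTree.rcost]; linarith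

/-! ### the checker -/

def beq : St → St → Bool
  | .unk, .unk => true
  | .val a, .val b => a == b
  | .node a b c, .node a' b' c' => beq a a' && (beq b b' && beq c c')
  | _, _ => false

theorem eq_of_beq : ∀ (s t : St), beq s t = true → s = t
  | .unk, .unk, _ => rfl
  | .val a, .val b, h => by
      have : a = b := by simpa [beq] using h
      rw [this]
  | .node a b c, .node a' b' c', h => by
      simp only [beq, Bool.and_eq_true] at h
      rw [eq_of_beq a a' h.1, eq_of_beq b b' h.2.1, eq_of_beq c c' h.2.2]
  | .unk, .val _, h => by simp [beq] at h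
  | .unk, .node _ _ _, h => by simp [beq] at h
  | .val _, .unk, h => by simp [beq] at h
  | .val _, .node _ _ _, h => by simp [beq] at h
  | .node _ _ _, .unk, h => by simp [beq] at h
  | .node _ _ _, .val _, h => by simp [beq] at h

/-- table of achieved states with numerators of the costs -/
abbrev Table := List (St × ℕ)

def lookup : Table → ℕ → St × ℕ
  | [], _ => (.val true, 0)
  | t :: _, 0 => t
  | _ :: l, n + 1 => lookup l n

/-- how a successor state is treated: known value, a table entry, or the negation of one -/
inductive How : Type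
  | known : How
  | tab (n : ℕ) : How
  | ntab (n : ℕ) : How

/-- cost of a successor, if the indication is right -/
def succ (tb : Table) (s : St) : How → Option ℕ
  | .known => match nf 3 s with
    | .val _ => some 0
    | _ => none
  | .tab n => if beq (nf 3 s) (lookup tb n).1 = true then some (lookup tb n).2 else none
  | .ntab n => if beq (nf 3 s.neg) (lookup tb n).1 = true then some (lookup tb n).2 else none

/-- an entry of the certificate -/
structure Entry : Type where
  s : St
  p : List Dir
  h0 : How
  h1 : How
  v : ℕ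

/-- the common denominator -/
def Den : ℕ := 1048576

def stepOk (tb : Table) (E : Entry) : Bool :=
  E.s.isLive E.p && match succ tb (E.s.set E.p false) E.h0, succ tb (E.s.set E.p true) E.h1 with
    | some a, some b => Nat.ble (2 * Den + a + b) (2 * E.v)
    | _, _ => false

def run : Table → List Entry → Option Table
  | tb, [] => some tb
  | tb, E :: l => if stepOk tb E = true then run ((E.s, E.v) :: tb) l else none

def Good (tb : Table) : Prop := ∀ t ∈ tb, Ach t.1 ((t.2 : ℝ) / Den)

theorem lookup_good {tb : Table} (h : Good tb) (n : ℕ) :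
    Ach (lookup tb n).1 (((lookup tb n).2 : ℝ) / Den) := by
  induction tb generalizing n with
  | nil => simpa [lookup] using Ach.val true
  | cons t l ih =>
    cases n with
    | zero => exact h t (by simp)
    | succ n => exact ih (fun t ht => h t (by simp [ht])) n

theorem succ_good {tb : Table} (h : Good tb) (s : St) (w : How) (a : ℕ)
    (ha : succ tb s w = some a) : Ach s ((a : ℝ) / Den) := by
  cases w with
  | known =>
    simp only [succ] at ha
    split at ha
    · rename_i b hb
      simp only [Option.some.injEq] at ha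
      subst ha
      refine Ach.of_red (nf_red 3 s) ?_
      rw [hb]
      simpa using Ach.val b
    · exact absurd ha (by simp)
  | tab n =>
    simp only [succ] at ha
    split_ifs at ha with hb
    · simp only [Option.some.injEq] at ha
      subst ha
      refine Ach.of_red (nf_red 3 s) ?_
      rw [eq_of_beq _ _ hb]
      exact lookup_good h n
  | ntab n =>
    simp only [succ] at ha
    split_ifs at ha with hb
    · simp only [Option.some.injEq] at ha
      subst ha
      refine Ach.of_neg (Ach.of_red (nf_red 3 s.neg) ?_)
      rw [eq_of_beq _ _ hb]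
      exact lookup_good h n

theorem Den_pos : (0 : ℝ) < Den := by norm_num [Den]

theorem step_good {tb : Table} (h : Good tb) (E : Entry) (hE : stepOk tb E = true) :
    Ach E.s ((E.v : ℝ) / Den) := by
  rw [stepOk, Bool.and_eq_true] at hE
  obtain ⟨h1, h2⟩ := hE
  have hl := live_of_isLive _ _ h1
  split at h2
  · rename_i a b ha hb
    have := Ach.query hl (succ_good h _ _ _ ha) (succ_good h _ _ _ hb)
    refine this.mono ?_
    have h3 : 2 * Den + a + b ≤ 2 * E.v := Nat.le_of_ble_eq_true h2
    have h4 : (2 * (Den : ℝ) + a + b) ≤ 2 * E.v := by exact_mod_cast h3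
    rw [le_div_iff₀ Den_pos]
    have hD := Den_pos
    field_simp
    linarith
  · exact absurd h2 (by simp)

theorem run_good : ∀ (l : List Entry) (tb tb' : Table), Good tb → run tb l = some tb' → Good tb'
  | [], tb, tb', h, hr => by
      simp only [run, Option.some.injEq] at hr
      subst hr
      exact h
  | E :: l, tb, tb', h, hr => by
      simp only [run] at hr
      split_ifs at hr with hE
      refine run_good l _ tb' ?_ hr
      intro t ht
      rcases List.mem_cons.1 ht with rfl | ht
      · exact step_good h E hE
      · exact h t ht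

/-- the fresh state of depth `k` -/
def fresh : ℕ → St
  | 0 => .unk
  | k + 1 => .node (fresh k) (fresh k) (fresh k)

/-- final check: the last entry is the fresh state with the given value -/
def checkAll (l : List Entry) (k v : ℕ) : Bool :=
  match run [] l with
  | some (t :: _) => beq t.1 (fresh k) && Nat.ble t.2 v
  | _ => false

theorem checkAll_good (l : List Entry) (k v : ℕ) (h : checkAll l k v = true) :
    Ach (fresh k) ((v : ℝ) / Den) := by
  rw [checkAll] at h
  split at h
  · rename_i t tb hr
    rw [Bool.and_eq_true] at h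
    have hg := run_good l [] _ (fun t ht => by simp at ht) hr
    have h1 := hg t (by simp)
    rw [eq_of_beq _ _ h.1] at h1
    refine h1.mono ?_
    have h2 : t.2 ≤ v := Nat.le_of_ble_eq_true h.2
    have h3 : (t.2 : ℝ) ≤ v := by exact_mod_cast h2
    exact div_le_div_of_nonneg_right h3 Den_pos.le
  · exact absurd h (by simp)

/-! ### transfer to `Fin (3 ^ k)` -/

def dirFin : Dir → Fin 3
  | .d0 => 0
  | .d1 => 1
  | .d2 => 2

/-- position of a path -/
def posOf : (k : ℕ) → List Dir → Fin (3 ^ k)
  | 0, _ => ⟨0, Nat.one_pos⟩
  | k + 1, [] => ⟨0, by positivity⟩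
  | k + 1, d :: p => blockPos k (dirFin d) (posOf k p)

theorem sem_fresh : ∀ (k : ℕ) (x : Fin (3 ^ k) → Bool),
    iterMaj k x = (fresh k).sem (x ∘ posOf k)
  | 0, x => rfl
  | k + 1, x => by
      rw [iterMaj, fresh, sem, sem_fresh k, sem_fresh k, sem_fresh k]
      rfl

theorem posOf_inj : ∀ (k : ℕ) (p q : List Dir), (fresh k).live p → (fresh k).live q →
    posOf k p = posOf k q → p = q
  | 0, [], [], _, _, _ => rfl
  | 0, _ :: _, _, hp, _, _ => absurd hp (by simp [fresh, live])
  | 0, _, _ :: _, _, hq, _ => absurd hq (by simp [fresh, live])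
  | k + 1, [], _, hp, _, _ => absurd hp (by simp [fresh, live])
  | k + 1, _, [], _, hq, _ => absurd hq (by simp [fresh, live])
  | k + 1, d :: p, d' :: q, hp, hq, h => by
      have h2 := blockPos_injective k (a₁ := (dirFin d, posOf k p)) (a₂ := (dirFin d', posOf k q)) h
      rw [Prod.mk.injEq] at h2
      have hp' : (fresh k).live p := by cases d <;> exact hp
      have hq' : (fresh k).live q := by cases d' <;> exact hq
      have hd : d = d' := by
        have := h2.1
        cases d <;> cases d' <;> first | rfl | exact absurd this (by decide)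
      rw [hd, posOf_inj k p q hp' hq' h2.2]

theorem revealment_le_of_ach (k : ℕ) (v : ℝ) (h : Ach (fresh k) v) :
    revealment (iterMaj k) ≤ v / 3 ^ k := by
  obtain ⟨T, t1, t2, t3, t4⟩ := h
  have hNR : (T.map (posOf k)).NR :=
    NR_map (posOf k) T (fun p hp q hq => posOf_inj k p q (t2 p hp) (t2 q hq)) t1
  have h1 := revealment_le_cost k (T.map (posOf k))
    (computes_map_image (posOf k) _ _ (sem_fresh k) T t3)
  rw [cost_of_NR _ hNR, rcost_map] at h1
  exact h1.trans (div_le_div_of_nonneg_right t4 (by positivity))

end St

end Pool.Agent.MP_58cb87_lc
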