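import Pool.Agent.Lib.MP_58cb87_lc.Submul

/-!
Symmetrisation over cyclic shifts, and the recursive cost of non-repeating trees.
-/

namespace Pool.Agent.MP_58cb87_lc

open Finset Function
open scoped Classical

set_option linter.unusedSectionVars false

/-! ### cyclic shifts -/

theorem maj3_cyc (a b c : Bool) : maj3 b c a = maj3 a b c := by
  cases a <;> cases b <;> cases c <;> rfl

/-- shift of the block index by `c` -/
def shiftFin (c : Fin 3) : Equiv.Perm (Fin 3) := Equiv.addRight c

/-- shift at the outer level by `c` and by `e` inside each block -/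
noncomputable def liftShift (k : ℕ) (c : Fin 3) (e : Equiv.Perm (Fin (3 ^ k))) :
    Equiv.Perm (Fin (3 ^ (k + 1))) :=
  (blockEquiv k).symm.trans (((shiftFin c).prodCongr e).trans (blockEquiv k))

theorem liftShift_apply (k : ℕ) (c : Fin 3) (e : Equiv.Perm (Fin (3 ^ k))) (j : Fin 3)
    (i : Fin (3 ^ k)) : liftShift k c e (blockPos k j i) = blockPos k (j + c) (e i) := by
  have h0 : (blockEquiv k).symm (blockPos k j i) = (j, i) := by
    rw [← blockEquiv_apply, Equiv.symm_apply_apply]
  simp [liftShift, h0, blockEquiv_apply, shiftFin]

theorem exists_shifts : ∀ k : ℕ, ∃ e : Fin (3 ^ k) → Equiv.Perm (Fin (3 ^ k)),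
    (∀ g x, iterMaj k (x ∘ e g) = iterMaj k x) ∧ ∀ i, Function.Injective fun g => e g i
  | 0 => by
      have hs : Subsingleton (Fin (3 ^ 0)) := (inferInstance : Subsingleton (Fin 1))
      exact ⟨fun _ => Equiv.refl _, fun g x => rfl, fun i g g' _ => Subsingleton.elim _ _⟩
  | k + 1 => by
      obtain ⟨e, he, hinj⟩ := exists_shifts k
      refine ⟨fun p => liftShift k ((blockEquiv k).symm p).1 (e ((blockEquiv k).symm p).2),
        fun p x => ?_, fun q => ?_⟩
      · rw [iterMaj, iterMaj]
        simp only [Function.comp_apply, liftShift_apply]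
        generalize ((blockEquiv k).symm p).1 = c
        generalize ((blockEquiv k).symm p).2 = g
        have h1 : ∀ j : Fin 3, iterMaj k (fun i => x (blockPos k j (e g i)))
            = iterMaj k fun i => x (blockPos k j i) := fun j =>
          he g fun i => x (blockPos k j i)
        rw [h1, h1, h1]
        fin_cases c
        · rfl
        · simp only [Fin.mk_one]
          exact maj3_cyc _ _ _
        · simp only [Fin.reduceFinMk]
          exact (maj3_cyc _ _ _).symm
      · obtain ⟨j, i, rfl⟩ := exists_blockPos k q
        intro p p' h
        simp only [liftShift_apply] at h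
        have h2 := blockPos_injective k
          (a₁ := (j + ((blockEquiv k).symm p).1, e ((blockEquiv k).symm p).2 i))
          (a₂ := (j + ((blockEquiv k).symm p').1, e ((blockEquiv k).symm p').2 i)) h
        rw [Prod.mk.injEq] at h2
        have h3 : (blockEquiv k).symm p = (blockEquiv k).symm p' :=
          Prod.ext (add_left_cancel h2.1) (hinj i h2.2)
        exact (blockEquiv k).symm.injective h3

/-- symmetrisation -/
theorem revealment_le_cost (k : ℕ) (T : QTree (Fin (3 ^ k))) (hT : T.Computes (iterMaj k)) :
    revealment (iterMaj k) ≤ cost T / 3 ^ k := by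
  obtain ⟨e, he, hinj⟩ := exists_shifts k
  have hne : Nonempty (Fin (3 ^ k)) := ⟨⟨0, by positivity⟩⟩
  refine revealment_le _ ((PMF.uniformOfFintype (Fin (3 ^ k))).map fun g => T.map (e g)) ?_ _
    (div_nonneg (cost_nonneg T) (by positivity)) ?_
  · intro U hU
    rw [PMF.mem_support_map_iff] at hU
    obtain ⟨g, -, rfl⟩ := hU
    have := map_computes (e g) (iterMaj k) T hT
    intro x y h
    have h2 := this x y h
    simpa only [he] using h2
  · intro j
    refine le_of_eq ?_
    rw [readProb_eq_eR, eR, tsum_map, tsum_fintype,
      ENNReal.toReal_sum (fun g _ => ENNReal.mul_ne_top (PMF.apply_ne_top _ _)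
        ENNReal.ofReal_ne_top)]
    have h1 : ∀ g : Fin (3 ^ k), (((PMF.uniformOfFintype (Fin (3 ^ k))) g) *
        ENNReal.ofReal ((T.map (e g)).readProb j)).toReal
        = (3 ^ k : ℝ)⁻¹ * T.readProb ((e g).symm j) := by
      intro g
      rw [ENNReal.toReal_mul, ENNReal.toReal_ofReal (readProb_nonneg _ _)]
      congr 1
      · simp
      · conv_lhs => rw [← (e g).apply_symm_apply j]
        rw [readProb_map]
    simp_rw [h1]
    rw [← Finset.mul_sum, cost, div_eq_inv_mul]
    congr 1
    have hb : Function.Bijective fun g => (e g).symm j := by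
      rw [← Finite.injective_iff_bijective]
      intro g g' h
      have h' : (e g).symm j = (e g').symm j := h
      have h2 : e g ((e g).symm j) = e g' ((e g).symm j) := by
        rw [Equiv.apply_symm_apply, h', Equiv.apply_symm_apply]
      exact hinj _ h2
    exact hb.sum_comp (fun i => T.readProb i)

/-! ### recursive cost -/

/-- positions mentioned in a tree -/
def QTree.posn {ι : Type} : QTree ι → Set ι
  | .stop => ∅
  | .query i l r => insert i (l.posn ∪ r.posn)

/-- no position is queried twice on a path -/
def QTree.NR {ι : Type} : QTree ι → Prop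
  | .stop => True
  | .query i l r => i ∉ l.posn ∧ i ∉ r.posn ∧ l.NR ∧ r.NR

/-- number of queries on a path chosen by fair coins -/
noncomputable def QTree.rcost {ι : Type} : QTree ι → ℝ
  | .stop => 0
  | .query _ l r => 1 + (l.rcost + r.rcost) / 2

theorem queried_subset {ι : Type} (x : ι → Bool) : ∀ T : QTree ι, T.queried x ⊆ T.posn
  | .stop => by simp [QTree.queried]
  | .query i l r => by
      rw [QTree.queried, QTree.posn]
      refine Set.insert_subset_insert ?_
      split_ifs
      · exact (queried_subset x r).trans Set.subset_union_right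
      · exact (queried_subset x l).trans Set.subset_union_left

theorem queried_update_of_notMem {ι : Type} [DecidableEq ι] (i : ι) (b : Bool) (x : ι → Bool) :
    ∀ T : QTree ι, i ∉ T.posn → T.queried (update x i b) = T.queried x
  | .stop, _ => rfl
  | .query j l r, h => by
      simp only [QTree.posn, Set.mem_insert_iff, Set.mem_union, not_or] at h
      rw [QTree.queried, QTree.queried, update_of_ne (fun e => h.1 e.symm),
        queried_update_of_notMem i b x l h.2.1, queried_update_of_notMem i b x r h.2.2]

variable {ι : Type} [Fintype ι] [DecidableEq ι]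

theorem cost_of_NR : ∀ T : QTree ι, T.NR → cost T = T.rcost
  | .stop, _ => by
      rw [cost_eq]
      simp [QTree.queried, QTree.rcost]
  | .query i l r, h => by
      obtain ⟨h1, h2, h3, h4⟩ := h
      have e1 := cost_of_NR l h3
      have e2 := cost_of_NR r h4
      rw [QTree.rcost, ← e1, ← e2, cost_eq, cost_eq, cost_eq]
      have hN : NN ι ≠ 0 := NN_pos.ne'
      have key : ∀ x : ι → Bool, (∑ j, if j ∈ (QTree.query i l r).queried x then (1 : ℝ) else 0)
          = 1 + if x i = true then (∑ j, if j ∈ r.queried x then (1 : ℝ) else 0)
              else ∑ j, if j ∈ l.queried x then (1 : ℝ) else 0 := by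
        intro x
        rw [QTree.queried]
        have aux : ∀ S : Set ι, i ∉ S → (∑ j, if j ∈ insert i S then (1 : ℝ) else 0)
            = 1 + ∑ j, if j ∈ S then (1 : ℝ) else 0 := by
          intro S hS
          have : ∀ j, (if j ∈ insert i S then (1 : ℝ) else 0)
              = (if j = i then (1 : ℝ) else 0) + if j ∈ S then (1 : ℝ) else 0 := by
            intro j
            by_cases hj : j = i
            · subst hj; simp [hS]
            · simp [hj]
          simp_rw [this]
          rw [Finset.sum_add_distrib]
          simp
        split_ifs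
        · exact aux _ fun h => h2 (queried_subset x r h)
        · exact aux _ fun h => h1 (queried_subset x l h)
      simp_rw [key]
      rw [Finset.sum_add_distrib, sum_ite_indep i
        (fun x => ∑ j, if j ∈ l.queried x then (1 : ℝ) else 0)
        (fun x => ∑ j, if j ∈ r.queried x then (1 : ℝ) else 0)
        (fun x b => by simp only [queried_update_of_notMem i b x l h1])
        (fun x b => by simp only [queried_update_of_notMem i b x r h2])]
      have hone : ∑ _x : ι → Bool, (1 : ℝ) = NN ι := by simp [NN_eq]
      rw [hone]
      field_simp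

end Pool.Agent.MP_58cb87_lc
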