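import Pool.Agent.Lib.MP_58cb87_lc.Defs

/-!
General facts on decision trees, uniform inputs and revealment.
-/

namespace Pool.Agent.MP_58cb87_lc

open Finset Function
open scoped Classical

set_option linter.unusedSectionVars false

variable {ι : Type} [Fintype ι] [DecidableEq ι]

/-- number of inputs, as a real number -/
noncomputable def NN (ι : Type) [Fintype ι] : ℝ := (Nat.card (ι → Bool) : ℝ)

theorem NN_pos : 0 < NN ι := by
  unfold NN
  exact_mod_cast Nat.card_pos

theorem NN_eq : NN ι = (Fintype.card (ι → Bool) : ℝ) := by
  unfold NN; rw [Nat.card_eq_fintype_card]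

theorem readProb_eq (T : QTree ι) (i : ι) :
    T.readProb i = (∑ x : ι → Bool, if i ∈ T.queried x then (1 : ℝ) else 0) / NN ι := by
  unfold QTree.readProb NN
  congr 1
  rw [Nat.card_eq_fintype_card, Fintype.card_subtype, Finset.sum_boole]

theorem readProb_nonneg (T : QTree ι) (i : ι) : 0 ≤ T.readProb i := by
  unfold QTree.readProb; positivity

theorem readProb_le_one (T : QTree ι) (i : ι) : T.readProb i ≤ 1 := by
  rw [readProb_eq, div_le_one NN_pos, NN_eq]
  calc (∑ x : ι → Bool, if i ∈ T.queried x then (1 : ℝ) else 0) ≤ ∑ _x : ι → Bool, (1 : ℝ) :=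
        Finset.sum_le_sum fun x _ => by split_ifs <;> norm_num
    _ = _ := by simp

/-- expected number of queries -/
noncomputable def cost (T : QTree ι) : ℝ := ∑ i, T.readProb i

theorem cost_eq (T : QTree ι) :
    cost T = (∑ x : ι → Bool, ∑ i, if i ∈ T.queried x then (1 : ℝ) else 0) / NN ι := by
  unfold cost
  simp_rw [readProb_eq]
  rw [← Finset.sum_div, Finset.sum_comm]

/-! ### randomized algorithms -/

theorem toReal_sum_one (A : RandAlg ι) : ∑' T, (A T).toReal = 1 := by
  rw [← ENNReal.tsum_toReal_eq (fun T => PMF.apply_ne_top A T), PMF.tsum_coe]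
  simp

theorem summable_toReal (A : RandAlg ι) : Summable fun T => (A T).toReal :=
  ENNReal.summable_toReal (by rw [PMF.tsum_coe]; exact ENNReal.one_ne_top)

theorem summable_mul (A : RandAlg ι) (h : QTree ι → ℝ) (c : ℝ) (h0 : ∀ T, 0 ≤ h T)
    (h1 : ∀ T, h T ≤ c) : Summable fun T => (A T).toReal * h T := by
  refine Summable.of_nonneg_of_le (fun T => mul_nonneg ENNReal.toReal_nonneg (h0 T))
    (fun T => mul_le_mul_of_nonneg_left (h1 T) ENNReal.toReal_nonneg) ?_
  exact (summable_toReal A).mul_right c

theorem summable_readProb (A : RandAlg ι) (i : ι) :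
    Summable fun T => (A T).toReal * T.readProb i :=
  summable_mul A _ 1 (fun T => readProb_nonneg T i) (fun T => readProb_le_one T i)

theorem rand_readProb_nonneg (A : RandAlg ι) (i : ι) : 0 ≤ A.readProb i :=
  tsum_nonneg fun T => mul_nonneg ENNReal.toReal_nonneg (readProb_nonneg T i)

theorem rand_readProb_le_one (A : RandAlg ι) (i : ι) : A.readProb i ≤ 1 := by
  rw [← toReal_sum_one A]
  exact (summable_readProb A i).tsum_le_tsum (fun T => by
    have := mul_le_mul_of_nonneg_left (readProb_le_one T i) (ENNReal.toReal_nonneg (a := A T))
    simpa using this) (summable_toReal A)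

theorem sum_readProb_eq (A : RandAlg ι) : ∑ i, A.readProb i = ∑' T, (A T).toReal * cost T := by
  unfold RandAlg.readProb cost
  rw [← Summable.tsum_finsetSum (fun i _ => summable_readProb A i)]
  exact tsum_congr fun T => by rw [Finset.mul_sum]

theorem cost_nonneg (T : QTree ι) : 0 ≤ cost T := Finset.sum_nonneg fun i _ => readProb_nonneg T i

theorem cost_le (T : QTree ι) : cost T ≤ Fintype.card ι := by
  unfold cost
  calc ∑ i, T.readProb i ≤ ∑ _i : ι, (1 : ℝ) := Finset.sum_le_sum fun i _ => readProb_le_one T i
    _ = _ := by simp

theorem le_sum_readProb (A : RandAlg ι) (f : (ι → Bool) → Bool) (hA : A.Computes f) (c : ℝ)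
    (h : ∀ T : QTree ι, T.Computes f → c ≤ cost T) : c ≤ ∑ i, A.readProb i := by
  rw [sum_readProb_eq]
  calc c = ∑' T, (A T).toReal * c := by rw [tsum_mul_right, toReal_sum_one, one_mul]
    _ ≤ _ := by
      refine Summable.tsum_le_tsum (fun T => ?_) ((summable_toReal A).mul_right c)
        (summable_mul A _ _ cost_nonneg cost_le)
      by_cases hT : A T = 0
      · simp [hT]
      · exact mul_le_mul_of_nonneg_left (h T (hA T ((PMF.mem_support_iff A T).2 hT)))
          ENNReal.toReal_nonneg

/-- the tree that queries everything in a list -/
def askAll {ι : Type} : List ι → QTree ι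
  | [] => .stop
  | i :: l => .query i (askAll l) (askAll l)

theorem mem_askAll {ι : Type} (x : ι → Bool) : ∀ (l : List ι) (i : ι), i ∈ l →
    i ∈ (askAll l).queried x
  | j :: l, i, h => by
      rcases List.mem_cons.1 h with rfl | h
      · exact Set.mem_insert _ _
      · refine Set.mem_insert_of_mem _ ?_
        split_ifs <;> exact mem_askAll x l i h

theorem askAll_computes (f : (ι → Bool) → Bool) :
    (askAll (Finset.univ : Finset ι).toList).Computes f := by
  intro x y h
  have : y = x := funext fun i => h i (mem_askAll x _ i (by simp))
  rw [this]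

theorem exists_alg (f : (ι → Bool) → Bool) : Nonempty {A : RandAlg ι // A.Computes f} :=
  ⟨⟨PMF.pure (askAll (Finset.univ : Finset ι).toList), by
    intro T hT
    rw [PMF.mem_support_pure_iff] at hT
    subst hT
    exact askAll_computes f⟩⟩

theorem bdd (A : RandAlg ι) : BddAbove (Set.range fun i => A.readProb i) :=
  ⟨1, by rintro _ ⟨i, rfl⟩; exact rand_readProb_le_one A i⟩

theorem bddBelow (f : (ι → Bool) → Bool) :
    BddBelow (Set.range fun A : {A : RandAlg ι // A.Computes f} => ⨆ i : ι, A.1.readProb i) :=
  ⟨0, by rintro _ ⟨A, rfl⟩; exact Real.iSup_nonneg fun i => rand_readProb_nonneg A.1 i⟩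

theorem revealment_nonneg (f : (ι → Bool) → Bool) : 0 ≤ revealment f :=
  Real.iInf_nonneg fun A => Real.iSup_nonneg fun i => rand_readProb_nonneg A.1 i

theorem revealment_le (f : (ι → Bool) → Bool) (A : RandAlg ι) (hA : A.Computes f) (d : ℝ)
    (hd : 0 ≤ d) (h : ∀ i, A.readProb i ≤ d) : revealment f ≤ d :=
  (ciInf_le (bddBelow f) ⟨A, hA⟩).trans (Real.iSup_le h hd)

/-- averaging lower bound -/
theorem le_revealment [Nonempty ι] (f : (ι → Bool) → Bool) (c : ℝ)
    (h : ∀ T : QTree ι, T.Computes f → c ≤ cost T) :
    c / (Fintype.card ι : ℝ) ≤ revealment f := by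
  have := exists_alg f
  refine le_ciInf fun A => ?_
  have h1 := le_sum_readProb A.1 f A.2 c h
  have hc : (0 : ℝ) < Fintype.card ι := by exact_mod_cast Fintype.card_pos
  rw [div_le_iff₀ hc]
  calc c ≤ ∑ i, A.1.readProb i := h1
    _ ≤ ∑ _i : ι, ⨆ i : ι, A.1.readProb i := Finset.sum_le_sum fun i _ => le_ciSup (bdd A.1) i
    _ = _ := by simp [mul_comm]

/-! ### runs of a tree -/

/-- the knowledge after running `T` on `y` with previous knowledge `σ` -/
def run {ι : Type} [DecidableEq ι] : QTree ι → (ι → Bool) → (ι → Option Bool) → (ι → Option Bool)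
  | .stop, _, σ => σ
  | .query i l r, y, σ =>
      if y i = true then run r y (update σ i (some (y i))) else run l y (update σ i (some (y i)))

/-- `x` overridden by the knowledge `σ` -/
def comp {ι : Type} (σ : ι → Option Bool) (x : ι → Bool) : ι → Bool := fun i => (σ i).getD (x i)

/-- signs of bits -/
def sgn : Bool → ℝ
  | true => 1
  | false => -1

/-- numerical form of the knowledge -/
def val {ι : Type} (σ : ι → Option Bool) : ι → ℝ
  | i => match σ i with
    | none => 0
    | some b => sgn b

theorem run_apply {ι : Type} [DecidableEq ι] : ∀ (T : QTree ι) (y : ι → Bool) (σ : ι → Option Bool)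
    (j : ι), run T y σ j = if j ∈ T.queried y then some (y j) else σ j
  | .stop, y, σ, j => by simp [run, QTree.queried]
  | .query i l r, y, σ, j => by
      rw [run, QTree.queried]
      by_cases hy : y i = true
      · rw [if_pos hy, if_pos hy, run_apply r]
        by_cases h1 : j ∈ r.queried y
        · simp [h1]
        · by_cases h2 : j = i
          · subst h2; simp [h1]
          · simp [h1, h2]
      · rw [if_neg hy, if_neg hy, run_apply l]
        by_cases h1 : j ∈ l.queried y
        · simp [h1]
        · by_cases h2 : j = i
          · subst h2; simp [h1]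
          · simp [h1, h2]

/-- affine in each variable (midpoint form) -/
def MidAff {ι : Type} [DecidableEq ι] (g : (ι → ℝ) → ℝ) : Prop :=
  ∀ (s : ι → ℝ) (i : ι), g (update s i 1) + g (update s i (-1)) = 2 * g (update s i 0)

theorem sum_ite_indep (i : ι) (L R : (ι → Bool) → ℝ)
    (hL : ∀ x b, L (update x i b) = L x) (hR : ∀ x b, R (update x i b) = R x) :
    (∑ x : ι → Bool, if x i = true then R x else L x) = (∑ x, L x + ∑ x, R x) / 2 := by
  have hinv : Function.Involutive (fun x : ι → Bool => update x i (!x i)) := by
    intro x; simp
  have h1 : (∑ x : ι → Bool, if x i = true then R x else L x)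
      = ∑ x : ι → Bool, if x i = true then L x else R x := by
    rw [← Equiv.sum_comp (Function.Involutive.toPerm _ hinv)]
    refine Finset.sum_congr rfl fun x _ => ?_
    simp only [Function.Involutive.coe_toPerm, update_self, hL, hR]
    cases x i <;> simp
  have h2 : (∑ x : ι → Bool, if x i = true then R x else L x)
      + (∑ x : ι → Bool, if x i = true then L x else R x) = ∑ x, L x + ∑ x, R x := by
    rw [← Finset.sum_add_distrib, ← Finset.sum_add_distrib]
    refine Finset.sum_congr rfl fun x _ => ?_
    split_ifs <;> ring
  linarith

theorem comp_update_self {ι : Type} [DecidableEq ι] (σ : ι → Option Bool) (x : ι → Bool) (i : ι)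
    (b c : Bool) : comp (update σ i (some b)) (update x i c) = comp (update σ i (some b)) x := by
  funext j
  by_cases h : j = i
  · subst h; simp [comp]
  · simp [comp, h]

theorem comp_update_of_none {ι : Type} [DecidableEq ι] (σ : ι → Option Bool) (x : ι → Bool) (i : ι)
    (h : σ i = none) : comp σ x = comp (update σ i (some (x i))) x := by
  funext j
  by_cases hj : j = i
  · subst hj; simp [comp, h]
  · simp [comp, hj]

theorem val_update {ι : Type} [DecidableEq ι] (σ : ι → Option Bool) (i : ι) (b : Bool) :
    val (update σ i (some b)) = update (val σ) i (sgn b) := by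
  funext j
  by_cases hj : j = i
  · subst hj; simp [val]
  · simp [val, hj]

theorem val_of_none {ι : Type} [DecidableEq ι] (σ : ι → Option Bool) (i : ι) (h : σ i = none) :
    update (val σ) i 0 = val σ := by
  funext j
  by_cases hj : j = i
  · subst hj; simp [val, h]
  · simp [hj]

/-- the martingale property along a tree -/
theorem tree_mart (g : (ι → ℝ) → ℝ) (hg : MidAff g) : ∀ (T : QTree ι)
    (σ : ι → Option Bool), ∑ x : ι → Bool, g (val (run T (comp σ x) σ)) = NN ι * g (val σ)
  | .stop, σ => by simp [run, NN_eq]
  | .query i l r, σ => by
      cases hσ : σ i with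
      | some b =>
        have hc : ∀ x, comp σ x i = b := fun x => by simp [comp, hσ]
        have hu : update σ i (some b) = σ := by rw [← hσ]; simp
        simp only [run, hc, hu]
        cases b
        · simpa using tree_mart g hg l σ
        · simpa using tree_mart g hg r σ
      | none =>
        have hx : ∀ x, comp σ x i = x i := fun x => by simp [comp, hσ]
        have key : ∀ x : ι → Bool, g (val (run (.query i l r) (comp σ x) σ)) =
            if x i = true then
              g (val (run r (comp (update σ i (some true)) x) (update σ i (some true))))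
            else g (val (run l (comp (update σ i (some false)) x) (update σ i (some false)))) := by
          intro x
          rw [run, hx]
          split_ifs with h
          · rw [comp_update_of_none σ x i hσ, h]
          · have h' : x i = false := by simpa using h
            rw [comp_update_of_none σ x i hσ, h']
        simp_rw [key]
        rw [sum_ite_indep i
          (fun x => g (val (run l (comp (update σ i (some false)) x) (update σ i (some false)))))
          (fun x => g (val (run r (comp (update σ i (some true)) x) (update σ i (some true)))))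
          (fun x b => by simp only [comp_update_self]) (fun x b => by simp only [comp_update_self])]
        rw [tree_mart g hg l, tree_mart g hg r, val_update, val_update]
        have := hg (val σ) i
        rw [val_of_none σ i hσ] at this
        simp only [sgn]
        linear_combination (NN ι / 2) * this

theorem val_none {ι : Type} : val (fun _ : ι => (none : Option Bool)) = fun _ => 0 := by
  funext i; simp [val]

theorem comp_none {ι : Type} (x : ι → Bool) : comp (fun _ : ι => (none : Option Bool)) x = x := by
  funext i; simp [comp]

theorem tree_mart_zero (g : (ι → ℝ) → ℝ) (hg : MidAff g) (T : QTree ι) :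
    ∑ x : ι → Bool, g (val (run T x fun _ => none)) = NN ι * g fun _ => 0 := by
  have := tree_mart g hg T fun _ => none
  simpa [comp_none, val_none] using this

theorem val_run (T : QTree ι) (x : ι → Bool) (i : ι) :
    val (run T x fun _ => none) i = if i ∈ T.queried x then sgn (x i) else 0 := by
  simp only [val, run_apply]
  by_cases h : i ∈ T.queried x <;> simp [h]

theorem sgn_sq (b : Bool) : sgn b ^ 2 = 1 := by cases b <;> simp [sgn]

theorem cost_eq_val (T : QTree ι) :
    NN ι * cost T = ∑ x : ι → Bool, ∑ i, val (run T x fun _ => none) i ^ 2 := by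
  rw [cost_eq, mul_div_cancel₀ _ NN_pos.ne']
  refine Finset.sum_congr rfl fun x _ => Finset.sum_congr rfl fun i _ => ?_
  rw [val_run]
  split_ifs
  · rw [sgn_sq]
  · norm_num

/-- if the known bits determine the value then the functional has that value -/
theorem det_val (g : (ι → ℝ) → ℝ) (hg : MidAff g) (f : (ι → Bool) → Bool)
    (hgf : ∀ y : ι → Bool, g (fun i => sgn (y i)) = sgn (f y)) (v : Bool) :
    ∀ (n : ℕ) (σ : ι → Option Bool), (Finset.univ.filter fun i => σ i = none).card = n →
      (∀ y : ι → Bool, (∀ i b, σ i = some b → y i = b) → f y = v) → g (val σ) = sgn v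
  | 0, σ, hn, h => by
      have h0 : ∀ i, σ i ≠ none := by
        intro i hi
        have : i ∈ Finset.univ.filter fun i => σ i = none := by simp [hi]
        rw [Finset.card_eq_zero.1 hn] at this
        simp at this
      have h1 : val σ = fun i => sgn ((σ i).getD true) := by
        funext i
        have := h0 i
        cases hσ : σ i with
        | none => exact absurd hσ this
        | some b => simp [val, hσ]
      rw [h1, hgf, h]
      intro i b hb
      simp [hb]
  | n + 1, σ, hn, h => by
      have hne : (Finset.univ.filter fun i => σ i = none).Nonempty := by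
        rw [← Finset.card_pos, hn]; omega
      obtain ⟨i, hi⟩ := hne
      have hi' : σ i = none := by simpa using hi
      have hcard : ∀ b : Bool,
          (Finset.univ.filter fun j => update σ i (some b) j = none).card = n := by
        intro b
        have : (Finset.univ.filter fun j => update σ i (some b) j = none)
            = (Finset.univ.filter fun j => σ j = none).erase i := by
          ext j
          by_cases hj : j = i
          · subst hj; simp
          · simp [hj]
        rw [this, Finset.card_erase_of_mem hi, hn]; rfl
      have hb : ∀ b : Bool, g (update (val σ) i (sgn b)) = sgn v := by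
        intro b
        rw [← val_update]
        refine det_val g hg f hgf v n _ (hcard b) fun y hy => h y fun j c hj => ?_
        refine hy j c ?_
        have : j ≠ i := by rintro rfl; rw [hi'] at hj; cases hj
        simp [this, hj]
      have h2 := hg (val σ) i
      rw [val_of_none σ i hi'] at h2
      have ht := hb true
      have hf := hb false
      have e1 : sgn true = 1 := rfl
      have e2 : sgn false = -1 := rfl
      rw [e1] at ht
      rw [e2] at hf
      rw [ht, hf] at h2
      linarith

theorem computes_val (g : (ι → ℝ) → ℝ) (hg : MidAff g) (f : (ι → Bool) → Bool)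
    (hgf : ∀ y : ι → Bool, g (fun i => sgn (y i)) = sgn (f y)) (T : QTree ι) (hT : T.Computes f)
    (x : ι → Bool) : g (val (run T x fun _ => none)) = sgn (f x) := by
  refine det_val g hg f hgf (f x) _ _ rfl fun y hy => hT x y fun i hi => ?_
  refine hy i (x i) ?_
  rw [run_apply, if_pos hi]

end Pool.Agent.MP_58cb87_lc
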