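import Pool.Agent.Lib.MP_58cb87_lc.Cert3
import Pool.Agent.Lib.MP_58cb87_lc.Exponent

/-!
Upper bounds for the revealment of the iterated majority.
-/

namespace Pool.Agent.MP_58cb87_lc

open Filter Topology

theorem revealment_three : revealment (iterMaj 3) ≤ 15796051 / 28311552 := by
  have := St.revealment_le_of_ach 3 _ St.Cert3.ach
  norm_num at this ⊢
  exact this

theorem revealment_three_mul : ∀ m : ℕ, revealment (iterMaj (3 * m)) ≤ (15796051 / 28311552) ^ m
  | 0 => by simpa using revealment_le_one 0
  | m + 1 => by
      have h1 := revealment_submul 3 (3 * m)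
      have h2 := revealment_three_mul m
      have h3 := revealment_three
      have h4 : (15796051 / 28311552 : ℝ) ^ (m + 1)
          = 15796051 / 28311552 * (15796051 / 28311552) ^ m := by ring
      rw [h4]
      have h5 : revealment (iterMaj (3 * (m + 1)))
          ≤ revealment (iterMaj 3) * revealment (iterMaj (3 * m)) := h1
      refine h5.trans ?_
      exact mul_le_mul h3 h2 (revealment_nonneg _) (by norm_num)

theorem revealment_le_pow (k : ℕ) : revealment (iterMaj k) ≤ (15796051 / 28311552) ^ (k / 3) := by
  have h1 := revealment_submul (k % 3) (3 * (k / 3))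
  rw [Nat.div_add_mod] at h1
  calc revealment (iterMaj k) ≤ revealment (iterMaj (k % 3)) * revealment (iterMaj (3 * (k / 3))) :=
        h1
    _ ≤ 1 * (15796051 / 28311552) ^ (k / 3) :=
        mul_le_mul (revealment_le_one _) (revealment_three_mul _) (revealment_nonneg _) zero_le_one
    _ = _ := one_mul _

theorem expo_ge : Real.log (28311552 / 15796051) / Real.log 27 ≤ expo := by
  have h := le_expo 3 (by norm_num)
  refine le_trans ?_ h
  have h3 : (3 : ℝ) ^ 3 = 27 := by norm_num
  rw [h3]
  refine div_le_div_of_nonneg_right ?_ (Real.log_nonneg (by norm_num))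
  have h4 : Real.log (28311552 / 15796051) = -Real.log (15796051 / 28311552) := by
    rw [← Real.log_inv]; norm_num
  rw [h4]
  exact neg_le_neg (Real.log_le_log (revealment_pos 3) revealment_three)

end Pool.Agent.MP_58cb87_lc
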